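import Pool.Agent.N334.W.Stm
import Pool.Agent.TH650.GB.CB

set_option autoImplicit false

/-!
WD/AND (helper498): the formula of Andréief (Cauchy-Binet).
-/

open Matrix

namespace Pool.Agent.N334.W

theorem AND : S_AND := by
  intro N m c u v
  have h1 : (Matrix.of fun i j : Fin m => ∑ a, c a * u a i * v a j) =
      (Matrix.of fun (i : Fin m) (a : Fin N) => c a * u a i) *
        (Matrix.of fun (a : Fin N) (j : Fin m) => v a j) := by
    ext i j
    simp [Matrix.mul_apply]
  have h := Pool.Agent.TH650.GB.cb (R := ℝ) (Matrix.of fun (i : Fin m) (a : Fin N) => c a * u a i)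
    (Matrix.of fun (a : Fin N) (j : Fin m) => v a j)
  rw [Fintype.card_fin] at h
  rw [h1, h]
  refine Finset.sum_congr rfl fun f _ => ?_
  have h2 : (Matrix.of fun (i : Fin m) (a : Fin N) => c a * u a i).submatrix id f =
      (Matrix.of fun i j : Fin m => u (f i) j)ᵀ * Matrix.diagonal (fun i => c (f i)) := by
    ext i j
    simp [Matrix.mul_diagonal, mul_comm]
  have h3 : (Matrix.of fun (a : Fin N) (j : Fin m) => v a j).submatrix f id =
      Matrix.of fun i j : Fin m => v (f i) j := by
    ext i j
    rfl
  rw [h2, h3, Matrix.det_mul, Matrix.det_transpose, Matrix.det_diagonal]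
  ring

end Pool.Agent.N334.W
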