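import Pool.Agent.N334.W.Stm

/-! The archimedean bound: assembly. -/

open Polynomial Pool.Agent.H337R2 Filter Topology

namespace Pool.Agent.N334.W

noncomputable section

lemma AR_entry (hOM1 : S_OM1) (b h n t e : ℕ) :
    ((PowerSeries.coeff b (RS (sN n) (mu h) (PN h n * (X ^ e : ℚ[X]).comp (xp n)) (t : ℚ)) : ℚ) : ℝ) =
      ∑ k ∈ Finset.range (b + 1), ((om b h n (t : ℚ) k : ℚ) : ℝ) * (e.choose k : ℝ) *
        nx (4 * n) t ^ (e - k) := by
  rw [hOM1 b h n t (X ^ e)]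
  push_cast
  apply Finset.sum_congr rfl
  intro k _
  rw [← Polynomial.monomial_one_right_eq_X_pow, Polynomial.hasseDeriv_monomial, Polynomial.eval_monomial]
  unfold nx
  push_cast
  ring

lemma AR_tendsto (hLF : S_LF) (hOM1 : S_OM1) (b h n m : ℕ) (hb : Even b) (hb2 : 2 ≤ b) (hh : Even h)
    (hn : 1 ≤ n) (u : ℕ → ℚ) (hu : ∀ e, Odd e → b + 3 ≤ e → e < b + h → ((u e : ℚ) : ℝ) = zr e)
    (hm : 4 * m ≤ h * (2 * n + 1)) :
    Tendsto (fun T : ℕ => (MT (b + 1) (4 * n) m T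
      (fun t k => ((om b h n (t : ℚ) k : ℚ) : ℝ))).det) atTop (𝓝 ((DET b h n u m : ℚ) : ℝ)) := by
  have h1 : ((DET b h n u m : ℚ) : ℝ) =
      (Matrix.of fun i j : Fin m => ((NL b h n u (X ^ (i.1 + j.1)) : ℚ) : ℝ)).det := by
    unfold DET
    have := (Rat.castHom ℝ).map_det (Matrix.of fun i j : Fin m => NL b h n u (X ^ (i.1 + j.1)))
    rw [← Rat.coe_castHom (α := ℝ), this]
    congr 1
  rw [h1]
  have h2 : Tendsto (fun T : ℕ => MT (b + 1) (4 * n) m T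
      (fun t k => ((om b h n (t : ℚ) k : ℚ) : ℝ))) atTop
      (𝓝 (Matrix.of fun i j : Fin m => ((NL b h n u (X ^ (i.1 + j.1)) : ℚ) : ℝ))) := by
    refine tendsto_pi_nhds.2 fun i => tendsto_pi_nhds.2 fun j => ?_
    have hs := hLF b h n u (X ^ (i.1 + j.1)) hb hb2 hh hn hu (by
      rw [Polynomial.natDegree_X_pow]
      have := i.2
      have := j.2
      omega)
    have h3 := hs.tendsto_sum_nat
    refine h3.congr fun T => ?_
    unfold MT
    rw [Matrix.of_apply]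
    apply Finset.sum_congr rfl
    intro t _
    exact AR_entry hOM1 b h n t (i.1 + j.1)
  have hc : Continuous fun M : Matrix (Fin m) (Fin m) ℝ => M.det := continuous_id.matrix_det
  exact (hc.tendsto _).comp h2

/-- the bound `B` -/
def AR_y (s h ν : ℕ) (K' : ℝ) : ℝ :=
  ((10 * ν - 1 : ℕ) * Real.log (K' * r0 (10 * ν) ^ (5 * h - 13 * s) * ((20 * ν).factorial : ℝ) ^ (13 * s)) +
    5 * s * Real.log (Dcl (40 * ν) (7 * ν + 5) (10 * ν - 1))) / 5

lemma Dcl_pos {ν : ℕ} (hν : 2 ≤ ν) : 0 < Dcl (40 * ν) (7 * ν + 5) (10 * ν - 1) := by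
  unfold Dcl
  apply Finset.prod_pos
  intro i hi
  rw [Finset.mem_range] at hi
  have h1 : 0 < ∏ j ∈ Finset.range (10 * ν - 1), (((40 * ν : ℕ) : ℝ) - 2 * ((7 * ν + 5 : ℕ) : ℝ) - i - j) := by
    apply Finset.prod_pos
    intro j hj
    rw [Finset.mem_range] at hj
    have h2 : (i : ℝ) + j + 2 * ((7 * ν + 5 : ℕ) : ℝ) < ((40 * ν : ℕ) : ℝ) := by
      exact_mod_cast (by omega : i + j + 2 * (7 * ν + 5) < 40 * ν)
    linarith
  positivity

lemma r0_pos (n : ℕ) : 0 < r0 n := by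
  unfold r0
  positivity

lemma vd_nonneg (c : ℕ) (A : Finset ℕ) : 0 ≤ vd c A := by
  unfold vd
  apply Finset.prod_nonneg
  intro a _
  apply Finset.prod_nonneg
  intro b hb
  rw [Finset.mem_filter] at hb
  have : (a : ℝ) ≤ b := by exact_mod_cast hb.2.le
  unfold nx
  have h0 : (0 : ℝ) ≤ a := by positivity
  have hc : (0 : ℝ) ≤ c := by positivity
  nlinarith

lemma wcl_nonneg (c A t : ℕ) : 0 ≤ wcl c A t := by
  unfold wcl
  positivity

lemma Rt_nonneg (h n t : ℕ) : 0 ≤ Rt h n t := by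
  unfold Rt
  apply div_nonneg (by positivity)
  apply pow_nonneg
  apply Finset.prod_nonneg
  intro k _
  positivity

lemma AR_bound (hLF : S_LF) (hOM1 : S_OM1) (hARCH : S_ARCH) (hCL : S_CL) (b h ν : ℕ) (K K' : ℝ)
    (hK : 0 < K) (hK' : 0 < K')
    (hom : ∀ n t k : ℕ, 1 ≤ n → k ≤ b →
      |((om b h n (t : ℚ) k : ℚ) : ℝ)| ≤ K * Rt h n t * (2 * (t : ℝ) + 4 * n) ^ k)
    (hdom : ∀ ν t : ℕ, 2 ≤ ν → (K * Rt h (10 * ν) t * ((t : ℝ) + 40 * ν) ^ (6 * (b + 1) + 2)) ^ 5 ≤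
      K' * r0 (10 * ν) ^ (5 * h - 13 * (b + 1)) * ((20 * ν).factorial : ℝ) ^ (13 * (b + 1)) *
        wcl (40 * ν) (7 * ν + 5) t ^ (5 * (b + 1)))
    (hb : Even b) (hb2 : 2 ≤ b) (hh : Even h) (hh2 : 2 * (b + 1) ≤ h) (hν : 2 ≤ ν)
    (u : ℕ → ℚ) (hu : ∀ e, Odd e → b + 3 ≤ e → e < b + h → ((u e : ℚ) : ℝ) = zr e) :
    |((DET b h (10 * ν) u ((b + 1) * (10 * ν - 1)) : ℚ) : ℝ)| ≤
      (36 ^ (b + 1) * ((b + 1 : ℕ) : ℝ) ^ 2) ^ ((b + 1) * (10 * ν - 1)) *
      Real.exp (2 * (((b + 1) * (10 * ν - 1) : ℕ) : ℝ) * ((b + 1 : ℕ) : ℝ) *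
        (1 + Real.log (((b + 1) * (10 * ν - 1) : ℕ) : ℝ))) *
      Real.exp (AR_y (b + 1) h ν K') ^ (b + 1) := by
  have ht := AR_tendsto hLF hOM1 b h (10 * ν) ((b + 1) * (10 * ν - 1)) hb hb2 hh (by omega) u hu (by
    have h1 : 4 * ((b + 1) * (10 * ν - 1)) ≤ 4 * ((b + 1) * (10 * ν)) :=
      Nat.mul_le_mul_left _ (Nat.mul_le_mul_left _ (by omega))
    have h2 : 2 * (b + 1) * (2 * (10 * ν) + 1) ≤ h * (2 * (10 * ν) + 1) := Nat.mul_le_mul_right _ hh2
    nlinarith)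
  refine le_of_tendsto ht.abs (Eventually.of_forall fun T => ?_)
  have hc : 4 * (10 * ν) = 40 * ν := by ring
  have hQ : 0 < K' * r0 (10 * ν) ^ (5 * h - 13 * (b + 1)) * ((20 * ν).factorial : ℝ) ^ (13 * (b + 1)) := by
    have := r0_pos (10 * ν)
    positivity
  have hD := Dcl_pos hν
  have h5 : Real.exp (AR_y (b + 1) h ν K') ^ 5 =
      (K' * r0 (10 * ν) ^ (5 * h - 13 * (b + 1)) * ((20 * ν).factorial : ℝ) ^ (13 * (b + 1))) ^ (10 * ν - 1) *
        Dcl (40 * ν) (7 * ν + 5) (10 * ν - 1) ^ (5 * (b + 1)) := by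
    rw [← Real.exp_nat_mul]
    have : ((5 : ℕ) : ℝ) * AR_y (b + 1) h ν K' = (10 * ν - 1 : ℕ) *
        Real.log (K' * r0 (10 * ν) ^ (5 * h - 13 * (b + 1)) * ((20 * ν).factorial : ℝ) ^ (13 * (b + 1))) +
        ((5 * (b + 1) : ℕ) : ℝ) * Real.log (Dcl (40 * ν) (7 * ν + 5) (10 * ν - 1)) := by
      unfold AR_y
      push_cast
      ring
    rw [this, Real.exp_add, Real.exp_nat_mul, Real.exp_nat_mul, Real.exp_log hQ, Real.exp_log hD]
  have key := hARCH (b + 1) (4 * (10 * ν)) (10 * ν - 1) T (fun t => K * Rt h (10 * ν) t)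
    (fun t k => ((om b h (10 * ν) (t : ℚ) k : ℚ) : ℝ)) (Real.exp (AR_y (b + 1) h ν K')) (by omega) (by omega)
    (by omega) (fun t => mul_nonneg hK.le (Rt_nonneg _ _ _)) (fun t k hk => by
      have := hom (10 * ν) t k (by omega) (by omega)
      simpa using this) (Real.exp_pos _).le (fun A hA => by
      have hWn : ∀ a : ℕ, 0 ≤ K * Rt h (10 * ν) a * ((a : ℝ) + 40 * ν) ^ (6 * (b + 1) + 2) := by
        intro a
        have := Rt_nonneg h (10 * ν) a
        positivity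
      have h6 : (∏ a ∈ A, K * Rt h (10 * ν) a * ((a : ℝ) + ((4 * (10 * ν) : ℕ) : ℝ)) ^ (6 * (b + 1) + 2)) =
          ∏ a ∈ A, K * Rt h (10 * ν) a * ((a : ℝ) + 40 * ν) ^ (6 * (b + 1) + 2) := by
        apply Finset.prod_congr rfl
        intro a _
        rw [hc]
        push_cast
        ring
      rw [h6, hc]
      have h7 : 0 ≤ (∏ a ∈ A, K * Rt h (10 * ν) a * ((a : ℝ) + 40 * ν) ^ (6 * (b + 1) + 2)) *
          vd (40 * ν) A ^ (2 * (b + 1)) :=
        mul_nonneg (Finset.prod_nonneg fun a _ => hWn a) (pow_nonneg (vd_nonneg _ _) _)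
      refine le_of_pow_le_pow_left₀ (n := 5) (by norm_num) (Real.exp_pos _).le ?_
      rw [h5, mul_pow, ← Finset.prod_pow]
      calc (∏ a ∈ A, (K * Rt h (10 * ν) a * ((a : ℝ) + 40 * ν) ^ (6 * (b + 1) + 2)) ^ 5) *
            (vd (40 * ν) A ^ (2 * (b + 1))) ^ 5
          ≤ (∏ a ∈ A, (K' * r0 (10 * ν) ^ (5 * h - 13 * (b + 1)) * ((20 * ν).factorial : ℝ) ^ (13 * (b + 1)) *
              wcl (40 * ν) (7 * ν + 5) a ^ (5 * (b + 1)))) * (vd (40 * ν) A ^ (2 * (b + 1))) ^ 5 := by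
            apply mul_le_mul_of_nonneg_right _ (pow_nonneg (pow_nonneg (vd_nonneg _ _) _) _)
            exact Finset.prod_le_prod (fun a _ => pow_nonneg (hWn a) _) fun a _ => hdom ν a hν
        _ = (K' * r0 (10 * ν) ^ (5 * h - 13 * (b + 1)) * ((20 * ν).factorial : ℝ) ^ (13 * (b + 1))) ^ (10 * ν - 1) *
              ((∏ a ∈ A, wcl (40 * ν) (7 * ν + 5) a) * vd (40 * ν) A ^ 2) ^ (5 * (b + 1)) := by
            rw [Finset.prod_mul_distrib, Finset.prod_const, hA, Finset.prod_pow, mul_pow, ← pow_mul, ← pow_mul]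
            ring
        _ ≤ _ := by
            apply mul_le_mul_of_nonneg_left _ (pow_nonneg hQ.le _)
            apply pow_le_pow_left₀
            · exact mul_nonneg (Finset.prod_nonneg fun a _ => wcl_nonneg _ _ _) (pow_nonneg (vd_nonneg _ _) _)
            · exact hCL (40 * ν) (7 * ν + 5) (10 * ν - 1) A (by omega) (by omega) hA)
  exact key

lemma AR_log_small (C D ε : ℝ) (hε : 0 < ε) : ∀ᶠ ν : ℕ in atTop,
    C + D * Real.log (10 * (ν : ℝ)) ≤ ε * (10 * (ν : ℝ)) := by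
  have h1 : Tendsto (fun ν : ℕ => 10 * (ν : ℝ)) atTop atTop :=
    tendsto_natCast_atTop_atTop.const_mul_atTop (by norm_num)
  have h2 : (fun x : ℝ => C + D * Real.log x) =o[atTop] (fun x : ℝ => x) := by
    apply Asymptotics.IsLittleO.add
    · exact Asymptotics.isLittleO_const_left.2 (Or.inr tendsto_norm_atTop_atTop)
    · exact (Real.isLittleO_log_id_atTop).const_mul_left D
  have h3 := (h2.comp_tendsto h1).def hε
  filter_upwards [h3, eventually_ge_atTop 0] with ν h4 _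
  simp only [Function.comp_apply, Real.norm_eq_abs] at h4
  have h5 : |(10 * (ν : ℝ))| = 10 * (ν : ℝ) := abs_of_nonneg (by positivity)
  rw [h5] at h4
  exact (le_abs_self _).trans h4

theorem AR_of (hLF : S_LF) (hOM1 : S_OM1) (hOM2 : S_OM2) (hARCH : S_ARCH) (hCL : S_CL) (hDOM : S_DOM)
    (hASY : S_ASY) (hR0 : S_R0) : S_AR := by
  intro b h hb hb2 hh h13 ε hε
  obtain ⟨K, hK, hom⟩ := hOM2 b h
  obtain ⟨K', hK', hdom⟩ := hDOM (b + 1) h K (by omega) h13 hK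
  obtain ⟨s, hs⟩ : ∃ s : ℝ, s = (b : ℝ) + 1 := ⟨_, rfl⟩
  have hs1 : 1 ≤ s := by rw [hs]; linarith [(Nat.cast_nonneg b : (0 : ℝ) ≤ b)]
  obtain ⟨ρ, hρ⟩ : ∃ ρ : ℝ, ρ = 3 * Real.log 3 - 2 * Real.log 2 := ⟨_, rfl⟩
  obtain ⟨D, hD⟩ : ∃ D : ℝ, D = s * (5 * h - 13 * s) / 5 := ⟨_, rfl⟩
  have hD0 : 0 ≤ D := by
    rw [hD]
    have : (13 * (s : ℝ)) ≤ 5 * h := by rw [hs]; exact_mod_cast h13
    apply div_nonneg _ (by norm_num)
    apply mul_nonneg (by linarith)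
    linarith
  have hρ0 : 0 ≤ ρ := by
    rw [hρ]
    have h1 : Real.log 2 ≤ Real.log 3 := Real.log_le_log (by norm_num) (by norm_num)
    have h2 : 0 ≤ Real.log 3 := Real.log_nonneg (by norm_num)
    linarith
  obtain ⟨C1, hC1⟩ : ∃ C1 : ℝ, C1 = Real.log (36 ^ (b + 1) * ((b + 1 : ℕ) : ℝ) ^ 2) := ⟨_, rfl⟩
  have hC1' : 0 ≤ C1 := by
    rw [hC1]
    apply Real.log_nonneg
    have h1 : (1 : ℝ) ≤ 36 ^ (b + 1) := one_le_pow₀ (by norm_num)
    have h2 : (1 : ℝ) ≤ ((b + 1 : ℕ) : ℝ) ^ 2 := one_le_pow₀ (by push_cast; linarith [(Nat.cast_nonneg b : (0 : ℝ) ≤ b)])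
    nlinarith
  have e1 := hASY (ε / (4 * s ^ 2)) (by positivity)
  have e2 : ∀ᶠ ν : ℕ in atTop, Real.log (r0 (10 * ν)) ≤
      (10 * (ν : ℝ)) * (-ρ + ε / (4 * (D + 1))) := by
    have h1 := hR0 (ε / (4 * (D + 1))) (by positivity)
    have h2 : Tendsto (fun ν : ℕ => 10 * ν) atTop atTop := tendsto_id.const_mul_atTop' (by norm_num)
    have h3 := h2.eventually h1
    filter_upwards [h3] with ν h4
    rw [hρ]
    push_cast at h4
    exact h4
  have e3 := AR_log_small (s * C1 + 2 * s ^ 2 * (1 + s) + s / 5 * |Real.log K'| + D * ρ) (2 * s ^ 2) (ε / 4)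
    (by positivity)
  filter_upwards [e1, e2, e3, eventually_ge_atTop 2] with ν h1 h2 h3 hν u hu
  have hbd := AR_bound hLF hOM1 hARCH hCL b h ν K K' hK hK' hom hdom hb hb2 hh (by omega) hν u hu
  refine hbd.trans ?_
  obtain ⟨n, hn⟩ : ∃ n : ℝ, n = 10 * (ν : ℝ) := ⟨_, rfl⟩
  have hn1 : 20 ≤ n := by
    rw [hn]
    have : (2 : ℝ) ≤ ν := by exact_mod_cast hν
    linarith
  have hN : ((10 * ν - 1 : ℕ) : ℝ) = n - 1 := by
    rw [hn, Nat.cast_sub (by omega)]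
    push_cast
    ring
  obtain ⟨m, hm⟩ : ∃ m : ℝ, m = (((b + 1) * (10 * ν - 1) : ℕ) : ℝ) := ⟨_, rfl⟩
  have hm' : m = s * (n - 1) := by
    rw [hm, Nat.cast_mul, hN, hs]
    push_cast
    ring
  have hm1 : 1 ≤ m := by rw [hm']; nlinarith
  have hs2 : ((b + 1 : ℕ) : ℝ) = s := by rw [hs]; push_cast; ring
  have hQ : 0 < K' * r0 (10 * ν) ^ (5 * h - 13 * (b + 1)) * ((20 * ν).factorial : ℝ) ^ (13 * (b + 1)) := by
    have := r0_pos (10 * ν)
    positivity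
  have hbase : (0 : ℝ) < 36 ^ (b + 1) * ((b + 1 : ℕ) : ℝ) ^ 2 := by positivity
  rw [← Real.exp_log (pow_pos hbase ((b + 1) * (10 * ν - 1))), Real.log_pow, ← hC1, ← hm, hs2,
    ← Real.exp_nat_mul, hs2, ← Real.exp_add, ← Real.exp_add]
  apply Real.exp_le_exp.2
  have hlogm : Real.log m ≤ s + Real.log n := by
    have h4 : m ≤ s * n := by rw [hm']; nlinarith
    have h5 : Real.log m ≤ Real.log (s * n) := Real.log_le_log (by linarith) h4
    rw [Real.log_mul (by linarith) (by linarith)] at h5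
    have h6 := Real.log_le_sub_one_of_pos (by linarith : 0 < s)
    linarith
  have hn0 : 0 ≤ Real.log n := Real.log_nonneg (by linarith)
  -- the main part
  have hy : s * AR_y (b + 1) h ν K' = s / 5 * (n - 1) * Real.log K' + D * ((n - 1) * Real.log (r0 (10 * ν))) +
      s ^ 2 * (13 / 5 * (n - 1) * Real.log ((20 * ν).factorial : ℝ) +
        Real.log (Dcl (40 * ν) (7 * ν + 5) (10 * ν - 1))) := by
    unfold AR_y
    have hr := r0_pos (10 * ν)
    rw [Real.log_mul (by positivity) (by positivity), Real.log_mul (by positivity) (by positivity), Real.log_pow,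
      Real.log_pow, hN, Nat.cast_sub h13]
    rw [hD, ← hs2]
    push_cast
    ring
  rw [hy]
  have h1' : s ^ 2 * (13 / 5 * (n - 1) * Real.log ((20 * ν).factorial : ℝ) +
        Real.log (Dcl (40 * ν) (7 * ν + 5) (10 * ν - 1))) ≤
      n ^ 2 * (s ^ 2 * (2 * Real.log n + a0)) + n ^ 2 * (ε / 4) := by
    rw [← hn] at h1
    have h4 := mul_le_mul_of_nonneg_left h1 (sq_nonneg s)
    have h5 : s ^ 2 * (n ^ 2 * (2 * Real.log n + a0 + ε / (4 * s ^ 2))) =
        n ^ 2 * (s ^ 2 * (2 * Real.log n + a0)) + n ^ 2 * (ε / 4) := by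
      field_simp
    linarith
  have h2' : D * ((n - 1) * Real.log (r0 (10 * ν))) ≤ n ^ 2 * (-(D * ρ)) + n * (D * ρ) + n ^ 2 * (ε / 4) := by
    rw [← hn] at h2
    have h4 : (n - 1) * Real.log (r0 (10 * ν)) ≤ (n - 1) * (n * (-ρ + ε / (4 * (D + 1)))) :=
      mul_le_mul_of_nonneg_left h2 (by linarith)
    have h5 := mul_le_mul_of_nonneg_left h4 hD0
    have h6 : D * (ε / (4 * (D + 1))) ≤ ε / 4 := by
      rw [mul_div_assoc', div_le_div_iff₀ (by positivity) (by norm_num)]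
      nlinarith
    have h7 : D * ((n - 1) * (n * (-ρ + ε / (4 * (D + 1))))) =
        n ^ 2 * (-(D * ρ)) + n * (D * ρ) + (n - 1) * n * (D * (ε / (4 * (D + 1)))) := by ring
    have h8 : (n - 1) * n * (D * (ε / (4 * (D + 1)))) ≤ n ^ 2 * (ε / 4) := by
      have h9 : (n - 1) * n * (D * (ε / (4 * (D + 1)))) ≤ (n - 1) * n * (ε / 4) :=
        mul_le_mul_of_nonneg_left h6 (by nlinarith)
      nlinarith
    linarith
  have h3' : m * C1 + 2 * m * s * (1 + Real.log m) + s / 5 * (n - 1) * Real.log K' + n * (D * ρ) ≤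
      n ^ 2 * (ε / 4) := by
    rw [← hn] at h3
    have h4 : m ≤ s * n := by rw [hm']; nlinarith
    have h5 : m * C1 ≤ n * (s * C1) := by nlinarith
    have h6 : 2 * m * s * (1 + Real.log m) ≤ n * (2 * s ^ 2 * (1 + s) + 2 * s ^ 2 * Real.log n) := by
      have h7 : 2 * m * s ≤ 2 * s ^ 2 * n := by nlinarith
      have h8 : 1 + Real.log m ≤ 1 + s + Real.log n := by linarith
      have h9 : 0 ≤ 1 + s + Real.log n := by linarith
      calc 2 * m * s * (1 + Real.log m) ≤ 2 * m * s * (1 + s + Real.log n) :=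
            mul_le_mul_of_nonneg_left h8 (by nlinarith)
        _ ≤ 2 * s ^ 2 * n * (1 + s + Real.log n) := mul_le_mul_of_nonneg_right h7 h9
        _ = _ := by ring
    have h10 : s / 5 * (n - 1) * Real.log K' ≤ n * (s / 5 * |Real.log K'|) := by
      have h11 := le_abs_self (Real.log K')
      have h12 : s / 5 * (n - 1) * Real.log K' ≤ s / 5 * (n - 1) * |Real.log K'| :=
        mul_le_mul_of_nonneg_left h11 (by nlinarith)
      have h13 : s / 5 * (n - 1) * |Real.log K'| ≤ s / 5 * n * |Real.log K'| :=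
        mul_le_mul_of_nonneg_right (by nlinarith) (abs_nonneg _)
      linarith
    have h14 := mul_le_mul_of_nonneg_left h3 (by linarith : 0 ≤ n)
    calc m * C1 + 2 * m * s * (1 + Real.log m) + s / 5 * (n - 1) * Real.log K' + n * (D * ρ)
        ≤ n * (s * C1) + n * (2 * s ^ 2 * (1 + s) + 2 * s ^ 2 * Real.log n) + n * (s / 5 * |Real.log K'|) +
          n * (D * ρ) := add_le_add_left (add_le_add (add_le_add h5 h6) h10) _
      _ = n * (s * C1 + 2 * s ^ 2 * (1 + s) + s / 5 * |Real.log K'| + D * ρ + 2 * s ^ 2 * Real.log n) := by ring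
      _ ≤ n * (ε / 4 * n) := h14
      _ = n ^ 2 * (ε / 4) := by ring
  have h4 : n ^ 2 * (-(D * ρ)) = -(n ^ 2 * (D * ρ)) := by ring
  have hfin : (10 * (ν : ℝ)) ^ 2 * (((b : ℝ) + 1) ^ 2 * (2 * Real.log (10 * (ν : ℝ)) + a0) -
        ((b : ℝ) + 1) * (5 * h - 13 * ((b : ℝ) + 1)) / 5 * (3 * Real.log 3 - 2 * Real.log 2) + ε) =
      n ^ 2 * (s ^ 2 * (2 * Real.log n + a0)) - n ^ 2 * (D * ρ) + n ^ 2 * ε := by
    rw [← hs, ← hn, ← hρ, ← hD]
    ring
  rw [hfin]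
  have h15 : 0 ≤ n ^ 2 * (ε / 4) := by positivity
  have h16 : n ^ 2 * ε = n ^ 2 * (ε / 4) + n ^ 2 * (ε / 4) + n ^ 2 * (ε / 4) + n ^ 2 * (ε / 4) := by ring
  linarith

end

end Pool.Agent.N334.W
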