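import Pool.Agent.N334.W.Stm

/-! Project WD (helper334), ARCH: bound for the truncated determinant (helper40). -/

namespace Pool.Agent.N334.W

noncomputable section

namespace Arch

lemma and_gen (hAND : S_AND) {ι : Type} [Fintype ι] (m : ℕ) (c : ι → ℝ) (u v : ι → Fin m → ℝ) :
    (m.factorial : ℝ) * (Matrix.of fun i j : Fin m => ∑ a, c a * u a i * v a j).det =
      ∑ f : Fin m → ι, (∏ i, c (f i)) * (Matrix.of fun i j : Fin m => u (f i) j).det *
        (Matrix.of fun i j : Fin m => v (f i) j).det := by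
  set e := Fintype.equivFin ι
  have h := hAND (Fintype.card ι) m (fun a => c (e.symm a)) (fun a => u (e.symm a)) (fun a => v (e.symm a))
  have h1 : ∀ i j : Fin m, ∑ a : Fin (Fintype.card ι), c (e.symm a) * u (e.symm a) i * v (e.symm a) j =
      ∑ a : ι, c a * u a i * v a j := fun i j =>
    Equiv.sum_comp e.symm (fun a => c a * u a i * v a j)
  have h2 := Equiv.sum_comp (Equiv.arrowCongr (Equiv.refl (Fin m)) e.symm)
    (fun f : Fin m → ι => (∏ i, c (f i)) * (Matrix.of fun i j : Fin m => u (f i) j).det *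
        (Matrix.of fun i j : Fin m => v (f i) j).det)
  rw [← h2]
  simp only [h1] at h
  exact h

lemma cv_vand (m k : ℕ) (x : ℝ) (i j : Fin m) :
    ((i.1 + j.1).choose k : ℝ) * x ^ (i.1 + j.1 - k) =
      ∑ p ∈ Finset.HasAntidiagonal.antidiagonal k, cv m x p.1 i * cv m x p.2 j := by
  rw [Nat.add_choose_eq, Nat.cast_sum, Finset.sum_mul]
  apply Finset.sum_congr rfl
  intro p hp
  rw [Finset.HasAntidiagonal.mem_antidiagonal] at hp
  unfold cv
  by_cases h1 : p.1 ≤ i.1
  · by_cases h2 : p.2 ≤ j.1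
    · have h3 : i.1 + j.1 - k = (i.1 - p.1) + (j.1 - p.2) := by omega
      rw [h3, pow_add]
      push_cast
      ring
    · rw [Nat.choose_eq_zero_of_lt (show j.1 < p.2 by omega)]
      simp
  · rw [Nat.choose_eq_zero_of_lt (show i.1 < p.1 by omega)]
    simp

lemma sum_anti (s : ℕ) (g : ℕ → ℕ → ℝ) :
    ∑ k ∈ Finset.range s, ∑ p ∈ Finset.HasAntidiagonal.antidiagonal k, g p.1 p.2 =
      ∑ a ∈ Finset.range s, ∑ b ∈ Finset.range s, if a + b < s then g a b else 0 := by
  rw [← Finset.sum_product' (Finset.range s) (Finset.range s) (fun a b => if a + b < s then g a b else 0),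
    ← Finset.sum_filter]
  rw [← Finset.sum_fiberwise_of_maps_to (s := (Finset.range s ×ˢ Finset.range s).filter fun p => p.1 + p.2 < s)
    (t := Finset.range s) (g := fun p => p.1 + p.2)]
  · apply Finset.sum_congr rfl
    intro k hk
    rw [Finset.mem_range] at hk
    apply Finset.sum_congr _ fun _ _ => rfl
    ext ⟨a, b⟩
    simp only [Finset.HasAntidiagonal.mem_antidiagonal, Finset.mem_filter, Finset.mem_product, Finset.mem_range]
    omega
  · intro p hp
    rw [Finset.mem_filter] at hp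
    exact Finset.mem_range.2 hp.2

/-- the coefficient -/
def cc (s : ℕ) (ω : ℕ → ℕ → ℝ) (T : ℕ) (a : Fin T × Fin s × Fin s) : ℝ :=
  if a.2.1.1 + a.2.2.1 < s then ω a.1.1 (a.2.1.1 + a.2.2.1) else 0

lemma MT_eq (s c m T : ℕ) (ω : ℕ → ℕ → ℝ) :
    MT s c m T ω = Matrix.of fun i j : Fin m => ∑ a : Fin T × Fin s × Fin s, cc s ω T a *
      cv m (nx c a.1.1) a.2.1.1 i * cv m (nx c a.1.1) a.2.2.1 j := by
  ext i j
  unfold MT cc
  rw [Matrix.of_apply, Matrix.of_apply, Fintype.sum_prod_type, ← Fin.sum_univ_eq_sum_range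
    (fun t => ∑ k ∈ Finset.range s, ω t k * ((i.1 + j.1).choose k : ℝ) * nx c t ^ (i.1 + j.1 - k)) T]
  apply Finset.sum_congr rfl
  intro t _
  rw [Fintype.sum_prod_type]
  have h1 : ∀ k ∈ Finset.range s, ω t.1 k * ((i.1 + j.1).choose k : ℝ) * nx c t.1 ^ (i.1 + j.1 - k) =
      ∑ p ∈ Finset.HasAntidiagonal.antidiagonal k, ω t.1 (p.1 + p.2) * (cv m (nx c t.1) p.1 i * cv m (nx c t.1) p.2 j) := by
    intro k _
    rw [mul_assoc, cv_vand, Finset.mul_sum]
    apply Finset.sum_congr rfl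
    intro p hp
    rw [Finset.HasAntidiagonal.mem_antidiagonal] at hp
    rw [hp]
  rw [Finset.sum_congr rfl h1, sum_anti s (fun a b => ω t.1 (a + b) *
    (cv m (nx c t.1) a i * cv m (nx c t.1) b j))]
  rw [← Fin.sum_univ_eq_sum_range (fun a => ∑ b ∈ Finset.range s, if a + b < s then
    ω t.1 (a + b) * (cv m (nx c t.1) a i * cv m (nx c t.1) b j) else 0) s]
  apply Finset.sum_congr rfl
  intro a _
  rw [← Fin.sum_univ_eq_sum_range (fun b => if a.1 + b < s then
    ω t.1 (a.1 + b) * (cv m (nx c t.1) a.1 i * cv m (nx c t.1) b j) else 0) s]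
  apply Finset.sum_congr rfl
  intro b _
  split_ifs <;> ring

lemma prod3 {m : ℕ} (A P Q : Fin m → ℝ) :
    ∏ i, (A i * P i * Q i) = (∏ i, A i) * (∏ i, P i) * ∏ i, Q i := by
  rw [Finset.prod_mul_distrib, Finset.prod_mul_distrib]

lemma sum_inv_sq (c T : ℕ) (hc : 2 ≤ c) :
    ∑ t ∈ Finset.range T, (((t : ℝ) + c) ^ 2)⁻¹ ≤ 1 := by
  have h1 : ∀ T : ℕ, ∑ t ∈ Finset.range T, (((t : ℝ) + c) ^ 2)⁻¹ ≤ 1 / ((c : ℝ) - 1) - 1 / ((T : ℝ) + c - 1) := by
    intro T
    have hc' : (2 : ℝ) ≤ c := by exact_mod_cast hc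
    induction T with
    | zero => simp
    | succ T ih =>
      rw [Finset.sum_range_succ]
      have hT : (0 : ℝ) ≤ T := Nat.cast_nonneg _
      have h2 : (((T : ℝ) + c) ^ 2)⁻¹ ≤ 1 / ((T : ℝ) + c - 1) - 1 / (((T + 1 : ℕ) : ℝ) + c - 1) := by
        push_cast
        have h3 : (0 : ℝ) < (T : ℝ) + c - 1 := by linarith
        have h4 : (0 : ℝ) < (T : ℝ) + c := by linarith
        have h5 : 1 / ((T : ℝ) + c - 1) - 1 / ((T : ℝ) + 1 + c - 1) =
            1 / (((T : ℝ) + c - 1) * ((T : ℝ) + c)) := by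
          have h6 : (T : ℝ) + 1 + c - 1 = (T : ℝ) + c := by ring
          rw [h6]
          field_simp
          ring
        rw [h5, inv_eq_one_div]
        apply one_div_le_one_div_of_le (by positivity)
        nlinarith
      linarith
  have hc' : (2 : ℝ) ≤ c := by exact_mod_cast hc
  have hT : (0 : ℝ) ≤ T := Nat.cast_nonneg _
  have h2 : (0 : ℝ) ≤ 1 / ((T : ℝ) + c - 1) := by
    apply div_nonneg (by norm_num); linarith
  have h3 : 1 / ((c : ℝ) - 1) ≤ 1 := by
    rw [div_le_one (by linarith)]; linarith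
  linarith [h1 T]

/-- a determinant vanishes if a node is taken too often -/
lemma det_zero {s m T : ℕ} (c : ℕ) (f : Fin m → Fin T × Fin s × Fin s)
    (h : ¬ ∀ a : ℕ, (Finset.univ.filter fun i => (f i).1.1 = a).card ≤ s) :
    (Matrix.of fun i j : Fin m => cv m (nx c (f i).1.1) (f i).2.1.1 j).det = 0 := by
  push Not at h
  obtain ⟨a, ha⟩ := h
  have h1 : (Finset.univ : Finset (Fin s)).card < (Finset.univ.filter fun i => (f i).1.1 = a).card := by
    simpa using ha
  obtain ⟨i, hi, j, hj, hij, he⟩ := Finset.exists_ne_map_eq_of_card_lt_of_maps_to h1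
    (f := fun i => (f i).2.1) (fun i _ => Finset.mem_coe.2 (Finset.mem_univ _))
  rw [Finset.mem_filter] at hi hj
  apply Matrix.det_zero_of_row_eq hij
  funext l
  simp only [Matrix.of_apply]
  rw [hi.2, hj.2, he]

/-- the bound of one determinant -/
lemma det_bound (hGV : S_GV) (hPT : S_PT) {s c m : ℕ} (hs : 1 ≤ s) (hc : 1 ≤ c) (t : Fin m → ℕ)
    (al : Fin m → ℕ) (h : ∀ a : ℕ, (Finset.univ.filter fun i => t i = a).card ≤ s) :
    |(Matrix.of fun i j : Fin m => cv m (nx c (t i)) (al i) j).det| ≤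
      (∏ i, (3 / (2 * (t i : ℝ) + c)) ^ al i) * (Real.exp (m * s * (1 + Real.log m)) *
        (∏ i, (2 * (t i : ℝ) + c) ^ s) * ∏ i : Fin m, ∏ j ∈ Finset.Ioi i, max 1 |nx c (t j) - nx c (t i)|) := by
  have hc' : (1 : ℝ) ≤ c := by exact_mod_cast hc
  have h1 := hGV m (fun i => nx c (t i)) al (fun i => (2 * (t i : ℝ) + c) / 3)
    (Real.exp (m * s * (1 + Real.log m)) * (∏ i, (2 * (t i : ℝ) + c) ^ s) *
      ∏ i : Fin m, ∏ j ∈ Finset.Ioi i, max 1 |nx c (t j) - nx c (t i)|)
    (fun i => by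
      have : (0 : ℝ) ≤ (t i : ℝ) := Nat.cast_nonneg _
      positivity)
    (fun w hw => hPT s c m t w hs hc h (fun i => (hw i).le))
  have h2 : ∀ i, ((2 * (t i : ℝ) + c) / 3)⁻¹ = 3 / (2 * (t i : ℝ) + c) := fun i => inv_div _ _
  simp only [h2] at h1
  exact h1

end Arch

open Arch

theorem ARCH_of (hAND : S_AND) (hGV : S_GV) (hPT : S_PT) (hRR : S_RR) : S_ARCH := by
  intro s c N T W ω B hs hc hN hW hω hB hBA
  obtain ⟨m, hm⟩ : ∃ m, m = s * N := ⟨_, rfl⟩
  have hc1 : 1 ≤ c := by omega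
  have hc' : (2 : ℝ) ≤ c := by exact_mod_cast hc
  obtain ⟨E, hE⟩ : ∃ E : ℝ, E = Real.exp (m * s * (1 + Real.log m)) := ⟨_, rfl⟩
  have hE0 : 0 < E := by rw [hE]; exact Real.exp_pos _
  have hE2 : Real.exp (2 * ((s * N : ℕ) : ℝ) * s * (1 + Real.log ((s * N : ℕ) : ℝ))) = E ^ 2 := by
    rw [hE, ← Real.exp_nat_mul, ← hm]
    congr 1
    push_cast
    ring
  rw [hE2]
  have hfac : (1 : ℝ) ≤ (m.factorial : ℝ) := by exact_mod_cast Nat.succ_le_of_lt (Nat.factorial_pos m)
  have hdet := and_gen hAND (ι := Fin T × Fin s × Fin s) m (cc s ω T)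
    (fun a => cv m (nx c a.1.1) a.2.1.1) (fun a => cv m (nx c a.1.1) a.2.2.1)
  rw [← MT_eq] at hdet
  -- the bound of a term
  have hterm : ∀ f : Fin m → Fin T × Fin s × Fin s,
      |(∏ i, cc s ω T (f i)) * (Matrix.of fun i j : Fin m => cv m (nx c (f i).1.1) (f i).2.1.1 j).det *
        (Matrix.of fun i j : Fin m => cv m (nx c (f i).1.1) (f i).2.2.1 j).det| ≤
      (36 ^ s) ^ m * E ^ 2 * B ^ s * ∏ i, ((((f i).1.1 : ℝ) + c) ^ 2)⁻¹ := by
    intro f
    by_cases hf : ∀ a : ℕ, (Finset.univ.filter fun i => (f i).1.1 = a).card ≤ s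
    · obtain ⟨t, ht⟩ : ∃ t : Fin m → ℕ, t = fun i => (f i).1.1 := ⟨_, rfl⟩
      obtain ⟨al, hal⟩ : ∃ t : Fin m → ℕ, t = fun i => (f i).2.1.1 := ⟨_, rfl⟩
      obtain ⟨be, hbe⟩ : ∃ t : Fin m → ℕ, t = fun i => (f i).2.2.1 := ⟨_, rfl⟩
      have ht' : ∀ i, (f i).1.1 = t i := fun i => by rw [ht]
      have hal' : ∀ i, (f i).2.1.1 = al i := fun i => by rw [hal]
      have hbe' : ∀ i, (f i).2.2.1 = be i := fun i => by rw [hbe]
      have hals : ∀ i, al i < s := fun i => by rw [hal]; exact (f i).2.1.2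
      have hbes : ∀ i, be i < s := fun i => by rw [hbe]; exact (f i).2.2.2
      simp only [ht'] at hf
      simp only [ht', hal', hbe']
      have hb1 := det_bound hGV hPT hs hc1 t al hf
      have hb2 := det_bound hGV hPT hs hc1 t be hf
      rw [← hE] at hb1 hb2
      obtain ⟨MX, hMX⟩ : ∃ MX : ℝ, MX = ∏ i : Fin m, ∏ j ∈ Finset.Ioi i, max 1 |nx c (t j) - nx c (t i)| := ⟨_, rfl⟩
      rw [← hMX] at hb1 hb2
      have hMX0 : 0 ≤ MX := by
        rw [hMX]
        exact Finset.prod_nonneg fun i _ => Finset.prod_nonneg fun j _ => le_trans zero_le_one (le_max_left _ _)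
      -- the redistribution
      obtain ⟨V, A, hAc, hAF, hV, hV0, hMXV⟩ : ∃ (V : ℝ) (A : Fin s → Finset ℕ), (∀ α, (A α).card = N) ∧
          (∀ F : ℕ → ℝ, ∏ i, F (t i) = ∏ α, ∏ a ∈ A α, F a) ∧ V = (∏ α, vd c (A α)) ∧ 0 ≤ V ^ (2 * s) ∧
          MX ≤ V ^ s * ∏ i, (nx c (t i) + 1) ^ s := by
        subst hm
        obtain ⟨A, h1, h2, h3⟩ := hRR s c N t hs hc1 hf
        refine ⟨_, A, h1, h2, rfl, ?_, ?_⟩
        · rw [pow_mul]
          exact pow_nonneg (sq_nonneg _) _
        · rw [hMX]; exact h3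
      have hg0 : ∀ i, (0 : ℝ) < 2 * (t i : ℝ) + c := fun i => by
        have : (0 : ℝ) ≤ (t i : ℝ) := Nat.cast_nonneg _
        linarith
      have htc : ∀ i, (0 : ℝ) < (t i : ℝ) + c := fun i => by
        have : (0 : ℝ) ≤ (t i : ℝ) := Nat.cast_nonneg _
        linarith
      have hcc : ∀ i, |cc s ω T (f i)| ≤ W (t i) * (2 * (t i : ℝ) + c) ^ (al i + be i) := by
        intro i
        unfold cc
        rw [ht', hal', hbe']
        split_ifs with h
        · exact hω _ _ h
        · rw [abs_zero]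
          exact mul_nonneg (hW _) (pow_nonneg (hg0 i).le _)
      have hccp : ∏ i, |cc s ω T (f i)| ≤ ∏ i, (W (t i) * (2 * (t i : ℝ) + c) ^ (al i + be i)) :=
        Finset.prod_le_prod (fun i _ => abs_nonneg _) (fun i _ => hcc i)
      rw [abs_mul, abs_mul, Finset.abs_prod]
      obtain ⟨G, hG⟩ : ∃ G : ℝ, G = ∏ i, (2 * (t i : ℝ) + c) ^ s := ⟨_, rfl⟩
      rw [← hG] at hb1 hb2
      have hG0 : 0 ≤ G := by rw [hG]; exact Finset.prod_nonneg fun i _ => pow_nonneg (hg0 i).le _
      have hP1 : 0 ≤ ∏ i, (3 / (2 * (t i : ℝ) + c)) ^ al i :=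
        Finset.prod_nonneg fun i _ => pow_nonneg (div_nonneg (by norm_num) (hg0 i).le) _
      have hP2 : 0 ≤ ∏ i, (3 / (2 * (t i : ℝ) + c)) ^ be i :=
        Finset.prod_nonneg fun i _ => pow_nonneg (div_nonneg (by norm_num) (hg0 i).le) _
      have hP0 : 0 ≤ ∏ i, (W (t i) * (2 * (t i : ℝ) + c) ^ (al i + be i)) :=
        Finset.prod_nonneg fun i _ => mul_nonneg (hW _) (pow_nonneg (hg0 i).le _)
      have step1 : (∏ i, |cc s ω T (f i)|) *
          |(Matrix.of fun i j : Fin m => cv m (nx c (t i)) (al i) j).det| *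
          |(Matrix.of fun i j : Fin m => cv m (nx c (t i)) (be i) j).det| ≤
          (∏ i, (W (t i) * (2 * (t i : ℝ) + c) ^ (al i + be i))) *
            ((∏ i, (3 / (2 * (t i : ℝ) + c)) ^ al i) * (E * G * MX)) *
            ((∏ i, (3 / (2 * (t i : ℝ) + c)) ^ be i) * (E * G * MX)) := by
        apply mul_le_mul (mul_le_mul hccp hb1 (abs_nonneg _) hP0) hb2 (abs_nonneg _)
        positivity
      have hWt : ∀ i, (W (t i) * (2 * (t i : ℝ) + c) ^ (al i + be i)) * (3 / (2 * (t i : ℝ) + c)) ^ al i *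
          (3 / (2 * (t i : ℝ) + c)) ^ be i ≤ W (t i) * 9 ^ s := by
        intro i
        have h1 : (W (t i) * (2 * (t i : ℝ) + c) ^ (al i + be i)) * (3 / (2 * (t i : ℝ) + c)) ^ al i *
          (3 / (2 * (t i : ℝ) + c)) ^ be i = W (t i) * (3 ^ al i * 3 ^ be i) := by
          rw [pow_add, div_pow, div_pow]
          have h2 := (pow_pos (hg0 i) (al i)).ne'
          have h3 := (pow_pos (hg0 i) (be i)).ne'
          field_simp
        rw [h1]
        apply mul_le_mul_of_nonneg_left _ (hW _)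
        have h2 : (3 : ℝ) ^ al i ≤ 3 ^ s := pow_le_pow_right₀ (by norm_num) (hals i).le
        have h3 : (3 : ℝ) ^ be i ≤ 3 ^ s := pow_le_pow_right₀ (by norm_num) (hbes i).le
        calc (3 : ℝ) ^ al i * 3 ^ be i ≤ 3 ^ s * 3 ^ s := mul_le_mul h2 h3 (by positivity) (by positivity)
          _ = 9 ^ s := by rw [← mul_pow]; norm_num
      have step2 : (∏ i, (W (t i) * (2 * (t i : ℝ) + c) ^ (al i + be i))) *
            ((∏ i, (3 / (2 * (t i : ℝ) + c)) ^ al i) * (E * G * MX)) *
            ((∏ i, (3 / (2 * (t i : ℝ) + c)) ^ be i) * (E * G * MX)) ≤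
          (∏ i, (W (t i) * 9 ^ s)) * (E ^ 2 * G ^ 2 * MX ^ 2) := by
        calc _ = (∏ i, ((W (t i) * (2 * (t i : ℝ) + c) ^ (al i + be i)) * (3 / (2 * (t i : ℝ) + c)) ^ al i *
              (3 / (2 * (t i : ℝ) + c)) ^ be i)) * (E ^ 2 * G ^ 2 * MX ^ 2) := by
              have e := prod3 (fun i => W (t i) * (2 * (t i : ℝ) + c) ^ (al i + be i))
                (fun i => (3 / (2 * (t i : ℝ) + c)) ^ al i) (fun i => (3 / (2 * (t i : ℝ) + c)) ^ be i)
              beta_reduce at e
              rw [e]; ring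
          _ ≤ _ := by
              apply mul_le_mul_of_nonneg_right _ (by positivity)
              apply Finset.prod_le_prod
              · intro i _
                have h1 := hW (t i)
                have h2 := (hg0 i).le
                positivity
              · intro i _
                exact hWt i
      have hXP : 0 ≤ ∏ i, (nx c (t i) + 1) ^ s := by
        apply Finset.prod_nonneg
        intro i _
        apply pow_nonneg
        unfold nx
        have : (0 : ℝ) ≤ (t i : ℝ) := Nat.cast_nonneg _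
        positivity
      have hMX2 : MX ^ 2 ≤ V ^ (2 * s) * ∏ i, (nx c (t i) + 1) ^ (2 * s) := by
        calc MX ^ 2 ≤ (V ^ s * ∏ i, (nx c (t i) + 1) ^ s) ^ 2 := pow_le_pow_left₀ hMX0 hMXV 2
          _ = _ := by
            rw [mul_pow, ← pow_mul, mul_comm s 2, ← Finset.prod_pow]
            congr 1
            apply Finset.prod_congr rfl
            intro i _
            rw [← pow_mul, mul_comm s 2]
      have hnx : ∀ i, 0 ≤ nx c (t i) + 1 ∧ nx c (t i) + 1 ≤ ((t i : ℝ) + c) ^ 2 := by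
        intro i
        unfold nx
        have : (0 : ℝ) ≤ (t i : ℝ) := Nat.cast_nonneg _
        constructor
        · positivity
        · nlinarith
      have step3 : (∏ i, (W (t i) * 9 ^ s)) * (E ^ 2 * G ^ 2 * MX ^ 2) ≤
          E ^ 2 * ((∏ i, (W (t i) * 36 ^ s * ((t i : ℝ) + c) ^ (6 * s))) * V ^ (2 * s)) := by
        calc (∏ i, (W (t i) * 9 ^ s)) * (E ^ 2 * G ^ 2 * MX ^ 2)
            ≤ (∏ i, (W (t i) * 9 ^ s)) * (E ^ 2 * G ^ 2 * (V ^ (2 * s) * ∏ i, (nx c (t i) + 1) ^ (2 * s))) := by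
              apply mul_le_mul_of_nonneg_left _ (Finset.prod_nonneg fun i _ => mul_nonneg (hW _) (by positivity))
              apply mul_le_mul_of_nonneg_left hMX2 (by positivity)
          _ = E ^ 2 * V ^ (2 * s) * ∏ i, (W (t i) * 9 ^ s * (2 * (t i : ℝ) + c) ^ (2 * s) *
                (nx c (t i) + 1) ^ (2 * s)) := by
              have e := prod3 (fun i => W (t i) * 9 ^ s) (fun i => (2 * (t i : ℝ) + c) ^ (2 * s))
                (fun i => (nx c (t i) + 1) ^ (2 * s))
              beta_reduce at e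
              have h1 : ∀ i, ((2 * (t i : ℝ) + c) ^ s) ^ 2 = (2 * (t i : ℝ) + c) ^ (2 * s) := by
                intro i; rw [← pow_mul, mul_comm s 2]
              rw [e, hG, ← Finset.prod_pow]
              simp only [h1]
              ring
          _ ≤ E ^ 2 * V ^ (2 * s) * ∏ i, (W (t i) * 36 ^ s * ((t i : ℝ) + c) ^ (6 * s)) := by
              apply mul_le_mul_of_nonneg_left _ (mul_nonneg (by positivity) hV0)
              apply Finset.prod_le_prod
              · intro i _
                have h1 := hW (t i)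
                have h2 := (hg0 i).le
                have h3 := (hnx i).1
                positivity
              · intro i _
                have h1 := hW (t i)
                have h2 : (2 * (t i : ℝ) + c) ^ (2 * s) ≤ (2 * ((t i : ℝ) + c)) ^ (2 * s) := by
                  apply pow_le_pow_left₀ (hg0 i).le
                  linarith
                have h3 : (nx c (t i) + 1) ^ (2 * s) ≤ (((t i : ℝ) + c) ^ 2) ^ (2 * s) :=
                  pow_le_pow_left₀ (hnx i).1 (hnx i).2 _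
                have h4 := (htc i).le
                have h5 := (hg0 i).le
                have h6 := (hnx i).1
                calc W (t i) * 9 ^ s * (2 * (t i : ℝ) + c) ^ (2 * s) * (nx c (t i) + 1) ^ (2 * s)
                    ≤ W (t i) * 9 ^ s * (2 * ((t i : ℝ) + c)) ^ (2 * s) * (((t i : ℝ) + c) ^ 2) ^ (2 * s) := by
                      apply mul_le_mul (mul_le_mul_of_nonneg_left h2 (by positivity)) h3 (by positivity)
                      positivity
                  _ = _ := by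
                      have e1 : ((t i : ℝ) + c) ^ (6 * s) = ((t i : ℝ) + c) ^ (2 * s) * (((t i : ℝ) + c) ^ 2) ^ (2 * s) := by
                        rw [← pow_mul, ← pow_add]; congr 1; ring
                      have e2 : (36 : ℝ) ^ s = 9 ^ s * 2 ^ (2 * s) := by
                        rw [pow_mul, ← mul_pow]; norm_num
                      rw [e1, e2, mul_pow]
                      ring
          _ = _ := by ring
      have step4 : (∏ i, (W (t i) * 36 ^ s * ((t i : ℝ) + c) ^ (6 * s))) * V ^ (2 * s) ≤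
          (36 ^ s) ^ m * (∏ i, (((t i : ℝ) + c) ^ 2)⁻¹) * B ^ s := by
        have h1 : ∀ i, W (t i) * 36 ^ s * ((t i : ℝ) + c) ^ (6 * s) =
            36 ^ s * (((t i : ℝ) + c) ^ 2)⁻¹ * (W (t i) * ((t i : ℝ) + c) ^ (6 * s + 2)) := by
          intro i
          have h2 := (htc i).ne'
          rw [pow_add ((t i : ℝ) + c) (6 * s) 2]
          field_simp
        have h3 := hAF (fun a : ℕ => W a * ((a : ℝ) + c) ^ (6 * s + 2))
        beta_reduce at h3
        have e := prod3 (fun _ : Fin m => (36 : ℝ) ^ s) (fun i => (((t i : ℝ) + c) ^ 2)⁻¹)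
          (fun i => W (t i) * ((t i : ℝ) + c) ^ (6 * s + 2))
        beta_reduce at e
        simp only [h1]
        rw [e, h3, Finset.prod_const, Finset.card_univ,
          Fintype.card_fin, hV, ← Finset.prod_pow, mul_assoc, ← Finset.prod_mul_distrib]
        apply mul_le_mul_of_nonneg_left
        · calc ∏ α : Fin s, ((∏ a ∈ A α, W a * ((a : ℝ) + c) ^ (6 * s + 2)) * vd c (A α) ^ (2 * s))
              ≤ ∏ α : Fin s, B := by
                apply Finset.prod_le_prod
                · intro α _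
                  apply mul_nonneg
                  · apply Finset.prod_nonneg
                    intro a _
                    have h2 := hW a
                    positivity
                  · rw [pow_mul]; exact pow_nonneg (sq_nonneg _) _
                · intro α _
                  exact hBA (A α) (hAc α)
            _ = B ^ s := by rw [Finset.prod_const, Finset.card_univ, Fintype.card_fin]
        · have h2 : 0 ≤ ∏ i, (((t i : ℝ) + c) ^ 2)⁻¹ := Finset.prod_nonneg fun i _ => by positivity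
          positivity
      refine step1.trans (step2.trans (step3.trans ?_))
      calc E ^ 2 * ((∏ i, (W (t i) * 36 ^ s * ((t i : ℝ) + c) ^ (6 * s))) * V ^ (2 * s))
          ≤ E ^ 2 * ((36 ^ s) ^ m * (∏ i, (((t i : ℝ) + c) ^ 2)⁻¹) * B ^ s) :=
            mul_le_mul_of_nonneg_left step4 (by positivity)
        _ = _ := by ring
    · rw [det_zero c f hf, mul_zero, zero_mul, abs_zero]
      have h2 : 0 ≤ ∏ i, ((((f i).1.1 : ℝ) + c) ^ 2)⁻¹ := Finset.prod_nonneg fun i _ => by positivity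
      positivity
  -- the sum
  have hsum : ∑ f : Fin m → Fin T × Fin s × Fin s, ∏ i, ((((f i).1.1 : ℝ) + c) ^ 2)⁻¹ ≤ ((s : ℝ) ^ 2) ^ m := by
    rw [← Fintype.sum_pow (fun a : Fin T × Fin s × Fin s => (((a.1.1 : ℝ) + c) ^ 2)⁻¹) m]
    apply pow_le_pow_left₀ (Finset.sum_nonneg fun a _ => by positivity)
    rw [Fintype.sum_prod_type]
    have h1 : ∀ t : Fin T, ∑ _b : Fin s × Fin s, (((t.1 : ℝ) + c) ^ 2)⁻¹ = (s : ℝ) ^ 2 * (((t.1 : ℝ) + c) ^ 2)⁻¹ := by
      intro t
      rw [Finset.sum_const, Finset.card_univ, Fintype.card_prod, Fintype.card_fin, nsmul_eq_mul]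
      push_cast
      ring
    simp only [h1]
    rw [← Finset.mul_sum, Fin.sum_univ_eq_sum_range (fun t => (((t : ℝ) + c) ^ 2)⁻¹) T]
    calc (s : ℝ) ^ 2 * ∑ t ∈ Finset.range T, (((t : ℝ) + c) ^ 2)⁻¹ ≤ (s : ℝ) ^ 2 * 1 :=
          mul_le_mul_of_nonneg_left (sum_inv_sq c T hc) (by positivity)
      _ = _ := by ring
  subst hm
  calc |(MT s c (s * N) T ω).det| ≤ ((s * N).factorial : ℝ) * |(MT s c (s * N) T ω).det| :=
        le_mul_of_one_le_left (abs_nonneg _) hfac
    _ = |((s * N).factorial : ℝ) * (MT s c (s * N) T ω).det| := by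
        rw [abs_mul, abs_of_nonneg (by linarith : (0 : ℝ) ≤ ((s * N).factorial : ℝ))]
    _ ≤ ∑ f : Fin (s * N) → Fin T × Fin s × Fin s, (36 ^ s) ^ (s * N) * E ^ 2 * B ^ s *
          ∏ i, ((((f i).1.1 : ℝ) + c) ^ 2)⁻¹ := by
        rw [hdet]
        exact (Finset.abs_sum_le_sum_abs _ _).trans (Finset.sum_le_sum fun f _ => hterm f)
    _ = (36 ^ s) ^ (s * N) * E ^ 2 * B ^ s *
          ∑ f : Fin (s * N) → Fin T × Fin s × Fin s, ∏ i, ((((f i).1.1 : ℝ) + c) ^ 2)⁻¹ := by
        rw [Finset.mul_sum]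
    _ ≤ (36 ^ s) ^ (s * N) * E ^ 2 * B ^ s * ((s : ℝ) ^ 2) ^ (s * N) :=
        mul_le_mul_of_nonneg_left hsum (by positivity)
    _ = _ := by rw [mul_pow]; ring

end

end Pool.Agent.N334.W
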