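import Pool.Agent.N334.W.R0

/-!
# Project WD, task ASY (helper456): size of the classical determinant
-/

open Filter Topology

namespace Pool.Agent.N334.W

namespace ASY_

open R0_

lemma ph_mono {x y : ℝ} (hx : 1 ≤ x) (hxy : x ≤ y) : ph x ≤ ph y := by
  have hx0 : 0 < x := by linarith
  have hy0 : 0 < y := by linarith
  unfold ph
  have h1 : 1 - x / y ≤ Real.log (y / x) := by
    have := Real.one_sub_inv_le_log_of_pos (x := y / x) (by positivity)
    rwa [inv_div] at this
  rw [Real.log_div hy0.ne' hx0.ne'] at h1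
  have h2 : y - x ≤ y * (Real.log y - Real.log x) := by
    have := mul_le_mul_of_nonneg_left h1 hy0.le
    have e : y * (1 - x / y) = y - x := by field_simp
    linarith
  have h3 : 0 ≤ Real.log x := Real.log_nonneg hx
  nlinarith [mul_nonneg (sub_nonneg.mpr hxy) h3]

lemma G2_deriv {x : ℝ} (hx : 0 < x) : HasDerivAt G2 (ph x) x := by
  have h1 : HasDerivAt (fun x : ℝ => x ^ 2 / 2 * Real.log x - 3 * x ^ 2 / 4)
      ((2 * x) / 2 * Real.log x + x ^ 2 / 2 * x⁻¹ - 3 * (2 * x) / 4) x := by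
    have e1 : HasDerivAt (fun x : ℝ => x ^ 2) (2 * x) x := by
      simpa using hasDerivAt_pow 2 x
    have e2 := (e1.div_const 2).mul (Real.hasDerivAt_log hx.ne')
    have e3 := (e1.const_mul 3).div_const 4
    exact e2.sub e3
  have h2 : (2 * x) / 2 * Real.log x + x ^ 2 / 2 * x⁻¹ - 3 * (2 * x) / 4 = ph x := by
    unfold ph
    field_simp
    ring
  rw [h2] at h1
  exact h1

lemma G2_step (k : ℕ) : ph k ≤ G2 ((k : ℝ) + 1) - G2 k + 1 ∧
    G2 ((k : ℝ) + 1) - G2 k - 1 ≤ ph ((k : ℝ) + 1) := by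
  rcases Nat.eq_zero_or_pos k with h0 | h0
  · subst h0
    constructor <;> norm_num [G2, ph]
  · have hk : (1 : ℝ) ≤ k := by exact_mod_cast h0
    obtain ⟨c, hc, hc2⟩ := exists_hasDerivAt_eq_slope G2 ph (show (k : ℝ) < k + 1 by linarith)
      (fun x hx => (G2_deriv (by linarith [hx.1])).continuousAt.continuousWithinAt)
      (fun x hx => G2_deriv (by linarith [hx.1]))
    rw [add_sub_cancel_left, div_one] at hc2
    have h1 := ph_mono hk hc.1.le
    have h2 := ph_mono (by linarith [hc.1] : (1 : ℝ) ≤ c) hc.2.le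
    constructor <;> linarith

lemma up (a N : ℕ) : ∑ i ∈ Finset.range N, ph ((a + i : ℕ) : ℝ) ≤
    G2 ((a + N : ℕ) : ℝ) - G2 a + N := by
  induction N with
  | zero => simp
  | succ N ih =>
    rw [Finset.sum_range_succ]
    have h := (G2_step (a + N)).1
    push_cast at *
    have e : (a : ℝ) + ((N : ℝ) + 1) = a + N + 1 := by ring
    rw [e]
    linarith

lemma lo (a N : ℕ) : G2 ((a + N : ℕ) : ℝ) - G2 a - N ≤
    ∑ i ∈ Finset.range N, ph ((a + i + 1 : ℕ) : ℝ) := by
  induction N with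
  | zero => simp
  | succ N ih =>
    rw [Finset.sum_range_succ]
    have h := (G2_step (a + N)).2
    push_cast at *
    have e : (a : ℝ) + ((N : ℝ) + 1) = a + N + 1 := by ring
    rw [e]
    linarith

lemma desc (M N : ℕ) (h : N ≤ M) : Real.log (∏ j ∈ Finset.range N, ((M : ℝ) - j)) =
    Real.log (M.factorial : ℝ) - Real.log ((M - N).factorial : ℝ) := by
  have h1 : ∏ j ∈ Finset.range N, ((M : ℝ) - j) = (M.descFactorial N : ℝ) := by
    rw [Nat.descFactorial_eq_prod_range]
    push_cast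
    refine Finset.prod_congr rfl fun j hj => ?_
    rw [Finset.mem_range] at hj
    rw [Nat.cast_sub (by omega)]
  have h2 := Nat.factorial_mul_descFactorial h
  rw [h1, ← h2, Nat.cast_mul, Real.log_mul (by positivity)]
  · ring
  · have : 0 < M.descFactorial N := Nat.descFactorial_pos.mpr h
    positivity

/-- the logarithm of the determinant -/
lemma log_Dcl (v : ℕ) : Real.log (Dcl (40 * (v + 2)) (7 * (v + 2) + 5) (10 * (v + 2) - 1)) =
    ∑ i ∈ Finset.range (10 * v + 19), (2 * Real.log ((7 * v + 18 + i).factorial : ℝ) -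
      2 * Real.log ((33 * v + 60 - i).factorial : ℝ) + 2 * Real.log (i.factorial : ℝ) -
      Real.log ((26 * v + 42 - i).factorial : ℝ) + Real.log ((16 * v + 23 - i).factorial : ℝ)) := by
  unfold Dcl
  have hN : 10 * (v + 2) - 1 = 10 * v + 19 := by omega
  rw [hN, Real.log_prod]
  · refine Finset.sum_congr rfl fun i hi => ?_
    rw [Finset.mem_range] at hi
    have e1 : 7 * (v + 2) + 5 + i - 1 = 7 * v + 18 + i := by omega
    have e2 : 40 * (v + 2) - (7 * (v + 2) + 5) - i - 1 = 33 * v + 60 - i := by omega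
    rw [e1, e2]
    have e3 : ∏ j ∈ Finset.range (10 * v + 19),
        (((40 * (v + 2) : ℕ) : ℝ) - 2 * ((7 * (v + 2) + 5 : ℕ) : ℝ) - i - j) =
        ∏ j ∈ Finset.range (10 * v + 19), (((26 * v + 42 - i : ℕ) : ℝ) - j) := by
      refine Finset.prod_congr rfl fun j _ => ?_
      rw [Nat.cast_sub (by omega)]
      push_cast
      ring
    rw [e3]
    have hpos : 0 < ∏ j ∈ Finset.range (10 * v + 19), (((26 * v + 42 - i : ℕ) : ℝ) - j) := by
      refine Finset.prod_pos fun j hj => ?_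
      rw [Finset.mem_range] at hj
      have : j < 26 * v + 42 - i := by omega
      have : (j : ℝ) < ((26 * v + 42 - i : ℕ) : ℝ) := by exact_mod_cast this
      linarith
    rw [Real.log_mul (by positivity) (by positivity), Real.log_pow,
      Real.log_div (by positivity) (by positivity), Real.log_div (by positivity) hpos.ne',
      Real.log_pow, desc _ _ (by omega)]
    have e4 : 26 * v + 42 - i - (10 * v + 19) = 16 * v + 23 - i := by omega
    rw [e4]
    push_cast
    ring
  · intro i hi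
    rw [Finset.mem_range] at hi
    have e3 : ∏ j ∈ Finset.range (10 * v + 19),
        (((40 * (v + 2) : ℕ) : ℝ) - 2 * ((7 * (v + 2) + 5 : ℕ) : ℝ) - i - j) =
        ∏ j ∈ Finset.range (10 * v + 19), (((26 * v + 42 - i : ℕ) : ℝ) - j) := by
      refine Finset.prod_congr rfl fun j _ => ?_
      rw [Nat.cast_sub (by omega)]
      push_cast
      ring
    rw [e3]
    have hpos : 0 < ∏ j ∈ Finset.range (10 * v + 19), (((26 * v + 42 - i : ℕ) : ℝ) - j) := by
      refine Finset.prod_pos fun j hj => ?_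
      rw [Finset.mem_range] at hj
      have : j < 26 * v + 42 - i := by omega
      have : (j : ℝ) < ((26 * v + 42 - i : ℕ) : ℝ) := by exact_mod_cast this
      linarith
    positivity

lemma refl_sum (M N : ℕ) (h : N ≤ M + 1) (f : ℕ → ℝ) :
    ∑ i ∈ Finset.range N, f (M - i) = ∑ i ∈ Finset.range N, f (M + 1 - N + i) := by
  rw [← Finset.sum_range_reflect]
  refine Finset.sum_congr rfl fun i hi => ?_
  rw [Finset.mem_range] at hi
  congr 1
  omega

/-- the function of `n` which bounds the logarithm -/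
noncomputable def T (α β n : ℝ) : ℝ := G2 (α * n + β)

noncomputable def U (n : ℝ) : ℝ :=
  13 / 5 * (n * (2 * n * Real.log 2 + 2 * n * Real.log n - 2 * n)) +
    2 * (T (17 / 10) 3 n - T (7 / 10) 4 n) - 2 * (T (33 / 10) (-6) n - T (23 / 10) (-5) n) +
    2 * T 1 (-1) n - (T (13 / 5) (-10) n - T (8 / 5) (-9) n) +
    (T (8 / 5) (-8) n - T (3 / 5) (-7) n) + (16 * n * Real.log (4 * n) + 8 * n)

lemma bound (v : ℕ) : 13 / 5 * (10 * ((v + 2 : ℕ) : ℝ) - 1) *
      Real.log ((20 * (v + 2)).factorial : ℝ) +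
      Real.log (Dcl (40 * (v + 2)) (7 * (v + 2) + 5) (10 * (v + 2) - 1)) ≤
    U (10 * ((v + 2 : ℕ) : ℝ)) := by
  rw [log_Dcl]
  set n : ℝ := 10 * ((v + 2 : ℕ) : ℝ) with hn
  have hv : (0 : ℝ) ≤ v := Nat.cast_nonneg v
  have hn20 : 20 ≤ n := by rw [hn]; push_cast; linarith
  set L : ℝ := Real.log (4 * n) with hL
  have hL0 : 0 ≤ L := Real.log_nonneg (by linarith)
  have hlog : ∀ k : ℕ, k + 1 ≤ 40 * v + 80 → Real.log ((k : ℝ) + 1) ≤ L := by
    intro k hk
    refine Real.log_le_log (by positivity) ?_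
    have : ((k + 1 : ℕ) : ℝ) ≤ ((40 * v + 80 : ℕ) : ℝ) := by exact_mod_cast hk
    push_cast at this
    rw [hn]
    push_cast
    linarith
  have hterm : ∀ i ∈ Finset.range (10 * v + 19),
      (2 * Real.log ((7 * v + 18 + i).factorial : ℝ) -
      2 * Real.log ((33 * v + 60 - i).factorial : ℝ) + 2 * Real.log (i.factorial : ℝ) -
      Real.log ((26 * v + 42 - i).factorial : ℝ) + Real.log ((16 * v + 23 - i).factorial : ℝ)) ≤
      2 * ph ((7 * v + 18 + i : ℕ) : ℝ) - 2 * ph ((33 * v + 60 - i : ℕ) : ℝ) +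
      2 * ph ((0 + i : ℕ) : ℝ) -
      ph ((26 * v + 42 - i : ℕ) : ℝ) + ph ((16 * v + 23 - i : ℕ) : ℝ) + 10 * L := by
    intro i hi
    rw [Finset.mem_range] at hi
    have q1 := le_ph (7 * v + 18 + i)
    have q2 := ph_le (33 * v + 60 - i)
    have q3 := le_ph i
    have q4 := ph_le (26 * v + 42 - i)
    have q5 := le_ph (16 * v + 23 - i)
    have r1 := hlog (7 * v + 18 + i) (by omega)
    have r3 := hlog i (by omega)
    have r5 := hlog (16 * v + 23 - i) (by omega)
    rw [zero_add]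
    linarith
  have hsum := Finset.sum_le_sum hterm
  have hN : (((10 * v + 19 : ℕ) : ℝ)) = n - 1 := by rw [hn]; push_cast; ring
  have s1 := up (7 * v + 18) (10 * v + 19)
  have s2 := lo (23 * v + 41) (10 * v + 19)
  have s3 := up 0 (10 * v + 19)
  have s4 := lo (16 * v + 23) (10 * v + 19)
  have s5 := up (6 * v + 5) (10 * v + 19)
  have t2 : ∑ i ∈ Finset.range (10 * v + 19), ph ((33 * v + 60 - i : ℕ) : ℝ) =
      ∑ i ∈ Finset.range (10 * v + 19), ph ((23 * v + 41 + i + 1 : ℕ) : ℝ) := by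
    rw [refl_sum (33 * v + 60) (10 * v + 19) (by omega) (fun k => ph (k : ℝ))]
    refine Finset.sum_congr rfl fun i _ => ?_
    congr 2
    omega
  have t4 : ∑ i ∈ Finset.range (10 * v + 19), ph ((26 * v + 42 - i : ℕ) : ℝ) =
      ∑ i ∈ Finset.range (10 * v + 19), ph ((16 * v + 23 + i + 1 : ℕ) : ℝ) := by
    rw [refl_sum (26 * v + 42) (10 * v + 19) (by omega) (fun k => ph (k : ℝ))]
    refine Finset.sum_congr rfl fun i _ => ?_
    congr 2
    omega
  have t5 : ∑ i ∈ Finset.range (10 * v + 19), ph ((16 * v + 23 - i : ℕ) : ℝ) =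
      ∑ i ∈ Finset.range (10 * v + 19), ph ((6 * v + 5 + i : ℕ) : ℝ) := by
    rw [refl_sum (16 * v + 23) (10 * v + 19) (by omega) (fun k => ph (k : ℝ))]
    refine Finset.sum_congr rfl fun i _ => ?_
    congr 2
    omega
  simp only [Finset.sum_add_distrib, Finset.sum_sub_distrib, ← Finset.mul_sum, t2, t4, t5,
    Finset.sum_const, Finset.card_range, nsmul_eq_mul] at hsum
  have hG0 : G2 0 = 0 := by simp [G2]
  have u1 : ((7 * v + 18 + (10 * v + 19) : ℕ) : ℝ) = 17 / 10 * n + 3 := by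
    rw [hn]; push_cast; ring
  have u1' : ((7 * v + 18 : ℕ) : ℝ) = 7 / 10 * n + 4 := by rw [hn]; push_cast; ring
  have u2 : ((23 * v + 41 + (10 * v + 19) : ℕ) : ℝ) = 33 / 10 * n + -6 := by
    rw [hn]; push_cast; ring
  have u2' : ((23 * v + 41 : ℕ) : ℝ) = 23 / 10 * n + -5 := by rw [hn]; push_cast; ring
  have u3 : ((0 + (10 * v + 19) : ℕ) : ℝ) = 1 * n + -1 := by rw [hn]; push_cast; ring
  have u4 : ((16 * v + 23 + (10 * v + 19) : ℕ) : ℝ) = 13 / 5 * n + -10 := by
    rw [hn]; push_cast; ring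
  have u4' : ((16 * v + 23 : ℕ) : ℝ) = 8 / 5 * n + -9 := by rw [hn]; push_cast; ring
  have u5 : ((6 * v + 5 + (10 * v + 19) : ℕ) : ℝ) = 8 / 5 * n + -8 := by
    rw [hn]; push_cast; ring
  have u5' : ((6 * v + 5 : ℕ) : ℝ) = 3 / 5 * n + -7 := by rw [hn]; push_cast; ring
  rw [u1, u1', hN] at s1
  rw [u2, u2', hN] at s2
  rw [u3, hN, Nat.cast_zero, hG0] at s3
  rw [u4, u4', hN] at s4
  rw [u5, u5', hN] at s5
  rw [hN] at hsum
  -- the first term
  have f1 := le_ph (20 * (v + 2))
  have f2 := hlog (20 * (v + 2)) (by omega)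
  have f3 : ((20 * (v + 2) : ℕ) : ℝ) = 2 * n := by rw [hn]; push_cast; ring
  rw [f3] at f1 f2
  have f4 : ph (2 * n) = 2 * n * Real.log 2 + 2 * n * Real.log n - 2 * n := by
    unfold ph
    rw [Real.log_mul (by norm_num) (by linarith)]
    ring
  rw [f4] at f1
  have f5 : 0 ≤ Real.log ((20 * (v + 2)).factorial : ℝ) :=
    Real.log_nonneg (by exact_mod_cast Nat.one_le_iff_ne_zero.mpr (Nat.factorial_ne_zero _))
  have f6 : 13 / 5 * (n - 1) * Real.log ((20 * (v + 2)).factorial : ℝ) ≤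
      13 / 5 * (n * (2 * n * Real.log 2 + 2 * n * Real.log n - 2 * n)) + 26 / 5 * n * L := by
    calc 13 / 5 * (n - 1) * Real.log ((20 * (v + 2)).factorial : ℝ) ≤
          13 / 5 * n * Real.log ((20 * (v + 2)).factorial : ℝ) :=
          mul_le_mul_of_nonneg_right (by linarith) f5
      _ ≤ 13 / 5 * n * (2 * n * Real.log 2 + 2 * n * Real.log n - 2 * n + 2 * L) :=
          mul_le_mul_of_nonneg_left (by linarith) (by linarith)
      _ = _ := by ring
  have f7 : (n - 1) * (10 * L) ≤ 10 * n * L := by nlinarith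
  have f8 : 0 ≤ n * L := mul_nonneg (by linarith) hL0
  unfold U T
  rw [← hL]
  simp only [Finset.sum_add_distrib, Finset.sum_sub_distrib, ← Finset.mul_sum]
  linarith

lemma T_lim (α β : ℝ) (hα : 0 < α) :
    Tendsto (fun n : ℝ => T α β n / n ^ 2 - α ^ 2 / 2 * Real.log n) atTop (𝓝 (G2 α)) := by
  have h1 : Tendsto (fun n : ℝ => α + β / n) atTop (𝓝 α) := by
    simpa using tendsto_const_nhds.add (tendsto_const_nhds.div_atTop tendsto_id (a := β))
  have h2 : Tendsto (fun n : ℝ => G2 (α + β / n)) atTop (𝓝 (G2 α)) :=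
    ((G2_deriv hα).continuousAt.tendsto).comp h1
  have h3 : Tendsto (fun n : ℝ => Real.log n / n) atTop (𝓝 0) :=
    Real.isLittleO_log_id_atTop.tendsto_div_nhds_zero
  have h4 : Tendsto (fun n : ℝ => 1 / n) atTop (𝓝 0) := tendsto_const_nhds.div_atTop tendsto_id
  have h5 : Tendsto (fun n : ℝ => α * β * (Real.log n / n) +
      β ^ 2 / 2 * (1 / n * (Real.log n / n))) atTop (𝓝 0) := by
    have := (h3.const_mul (α * β)).add ((h4.mul h3).const_mul (β ^ 2 / 2))
    simpa using this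
  have h6 := h2.add h5
  rw [add_zero] at h6
  refine h6.congr' ?_
  have h7 : ∀ᶠ n : ℝ in atTop, 0 < α + β / n := h1.eventually (lt_mem_nhds hα)
  filter_upwards [h7, eventually_gt_atTop 0] with n hn hn0
  unfold T G2
  have e : α * n + β = n * (α + β / n) := by field_simp
  rw [e, Real.log_mul hn0.ne' hn.ne']
  field_simp
  ring

lemma log4_lim : Tendsto (fun n : ℝ => (16 * n * Real.log (4 * n) + 8 * n) / n ^ 2) atTop (𝓝 0) := by
  have h3 : Tendsto (fun n : ℝ => Real.log n / n) atTop (𝓝 0) :=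
    Real.isLittleO_log_id_atTop.tendsto_div_nhds_zero
  have h4 : Tendsto (fun n : ℝ => 1 / n) atTop (𝓝 0) := tendsto_const_nhds.div_atTop tendsto_id
  have h5 := (h3.const_mul 16).add (h4.const_mul (16 * Real.log 4 + 8))
  simp only [mul_zero, add_zero] at h5
  refine h5.congr' ?_
  filter_upwards [eventually_gt_atTop 0] with n hn0
  rw [Real.log_mul (by norm_num) hn0.ne']
  field_simp
  ring

lemma U_lim : Tendsto (fun n : ℝ => U n / n ^ 2 - 2 * Real.log n) atTop (𝓝 a0) := by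
  have h := (((((T_lim (17 / 10) 3 (by norm_num)).sub (T_lim (7 / 10) 4 (by norm_num))).const_mul 2).sub
    (((T_lim (33 / 10) (-6) (by norm_num)).sub (T_lim (23 / 10) (-5) (by norm_num))).const_mul 2)).add
    ((T_lim 1 (-1) (by norm_num)).const_mul 2)).sub
    ((T_lim (13 / 5) (-10) (by norm_num)).sub (T_lim (8 / 5) (-9) (by norm_num)))
  have h2 := ((h.add ((T_lim (8 / 5) (-8) (by norm_num)).sub (T_lim (3 / 5) (-7) (by norm_num)))).add
    log4_lim).add (tendsto_const_nhds (x := 13 / 5 * (2 * Real.log 2 - 2)))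
  have hG1 : G2 1 = -3 / 4 := by norm_num [G2]
  have e : 2 * (G2 (17 / 10) - G2 (7 / 10)) - 2 * (G2 (33 / 10) - G2 (23 / 10)) + 2 * G2 1 -
      (G2 (13 / 5) - G2 (8 / 5)) + (G2 (8 / 5) - G2 (3 / 5)) + 0 +
      13 / 5 * (2 * Real.log 2 - 2) = a0 := by
    rw [hG1]
    unfold a0
    ring
  rw [e] at h2
  refine h2.congr' ?_
  filter_upwards [eventually_gt_atTop 0] with n hn0
  unfold U
  field_simp
  ring

end ASY_

open ASY_ R0_

theorem ASY : S_ASY := by
  intro ε hε
  have h1 : Tendsto (fun ν : ℕ => 10 * (ν : ℝ)) atTop atTop :=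
    tendsto_natCast_atTop_atTop.const_mul_atTop (by norm_num)
  have h2 := (U_lim.comp h1).eventually (gt_mem_nhds (lt_add_of_pos_right a0 hε))
  filter_upwards [h2, eventually_ge_atTop 2] with ν hν hν2
  obtain ⟨v, rfl⟩ := Nat.exists_eq_add_of_le' hν2
  refine (bound v).trans ?_
  simp only [Function.comp_apply] at hν
  have hn : (0 : ℝ) < 10 * ((v + 2 : ℕ) : ℝ) := by positivity
  generalize (10 : ℝ) * ((v + 2 : ℕ) : ℝ) = n at hν hn
  have hn2 : 0 < n ^ 2 := by positivity
  have h3 : U n / n ^ 2 < 2 * Real.log n + a0 + ε := by linarith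
  rw [div_lt_iff₀ hn2] at h3
  linarith


end Pool.Agent.N334.W
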