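import Pool.Agent.N334.W.Stm
import Pool.Agent.H337R2.PBd

/-!
# Project WD, part CBD: the linear form on products of node polynomials
-/

open Polynomial Pool.Agent.H337R2

namespace Pool.Agent.N334.W

noncomputable section

lemma CBD_comp (n r : ℕ) :
    (XN n r).comp (xp n) = (X + C (r : ℚ)) * (X + C (((4 * n : ℕ) : ℚ) - r)) := by
  unfold XN xp
  rw [Polynomial.add_comp, Polynomial.X_comp, Polynomial.C_comp]
  simp only [Polynomial.C_mul, Polynomial.C_sub, Nat.cast_mul, Nat.cast_ofNat]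
  ring

section
variable {p : ℕ} [hp : Fact p.Prime]

lemma CBD_lin (z : ℤ) (a : ℚ) (ha : a = (z : ℚ)) :
    PB p (p : ℚ) 1 (PowerSeries.X + PowerSeries.C a) := by
  refine PB.linX p_pos'.le zero_le_one ?_ (by rw [one_mul]; exact p_one')
  rw [ha]
  exact padicNorm.of_int z

lemma CBD_lin_dvd (z : ℤ) (hz : (p : ℤ) ∣ z) (a : ℚ) (ha : a = (z : ℚ)) :
    PB p (p : ℚ) (p : ℚ)⁻¹ (PowerSeries.X + PowerSeries.C a) := by
  have hp0 : (0 : ℚ) < p := p_pos'
  refine PB.linX hp0.le (inv_nonneg.2 hp0.le) ?_ (by rw [inv_mul_cancel₀ hp0.ne'])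
  rw [ha]
  have := (padicNorm.dvd_iff_norm_le (p := p) (n := 1) (z := z)).1 (by simpa using hz)
  simpa using this

lemma CBD_XN (n k r : ℕ) (hr : r ≤ 4 * n) :
    PB p (p : ℚ) (if r ≡ k [MOD p] ∨ 4 * n - r ≡ k [MOD p] then (p : ℚ)⁻¹ else 1)
      (TS (-(k : ℚ)) ((XN n r).comp (xp n))) := by
  have hp0 : (0 : ℚ) < p := p_pos'
  rw [CBD_comp, map_mul, TS_lin, TS_lin]
  have e1 : (-(k : ℚ) + (r : ℚ)) = ((-((k : ℤ) - r) : ℤ) : ℚ) := by push_cast; ring
  have e2 : (-(k : ℚ) + (((4 * n : ℕ) : ℚ) - (r : ℚ))) =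
      ((-((k : ℤ) - ((4 * n - r : ℕ) : ℤ)) : ℤ) : ℚ) := by
    push_cast [Nat.cast_sub hr]; ring
  split_ifs with h
  · rcases h with h | h
    · have h1 := CBD_lin_dvd (p := p) _ ((dvd_neg).2 (Nat.modEq_iff_dvd.1 h)) _ e1
      have h2 := CBD_lin (p := p) _ _ e2
      have := PB.mul hp0.le (inv_nonneg.2 hp0.le) zero_le_one h1 h2
      simpa using this
    · have h1 := CBD_lin (p := p) _ _ e1
      have h2 := CBD_lin_dvd (p := p) _ ((dvd_neg).2 (Nat.modEq_iff_dvd.1 h)) _ e2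
      have := PB.mul hp0.le zero_le_one (inv_nonneg.2 hp0.le) h1 h2
      simpa using this
  · have h1 := CBD_lin (p := p) _ _ e1
    have h2 := CBD_lin (p := p) _ _ e2
    have := PB.mul hp0.le zero_le_one zero_le_one h1 h2
    simpa using this

lemma CBD_ND (n k j : ℕ) (r : ℕ → ℕ) (hr : ∀ i, r i ≤ 4 * n) :
    PB p (p : ℚ) ((p : ℚ)⁻¹ ^
      ((Finset.range j).filter fun i => r i ≡ k [MOD p] ∨ 4 * n - r i ≡ k [MOD p]).card)
      (TS (-(k : ℚ)) ((∏ i ∈ Finset.range j, XN n (r i)).comp (xp n))) := by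
  have hp0 : (0 : ℚ) < p := p_pos'
  rw [Polynomial.prod_comp, map_prod]
  have h := PB.prod (p := p) (Finset.range j)
    (fun i => if r i ≡ k [MOD p] ∨ 4 * n - r i ≡ k [MOD p] then (p : ℚ)⁻¹ else 1)
    (fun i => TS (-(k : ℚ)) ((XN n (r i)).comp (xp n))) hp0.le
    (fun i _ => by split_ifs <;> positivity) (fun i _ => CBD_XN n k (r i) (hr i))
  rw [Finset.prod_ite, Finset.prod_const, Finset.prod_const_one, mul_one] at h
  exact h

lemma CBD_PN (h n k : ℕ) (hp2 : 4 * n < p ^ 2) :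
    PB p (p : ℚ) ((p : ℚ)⁻¹ ^ (h * (2 * n / p))) (TS (-(k : ℚ)) (PN h n)) := by
  have hp0 : (0 : ℚ) < p := p_pos'
  unfold PN
  rw [map_mul, TS_C, TS_lin2]
  have h1 : padicNorm p (((2 * n).factorial : ℚ) ^ h) ≤ (p : ℚ)⁻¹ ^ (h * (2 * n / p)) := by
    rw [padicNorm_pow', norm_factorial (by omega), zpow_neg, zpow_natCast, ← inv_pow, ← pow_mul,
      mul_comm]
  have h2 : PB p (p : ℚ) 1 (PowerSeries.C 2 * PowerSeries.X +
      PowerSeries.C (2 * -(k : ℚ) + ((4 * n : ℕ) : ℚ))) := by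
    apply PB.lin hp0.le zero_le_one
    · have := padicNorm.of_int (p := p) (((4 * n : ℕ) : ℤ) - 2 * k)
      push_cast at this ⊢
      rw [show (2 : ℚ) * -(k : ℚ) + 4 * n = 4 * n - 2 * k by ring]
      exact this
    · rw [one_mul]
      have := padicNorm.of_int (p := p) 2
      push_cast at this
      exact this.trans p_one'
  have := PB.mul hp0.le (by positivity) zero_le_one (PB.C hp0.le (by positivity) h1) h2
  simpa using this

lemma CBD_hs (e m : ℕ) (hm : m < p ^ 2) : padicNorm p (hs e m) ≤ (p : ℚ) ^ e := by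
  unfold hs
  have hp1 : (1 : ℚ) ≤ p := p_one'
  apply padicNorm.sum_le' _ (by positivity)
  intro l hl
  rw [Finset.mem_range] at hl
  rw [padicNorm.div, padicNorm.one, padicNorm_pow', one_div, ← inv_pow]
  apply pow_le_pow_left₀ (inv_nonneg.2 (padicNorm.nonneg _))
  have h1 := norm_small (p := p) (a := ((l + 1 : ℕ) : ℤ)) (by positivity) (by
    rw [abs_of_nonneg (by positivity)]
    exact_mod_cast (by omega : l + 1 < p ^ 2))
  have h2 : (((l + 1 : ℕ) : ℤ) : ℚ) = (l : ℚ) + 1 := by push_cast; ring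
  rw [h2] at h1
  rw [h1]
  split_ifs
  · simp
  · simpa using hp.out.one_lt.le

lemma CBD_Np (n k : ℕ) (hk : k ∈ sN n) :
    ∑ m ∈ (sN n).erase k, (if (p : ℤ) ∣ (m : ℤ) - k then 1 else 0) + 1 = Np n p k := by
  rw [Finset.sum_boole, Nat.cast_id]
  have e : ((sN n).erase k).filter (fun m : ℕ => (p : ℤ) ∣ (m : ℤ) - k) =
      ((Finset.Icc n (3 * n)).filter fun k' => k' ≡ k [MOD p]).erase k := by
    ext m
    simp only [Finset.mem_filter, Finset.mem_erase]
    have h1 : (p : ℤ) ∣ (m : ℤ) - k ↔ m ≡ k [MOD p] := by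
      rw [Nat.modEq_iff_dvd, ← dvd_neg, neg_sub]
    rw [h1]
    tauto
  have hmem : k ∈ (Finset.Icc n (3 * n)).filter fun k' => k' ≡ k [MOD p] :=
    Finset.mem_filter.2 ⟨hk, Nat.ModEq.refl k⟩
  rw [e, Finset.card_erase_add_one hmem]
  rfl

lemma CBD_pa (h n k j i : ℕ) (r : ℕ → ℕ) (hr : ∀ i, r i ≤ 4 * n) (hp2 : 4 * n < p ^ 2)
    (hk : k ∈ sN n) :
    padicNorm p (pa (sN n) (mu h) (PN h n * (∏ i ∈ Finset.range j, XN n (r i)).comp (xp n)) k i) ≤
      (p : ℚ) ^ ((h : ℤ) * ((Np n p k : ℤ) - ((2 * n / p : ℕ) : ℤ)) -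
        (((Finset.range j).filter fun i => r i ≡ k [MOD p] ∨ 4 * n - r i ≡ k [MOD p]).card : ℤ) -
        i) := by
  have hp0 : (0 : ℚ) < p := p_pos'
  unfold pa
  split_ifs with hi
  · have hPE := PB.mul hp0.le (by positivity) (by positivity) (CBD_PN h n k hp2)
      (CBD_ND n k j r hr)
    rw [← map_mul] at hPE
    have h1 := pfc_bound (p := p) (sN n) (mu h) _ k (p : ℚ) _
      (fun m => if (p : ℤ) ∣ (m : ℤ) - k then (p : ℚ) else 1) hp0.le (by positivity) hPE
      (by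
        intro m hm _
        have hmk := Finset.ne_of_mem_erase hm
        have hm' := Finset.mem_Icc.1 (Finset.mem_of_mem_erase hm)
        have hk' := Finset.mem_Icc.1 hk
        have h1 : ((m : ℤ) - k) ≠ 0 := by
          intro h; apply hmk; omega
        have h2 : |(m : ℤ) - k| < (p : ℤ) ^ 2 := by
          have h3 : ((4 * n : ℕ) : ℤ) < ((p ^ 2 : ℕ) : ℤ) := by exact_mod_cast hp2
          have h4 : (((p ^ 2 : ℕ) : ℤ)) = (p : ℤ) ^ 2 := by push_cast; ring
          rw [← h4]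
          rw [abs_lt]
          omega
        have h3 := norm_small (p := p) h1 h2
        push_cast at h3
        rw [h3]
        split_ifs
        · simp
        · simp [hp.out.one_lt.le])
      (by
        intro m _
        split_ifs
        · exact hp0.le
        · exact zero_le_one) (mu h k - i)
    refine h1.trans (le_of_eq ?_)
    rw [prod_ite_pow, ← Finset.mul_sum]
    have hN := CBD_Np (p := p) n k hk
    rw [← hN, inv_pow, inv_pow, ← zpow_natCast, ← zpow_natCast, ← zpow_natCast, ← zpow_natCast,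
      ← zpow_neg, ← zpow_neg, ← zpow_add₀ hp0.ne', ← zpow_add₀ hp0.ne', ← zpow_add₀ hp0.ne']
    congr 1
    push_cast [Nat.cast_sub hi]
    ring
  · rw [padicNorm.zero]
    positivity

end

/-- the linear form of products of node polynomials -/
theorem CBD : S_CBD := by
  intro b h n q p j u r w hn hpp hp2 hu hr hw
  have hp : Fact p.Prime := ⟨hpp⟩
  have hp0 : (0 : ℚ) < p := p_pos'
  have hp1 : (1 : ℚ) ≤ p := p_one'
  have hq1 : padicNorm p (q : ℚ) ≤ 1 := padicNorm.of_nat q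
  have hW : (0 : ℚ) ≤ (p : ℚ) ^ w := by positivity
  rw [NL_apply]
  unfold xf
  rw [Finset.mul_sum]
  apply padicNorm.sum_le' _ hW
  intro i hi
  rw [Finset.mem_Icc] at hi
  have hch : padicNorm p (((Nat.choose (i - 1 + b) (i - 1) : ℕ) : ℚ)) ≤ 1 := padicNorm.of_nat _
  have hqu : padicNorm p ((q : ℚ) * u (i + b)) ≤ 1 := by
    obtain ⟨z, hz⟩ := hu.2 (i + b)
    rw [hz]
    exact padicNorm.of_int z
  obtain ⟨P, hP⟩ : ∃ P, P = PN h n * (∏ i ∈ Finset.range j, XN n (r i)).comp (xp n) := ⟨_, rfl⟩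
  rw [← hP]
  have e : (q : ℚ) * (((Nat.choose (i - 1 + b) (i - 1) : ℕ) : ℚ) *
      ((∑ k ∈ sN n, pa (sN n) (mu h) P k i) * u (i + b) -
        ∑ k ∈ sN n, pa (sN n) (mu h) P k i * hs (i + b) (k - 1))) =
      ((Nat.choose (i - 1 + b) (i - 1) : ℕ) : ℚ) *
      ((∑ k ∈ sN n, pa (sN n) (mu h) P k i * ((q : ℚ) * u (i + b))) -
        ∑ k ∈ sN n, (q : ℚ) * (pa (sN n) (mu h) P k i * hs (i + b) (k - 1))) := by
    rw [← Finset.sum_mul, ← Finset.mul_sum]
    ring
  rw [e, padicNorm.mul]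
  have e2 : padicNorm p ((∑ k ∈ sN n, pa (sN n) (mu h) P k i * ((q : ℚ) * u (i + b))) -
        ∑ k ∈ sN n, (q : ℚ) * (pa (sN n) (mu h) P k i * hs (i + b) (k - 1))) ≤ (p : ℚ) ^ w := by
    refine padicNorm.sub.trans (max_le ?_ ?_)
    · apply padicNorm.sum_le' _ hW
      intro k hk
      have h1 := CBD_pa (p := p) h n k j i r hr hp2 hk
      rw [← hP] at h1
      have h2 := hw k hk
      rw [padicNorm.mul]
      calc _ ≤ (p : ℚ) ^ w * 1 := by
            refine mul_le_mul (h1.trans ?_) hqu (padicNorm.nonneg _) hW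
            exact zpow_le_zpow_right₀ hp1 (by omega)
        _ = (p : ℚ) ^ w := mul_one _
    · apply padicNorm.sum_le' _ hW
      intro k hk
      have h1 := CBD_pa (p := p) h n k j i r hr hp2 hk
      rw [← hP] at h1
      have h2 := hw k hk
      have hk' := Finset.mem_Icc.1 hk
      have h3 := CBD_hs (p := p) (i + b) (k - 1) (by omega)
      rw [padicNorm.mul, padicNorm.mul]
      have h4 : padicNorm p (pa (sN n) (mu h) P k i) * padicNorm p (hs (i + b) (k - 1)) ≤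
          (p : ℚ) ^ w := by
        refine (mul_le_mul h1 h3 (padicNorm.nonneg _) (by positivity)).trans ?_
        rw [← zpow_natCast, ← zpow_add₀ hp0.ne']
        apply zpow_le_zpow_right₀ hp1
        rw [Nat.cast_add]
        linarith
      calc _ ≤ 1 * (p : ℚ) ^ w := mul_le_mul hq1 h4
            (mul_nonneg (padicNorm.nonneg _) (padicNorm.nonneg _)) zero_le_one
        _ = (p : ℚ) ^ w := one_mul _
  calc _ ≤ 1 * (p : ℚ) ^ w := mul_le_mul hch e2 (padicNorm.nonneg _) zero_le_one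
    _ = (p : ℚ) ^ w := one_mul _

end

end Pool.Agent.N334.W
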