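import Pool.Agent.N334.W.Stm
import Pool.Agent.TH650.GB.CB

/-!
# Project WD, part CL: the classical Hankel determinant dominates every product
-/

open Polynomial Filter Topology

namespace Pool.Agent.N334.W.CLp

noncomputable section

/-- the basis `P_i` -/
def PP (c A i : ℕ) : ℝ[X] :=
  ∏ l ∈ Finset.range i, (X + C (((A : ℝ) + l) * ((c : ℝ) - A - l)))

lemma PP_monic (c A i : ℕ) : (PP c A i).Monic :=
  monic_prod_of_monic _ _ fun _ _ => monic_X_add_C _

lemma PP_deg (c A i : ℕ) : (PP c A i).natDegree = i := by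
  unfold PP
  rw [natDegree_prod_of_monic _ _ fun _ _ => monic_X_add_C _]
  simp only [natDegree_X_add_C, Finset.sum_const, Finset.card_range, smul_eq_mul, mul_one]

lemma PP_eval (c A i t : ℕ) : (PP c A i).eval (nx c t) =
    (∏ l ∈ Finset.range i, ((t : ℝ) + A + l)) * ∏ l ∈ Finset.range i, ((t : ℝ) + c - A - l) := by
  unfold PP nx
  rw [eval_prod, ← Finset.prod_mul_distrib]
  refine Finset.prod_congr rfl fun l _ => ?_
  rw [eval_add, eval_X, eval_C]
  ring

lemma prod_up (A t i : ℕ) (hA : 1 ≤ A) :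
    (∏ l ∈ Finset.range i, ((t : ℝ) + A + l)) * ((t + A - 1).factorial : ℝ) =
      ((t + (A + i) - 1).factorial : ℝ) := by
  obtain ⟨a, rfl⟩ := Nat.exists_eq_add_of_le' hA
  induction i with
  | zero => simp
  | succ i ih =>
    rw [Finset.prod_range_succ, mul_right_comm, ih]
    have h1 : t + (a + 1 + (i + 1)) - 1 = (t + (a + 1 + i) - 1) + 1 := by omega
    have h2 : ((t + (a + 1 + i) - 1 + 1 : ℕ) : ℝ) = (t : ℝ) + ((a + 1 : ℕ) : ℝ) + i := by
      have h3 : t + (a + 1 + i) - 1 + 1 = t + (a + 1) + i := by omega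
      rw [h3]
      push_cast
      ring
    rw [h1, Nat.factorial_succ, Nat.cast_mul, h2, mul_comm]

lemma prod_down (D i : ℕ) (hi : i ≤ D) :
    (∏ l ∈ Finset.range i, ((D : ℝ) - l)) * ((D - i).factorial : ℝ) = (D.factorial : ℝ) := by
  induction i with
  | zero => simp
  | succ i ih =>
    rw [Finset.prod_range_succ, mul_assoc, ← ih (by omega)]
    congr 1
    have h1 : D - i = (D - (i + 1)) + 1 := by omega
    have h2 : (((D - (i + 1) : ℕ) : ℝ)) + 1 = (D : ℝ) - i := by
      rw [Nat.cast_sub hi]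
      push_cast
      ring
    rw [h1, Nat.factorial_succ, Nat.cast_mul, Nat.cast_add_one, h2]

lemma prod_icc (a t m : ℕ) :
    (∏ k ∈ Finset.Icc (a + 1) (a + m), ((t : ℝ) + k)) * ((t + a).factorial : ℝ) =
      ((t + a + m).factorial : ℝ) := by
  induction m with
  | zero => simp
  | succ m ih =>
    rw [← Nat.add_assoc a m 1, Finset.prod_Icc_succ_top (by omega), mul_right_comm, ih,
      ← Nat.add_assoc (t + a) m 1, Nat.factorial_succ, Nat.cast_mul, mul_comm]
    congr 1
    push_cast
    ring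

/-- the summand -/
lemma term (c A i j t : ℕ) (hA : 1 ≤ A) (hi : A + i ≤ c) (hj : A + j ≤ c) (hc : 2 * A ≤ c + 1) :
    wcl c A t * (PP c A i).eval (nx c t) * (PP c A j).eval (nx c t) =
      (2 * (t : ℝ) + c) * ((t + (A + i) - 1).factorial : ℝ) * ((t + (A + j) - 1).factorial : ℝ) /
        (((t + c - (A + i)).factorial : ℝ) * ((t + c - (A + j)).factorial : ℝ)) := by
  have hD : (((t + c - A : ℕ) : ℝ)) = (t : ℝ) + c - A := by
    rw [Nat.cast_sub (by omega)]
    push_cast
    ring
  have key : ∀ i : ℕ, A + i ≤ c → (PP c A i).eval (nx c t) *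
      (((t + A - 1).factorial : ℝ) / ((t + c - A).factorial : ℝ)) =
      ((t + (A + i) - 1).factorial : ℝ) / ((t + c - (A + i)).factorial : ℝ) := by
    intro i hi
    have h1 := prod_up A t i hA
    have h2 := prod_down (t + c - A) i (by omega)
    rw [hD, Nat.sub_sub] at h2
    rw [PP_eval, ← h1, ← h2]
    have h3 : ((t + c - (A + i)).factorial : ℝ) ≠ 0 := by positivity
    have h4 : (∏ l ∈ Finset.range i, ((t : ℝ) + c - A - l)) ≠ 0 := by
      intro h5
      rw [h5, zero_mul] at h2
      have h6 : ((t + c - A).factorial : ℝ) ≠ 0 := by positivity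
      exact h6 h2.symm
    field_simp
  have hw : wcl c A t = (2 * (t : ℝ) + c) *
      (((t + A - 1).factorial : ℝ) / ((t + c - A).factorial : ℝ)) ^ 2 := by
    unfold wcl
    have h1 := prod_icc (A - 1) t (c - A - (A - 1))
    have e1 : A - 1 + 1 = A := by omega
    have e2 : A - 1 + (c - A - (A - 1)) = c - A := by omega
    have e3 : t + (A - 1) = t + A - 1 := by omega
    have e4 : t + (A - 1) + (c - A - (A - 1)) = t + c - A := by omega
    rw [e1, e2, e4, e3] at h1
    have h2 : ((t + A - 1).factorial : ℝ) ≠ 0 := by positivity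
    have h3 : ((t + c - A).factorial : ℝ) ≠ 0 := by positivity
    have h4 : (∏ k ∈ Finset.Icc A (c - A), ((t : ℝ) + k)) =
        ((t + c - A).factorial : ℝ) / ((t + A - 1).factorial : ℝ) := by
      rw [eq_div_iff h2, h1]
    rw [h4]
    field_simp
  calc wcl c A t * (PP c A i).eval (nx c t) * (PP c A j).eval (nx c t)
      = (2 * (t : ℝ) + c) * ((PP c A i).eval (nx c t) *
          (((t + A - 1).factorial : ℝ) / ((t + c - A).factorial : ℝ))) *
          ((PP c A j).eval (nx c t) *
          (((t + A - 1).factorial : ℝ) / ((t + c - A).factorial : ℝ))) := by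
        rw [hw]
        ring
    _ = _ := by
        rw [key i hi, key j hj]
        field_simp

/-- the Vandermonde product of a finite set -/
lemma vd_eq (c N : ℕ) (S : Finset ℕ) (hS : S.card = N) :
    vd c S = (Matrix.vandermonde fun i : Fin N => nx c (S.orderEmbOfFin hS i)).det := by
  rw [Matrix.det_vandermonde]
  unfold vd
  have h1 : S = Finset.univ.map (S.orderEmbOfFin hS).toEmbedding := by
    ext x
    simp only [Finset.mem_map, Finset.mem_univ, true_and]
    have h2 := Finset.range_orderEmbOfFin S hS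
    rw [Set.ext_iff] at h2
    exact (h2 x).symm
  have h3 : ∀ G : ℕ → ℝ, ∏ a ∈ S, G a = ∏ i : Fin N, G (S.orderEmbOfFin hS i) := by
    intro G
    conv_lhs => rw [h1]
    rw [Finset.prod_map]
    rfl
  rw [h3]
  refine Finset.prod_congr rfl fun i _ => ?_
  rw [Finset.prod_filter, h3, ← Finset.prod_filter]
  refine Finset.prod_congr ?_ fun _ _ => rfl
  ext j
  simp

/-- every product is bounded by the truncated determinants -/
lemma trunc (c A N : ℕ) (S : Finset ℕ) (hS : S.card = N) (T : ℕ) (hT : ∀ a ∈ S, a < T)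
    (hw : ∀ t, 0 ≤ wcl c A t) :
    (∏ a ∈ S, wcl c A a) * vd c S ^ 2 ≤
      (Matrix.of fun i j : Fin N => ∑ t ∈ Finset.range T,
        wcl c A t * (PP c A i).eval (nx c t) * (PP c A j).eval (nx c t)).det := by
  classical
  let e : Fin N → Fin T := fun i => ⟨S.orderEmbOfFin hS i, hT _ (Finset.orderEmbOfFin_mem S hS i)⟩
  have he : Function.Injective e := fun i j h => by
    have h1 : S.orderEmbOfFin hS i = S.orderEmbOfFin hS j := congrArg Fin.val h
    exact (S.orderEmbOfFin hS).injective h1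
  have h1 := Pool.Agent.TH650.GB.cb_gram (fun r : Fin T => wcl c A r)
    (fun (r : Fin T) (i : Fin N) => (PP c A i).eval (nx c r))
  have h2 : (∑ r : Fin T, wcl c A r • Matrix.vecMulVec (fun i : Fin N => (PP c A i).eval (nx c r))
      (fun i : Fin N => (PP c A i).eval (nx c r))) =
      Matrix.of fun i j : Fin N => ∑ t ∈ Finset.range T,
        wcl c A t * (PP c A i).eval (nx c t) * (PP c A j).eval (nx c t) := by
    ext i j
    rw [Matrix.sum_apply, Matrix.of_apply,
      ← Fin.sum_univ_eq_sum_range (fun t => wcl c A t * (PP c A i).eval (nx c t) *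
        (PP c A j).eval (nx c t))]
    refine Finset.sum_congr rfl fun r _ => ?_
    rw [Matrix.smul_apply, Matrix.vecMulVec_apply, smul_eq_mul]
    ring
  rw [h2] at h1
  have h3 : ∀ I : Fin N → Fin T,
      (Matrix.of fun a (i : Fin N) => (PP c A i).eval (nx c (I a))).det =
        (Matrix.vandermonde fun a => nx c (I a)).det := fun I =>
    (Matrix.det_eval_matrixOfPolynomials_eq_det_vandermonde (fun a => nx c (I a))
      (fun i : Fin N => PP c A i) (fun i => PP_deg c A i) (fun i => PP_monic c A i)).symm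
  simp only [h3] at h1
  let G : (Fin N → Fin T) → ℝ := fun I => (∏ a, wcl c A (I a)) *
    (Matrix.vandermonde fun a => nx c (I a)).det ^ 2
  have hG : ∀ I, 0 ≤ G I := fun I => mul_nonneg (Finset.prod_nonneg fun a _ => hw _) (sq_nonneg _)
  have h4 : ∀ σ : Equiv.Perm (Fin N), G (e ∘ σ) = (∏ a ∈ S, wcl c A a) * vd c S ^ 2 := by
    intro σ
    have h5 : (Matrix.vandermonde fun a => nx c (e (σ a))) =
        (Matrix.vandermonde fun a => nx c (e a)).submatrix σ id := rfl
    have h6 : ∏ a, wcl c A (e (σ a)) = ∏ a, wcl c A (e a) :=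
      Equiv.prod_comp σ fun a => wcl c A (e a)
    have h7 : ∏ a, wcl c A (e a) = ∏ a ∈ S, wcl c A a := by
      have h8 : S = Finset.univ.map (S.orderEmbOfFin hS).toEmbedding := by
        ext x
        simp only [Finset.mem_map, Finset.mem_univ, true_and]
        have h2 := Finset.range_orderEmbOfFin S hS
        rw [Set.ext_iff] at h2
        exact (h2 x).symm
      conv_rhs => rw [h8]
      rw [Finset.prod_map]
      rfl
    change (∏ a, wcl c A (e (σ a))) * (Matrix.vandermonde fun a => nx c (e (σ a))).det ^ 2 = _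
    rw [h5, Matrix.det_permute, h6, h7, mul_pow, vd_eq c N S hS]
    have h9 : (((Equiv.Perm.sign σ : ℤˣ) : ℤ) : ℝ) ^ 2 = 1 := by
      rw [← Int.cast_pow]
      rcases Int.units_eq_one_or (Equiv.Perm.sign σ) with h | h <;> rw [h] <;> norm_num
    rw [h9, one_mul]
  have h5 : ∑ σ : Equiv.Perm (Fin N), G (e ∘ σ) ≤ ∑ I, G I := by
    have hinj : Function.Injective fun σ : Equiv.Perm (Fin N) => e ∘ σ := fun σ τ h => by
      refine Equiv.ext fun a => he ?_
      exact congrFun h a
    have h6 : ∑ σ : Equiv.Perm (Fin N), G (e ∘ σ) =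
        ∑ I ∈ Finset.univ.map ⟨_, hinj⟩, G I := by
      rw [Finset.sum_map]
      rfl
    rw [h6]
    exact Finset.sum_le_sum_of_subset_of_nonneg (Finset.subset_univ _) fun I _ _ => hG I
  rw [Finset.sum_congr rfl fun σ _ => h4 σ, Finset.sum_const, Finset.card_univ,
    Fintype.card_perm, nsmul_eq_mul] at h5
  have h6 : ((Fintype.card (Fin N)).factorial : ℝ) * ((∏ a ∈ S, wcl c A a) * vd c S ^ 2) ≤
      ((Fintype.card (Fin N)).factorial : ℝ) * _ := h5.trans (le_of_eq h1.symm)
  exact le_of_mul_le_mul_left h6 (by positivity)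

end

end Pool.Agent.N334.W.CLp

namespace Pool.Agent.N334.W

open CLp

theorem CL_of (h1 : S_CL1) (h2 : S_CL2) : S_CL := by
  intro c A N S hA hc hS
  have hw : ∀ t, 0 ≤ wcl c A t := fun t => by
    unfold wcl
    positivity
  have hlim : ∀ i j : Fin N, Tendsto (fun T : ℕ => ∑ t ∈ Finset.range T,
      wcl c A t * (PP c A i).eval (nx c t) * (PP c A j).eval (nx c t)) atTop
      (𝓝 ((((A + i.1 - 1).factorial : ℝ) / ((c - A - i.1 - 1).factorial : ℝ)) *
        (1 / ((c : ℝ) - 2 * A - i.1 - j.1)) *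
        (((A + j.1 - 1).factorial : ℝ) / ((c - A - j.1 - 1).factorial : ℝ)))) := by
    intro i j
    have hi := i.2
    have hj := j.2
    have h3 := (h1 c (A + i.1) (A + j.1) (by omega) (by omega) (by omega)).tendsto_sum_nat
    have e1 : c - (A + i.1) - 1 = c - A - i.1 - 1 := by omega
    have e2 : c - (A + j.1) - 1 = c - A - j.1 - 1 := by omega
    rw [e1, e2] at h3
    have e3 : (((A + i.1 - 1).factorial : ℝ) / ((c - A - i.1 - 1).factorial : ℝ)) *
        (1 / ((c : ℝ) - 2 * A - i.1 - j.1)) *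
        (((A + j.1 - 1).factorial : ℝ) / ((c - A - j.1 - 1).factorial : ℝ)) =
        ((A + i.1 - 1).factorial : ℝ) * ((A + j.1 - 1).factorial : ℝ) /
      (((c - A - i.1 - 1).factorial : ℝ) * ((c - A - j.1 - 1).factorial : ℝ) *
        ((c : ℝ) - ((A + i.1 : ℕ) : ℝ) - ((A + j.1 : ℕ) : ℝ))) := by
      have e4 : (c : ℝ) - ((A + i.1 : ℕ) : ℝ) - ((A + j.1 : ℕ) : ℝ) = (c : ℝ) - 2 * A - i.1 - j.1 := by
        push_cast
        ring
      rw [e4, div_mul_div_comm, div_mul_div_comm, mul_one]
      congr 1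
      ring
    rw [e3]
    refine h3.congr fun T => Finset.sum_congr rfl fun t _ => ?_
    exact (term c A i.1 j.1 t hA (by omega) (by omega) (by omega)).symm
  have hdet : Tendsto (fun T : ℕ => (Matrix.of fun i j : Fin N => ∑ t ∈ Finset.range T,
      wcl c A t * (PP c A i).eval (nx c t) * (PP c A j).eval (nx c t)).det) atTop
      (𝓝 (Matrix.of fun i j : Fin N =>
        (((A + i.1 - 1).factorial : ℝ) / ((c - A - i.1 - 1).factorial : ℝ)) *
        (1 / ((c : ℝ) - 2 * A - i.1 - j.1)) *
        (((A + j.1 - 1).factorial : ℝ) / ((c - A - j.1 - 1).factorial : ℝ))).det) := by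
    have h3 : Continuous fun M : Matrix (Fin N) (Fin N) ℝ => M.det := continuous_id.matrix_det
    refine (h3.tendsto _).comp ?_
    refine tendsto_pi_nhds.2 fun i => tendsto_pi_nhds.2 fun j => ?_
    exact hlim i j
  have hD : (Matrix.of fun i j : Fin N =>
        (((A + i.1 - 1).factorial : ℝ) / ((c - A - i.1 - 1).factorial : ℝ)) *
        (1 / ((c : ℝ) - 2 * A - i.1 - j.1)) *
        (((A + j.1 - 1).factorial : ℝ) / ((c - A - j.1 - 1).factorial : ℝ))).det = Dcl c A N := by
    have h3 : (Matrix.of fun i j : Fin N =>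
        (((A + i.1 - 1).factorial : ℝ) / ((c - A - i.1 - 1).factorial : ℝ)) *
        (1 / ((c : ℝ) - 2 * A - i.1 - j.1)) *
        (((A + j.1 - 1).factorial : ℝ) / ((c - A - j.1 - 1).factorial : ℝ))) =
        Matrix.diagonal (fun i : Fin N =>
          ((A + i.1 - 1).factorial : ℝ) / ((c - A - i.1 - 1).factorial : ℝ)) *
        (Matrix.of fun i j : Fin N => 1 / ((c : ℝ) - 2 * A - (i.1 : ℝ) - (j.1 : ℝ))) *
        Matrix.diagonal (fun i : Fin N =>
          ((A + i.1 - 1).factorial : ℝ) / ((c - A - i.1 - 1).factorial : ℝ)) := by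
      ext i j
      rw [Matrix.mul_diagonal, Matrix.diagonal_mul]
      rfl
    have hcN : 2 * (N : ℝ) - 2 < (c : ℝ) - 2 * A := by
      have h4 : 2 * N + 2 * A < c + 2 := by omega
      have h5 : (2 : ℝ) * N + 2 * A < c + 2 := by exact_mod_cast h4
      linarith
    rw [h3, Matrix.det_mul, Matrix.det_mul, Matrix.det_diagonal, h2 N _ hcN]
    unfold Dcl
    rw [← Fin.prod_univ_eq_prod_range (fun i : ℕ =>
      (((A + i - 1).factorial : ℝ) / ((c - A - i - 1).factorial : ℝ)) ^ 2 *
      ((i.factorial : ℝ) ^ 2 / ∏ j ∈ Finset.range N, ((c : ℝ) - 2 * A - i - j))),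
      ← Fin.prod_univ_eq_prod_range (fun i : ℕ =>
      ((i.factorial : ℝ) ^ 2 / ∏ j ∈ Finset.range N, ((c : ℝ) - 2 * A - i - j))),
      ← Finset.prod_mul_distrib, ← Finset.prod_mul_distrib]
    exact Finset.prod_congr rfl fun i _ => by ring
  rw [← hD]
  refine ge_of_tendsto hdet ?_
  obtain ⟨T₀, hT₀⟩ := S.bddAbove
  filter_upwards [eventually_gt_atTop T₀] with T hT
  exact trunc c A N S hS T (fun a ha => lt_of_le_of_lt (hT₀ ha) hT) hw

end Pool.Agent.N334.W

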