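import Pool.Agent.N334.W.Stm

/-!
# A telescoping sum (helper317)
-/

open Filter Topology

namespace Pool.Agent.N334.W

noncomputable section

/-- the telescoping term -/
def clT (c a₁ a₂ t : ℕ) : ℝ := ((t + a₁ - 1).factorial : ℝ) * ((t + a₂ - 1).factorial : ℝ) /
  (((t + c - a₁ - 1).factorial : ℝ) * ((t + c - a₂ - 1).factorial : ℝ))

theorem clT_step {c a₁ a₂ : ℕ} (h1 : 1 ≤ a₁) (h2 : 1 ≤ a₂) (h3 : a₁ + a₂ < c) (t : ℕ) :
    clT c a₁ a₂ t - clT c a₁ a₂ (t + 1) = ((c : ℝ) - a₁ - a₂) *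
      ((2 * (t : ℝ) + c) * ((t + a₁ - 1).factorial : ℝ) * ((t + a₂ - 1).factorial : ℝ) /
      (((t + c - a₁).factorial : ℝ) * ((t + c - a₂).factorial : ℝ))) := by
  obtain ⟨b₁, rfl⟩ := Nat.exists_eq_add_of_le' h1
  obtain ⟨b₂, rfl⟩ := Nat.exists_eq_add_of_le' h2
  obtain ⟨e, he⟩ : ∃ e, c = b₁ + b₂ + e + 3 := ⟨c - (b₁ + b₂ + 3), by omega⟩
  subst he
  unfold clT
  have e1 : t + (b₁ + 1) - 1 = t + b₁ := by omega
  have e2 : t + (b₂ + 1) - 1 = t + b₂ := by omega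
  have e3 : t + (b₁ + b₂ + e + 3) - (b₁ + 1) - 1 = t + b₂ + e + 1 := by omega
  have e4 : t + (b₁ + b₂ + e + 3) - (b₂ + 1) - 1 = t + b₁ + e + 1 := by omega
  have e5 : t + 1 + (b₁ + 1) - 1 = (t + b₁) + 1 := by omega
  have e6 : t + 1 + (b₂ + 1) - 1 = (t + b₂) + 1 := by omega
  have e7 : t + 1 + (b₁ + b₂ + e + 3) - (b₁ + 1) - 1 = (t + b₂ + e + 1) + 1 := by omega
  have e8 : t + 1 + (b₁ + b₂ + e + 3) - (b₂ + 1) - 1 = (t + b₁ + e + 1) + 1 := by omega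
  have e9 : t + (b₁ + b₂ + e + 3) - (b₁ + 1) = (t + b₂ + e + 1) + 1 := by omega
  have e10 : t + (b₁ + b₂ + e + 3) - (b₂ + 1) = (t + b₁ + e + 1) + 1 := by omega
  rw [e1, e2, e3, e4, e5, e6, e7, e8, e9, e10]
  rw [Nat.factorial_succ (t + b₁), Nat.factorial_succ (t + b₂),
    Nat.factorial_succ (t + b₂ + e + 1), Nat.factorial_succ (t + b₁ + e + 1)]
  have p1 : ((t + b₁).factorial : ℝ) ≠ 0 := by positivity
  have p2 : ((t + b₂).factorial : ℝ) ≠ 0 := by positivity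
  have p3 : ((t + b₂ + e + 1).factorial : ℝ) ≠ 0 := by positivity
  have p4 : ((t + b₁ + e + 1).factorial : ℝ) ≠ 0 := by positivity
  push_cast
  have q1 : ((t : ℝ) + b₂ + e + 1 + 1) ≠ 0 := by positivity
  have q2 : ((t : ℝ) + b₁ + e + 1 + 1) ≠ 0 := by positivity
  field_simp
  ring

theorem clT_nonneg (c a₁ a₂ t : ℕ) : 0 ≤ clT c a₁ a₂ t := by
  unfold clT
  positivity

theorem clT_le {c a₁ a₂ : ℕ} (h1 : 1 ≤ a₁) (h2 : 1 ≤ a₂) (h3 : a₁ + a₂ < c) (t : ℕ) :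
    clT c a₁ a₂ t ≤ 1 / ((t : ℝ) + 1) := by
  unfold clT
  have k1 : (t + a₁ - 1).factorial * (t + 1) ≤ (t + c - a₂ - 1).factorial := by
    calc (t + a₁ - 1).factorial * (t + 1) ≤ (t + a₁ - 1).factorial * (t + a₁ - 1 + 1) :=
          Nat.mul_le_mul_left _ (by omega)
      _ = (t + a₁ - 1 + 1).factorial := by rw [Nat.factorial_succ, mul_comm]
      _ ≤ _ := Nat.factorial_le (by omega)
  have k2 : (t + a₂ - 1).factorial ≤ (t + c - a₁ - 1).factorial := Nat.factorial_le (by omega)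
  have k1' : ((t + a₁ - 1).factorial : ℝ) * ((t : ℝ) + 1) ≤ ((t + c - a₂ - 1).factorial : ℝ) := by
    exact_mod_cast k1
  have k2' : ((t + a₂ - 1).factorial : ℝ) ≤ ((t + c - a₁ - 1).factorial : ℝ) := by
    exact_mod_cast k2
  rw [div_le_div_iff₀ (by positivity) (by positivity), one_mul]
  calc ((t + a₁ - 1).factorial : ℝ) * ((t + a₂ - 1).factorial : ℝ) * ((t : ℝ) + 1) =
        ((t + a₂ - 1).factorial : ℝ) * (((t + a₁ - 1).factorial : ℝ) * ((t : ℝ) + 1)) := by ring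
    _ ≤ ((t + c - a₁ - 1).factorial : ℝ) * ((t + c - a₂ - 1).factorial : ℝ) :=
        mul_le_mul k2' k1' (by positivity) (by positivity)

/-- **CL1** -/
theorem CL1 : S_CL1 := by
  intro c a₁ a₂ h1 h2 h3
  have hD : (0 : ℝ) < (c : ℝ) - a₁ - a₂ := by
    have : ((a₁ + a₂ : ℕ) : ℝ) < c := by exact_mod_cast h3
    push_cast at this
    linarith
  rw [hasSum_iff_tendsto_nat_of_nonneg (fun t => by positivity)]
  have hsum : ∀ n : ℕ, ∑ t ∈ Finset.range n,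
      (2 * (t : ℝ) + c) * ((t + a₁ - 1).factorial : ℝ) * ((t + a₂ - 1).factorial : ℝ) /
      (((t + c - a₁).factorial : ℝ) * ((t + c - a₂).factorial : ℝ)) =
      (clT c a₁ a₂ 0 - clT c a₁ a₂ n) / ((c : ℝ) - a₁ - a₂) := by
    intro n
    induction n with
    | zero => simp
    | succ n ih =>
      rw [Finset.sum_range_succ, ih]
      have h := clT_step h1 h2 h3 n
      rw [eq_div_iff hD.ne', add_mul, div_mul_cancel₀ _ hD.ne']
      linarith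
  simp_rw [hsum]
  have h0 : clT c a₁ a₂ 0 / ((c : ℝ) - a₁ - a₂) =
      ((a₁ - 1).factorial : ℝ) * ((a₂ - 1).factorial : ℝ) /
      (((c - a₁ - 1).factorial : ℝ) * ((c - a₂ - 1).factorial : ℝ) * ((c : ℝ) - a₁ - a₂)) := by
    unfold clT
    rw [zero_add, zero_add, zero_add, div_div]
  rw [← h0]
  have hT : Tendsto (clT c a₁ a₂) atTop (𝓝 0) :=
    squeeze_zero (clT_nonneg c a₁ a₂) (clT_le h1 h2 h3) tendsto_one_div_add_atTop_nhds_zero_nat
  have := (tendsto_const_nhds (x := clT c a₁ a₂ 0)).sub hT |>.div_const ((c : ℝ) - a₁ - a₂)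
  rwa [sub_zero] at this

end

end Pool.Agent.N334.W
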