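import Pool.Agent.N334.W.Stm

/-!
# Project WD, task CL2 (helper456): a Cauchy determinant
-/

namespace Pool.Agent.N334.W

namespace CL2_

open Matrix

/-- one step of the elimination for a Cauchy matrix -/
lemma cauchy_step (n : ℕ) (x y : Fin (n + 1) → ℝ) (h : ∀ i j, x i + y j ≠ 0) :
    (Matrix.of fun i j => 1 / (x i + y j)).det =
      (∏ i, 1 / (x i + y 0)) * (∏ j : Fin n, (y 0 - y j.succ)) *
        ((∏ i : Fin n, (x 0 - x i.succ)) * (∏ j : Fin n, 1 / (x 0 + y j.succ))) *
        (Matrix.of fun i j : Fin n => 1 / (x i.succ + y j.succ)).det := by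
  -- columns
  have e1 : (Matrix.of fun i j => 1 / (x i + y j)).det =
      (Matrix.of fun i j : Fin (n + 1) =>
        if j = 0 then 1 / (x i + y 0) else 1 / (x i + y j) - 1 / (x i + y 0)).det := by
    rw [← Matrix.det_transpose, ← Matrix.det_transpose (Matrix.of fun i j : Fin (n + 1) =>
        if j = 0 then 1 / (x i + y 0) else 1 / (x i + y j) - 1 / (x i + y 0))]
    refine Matrix.det_eq_of_forall_row_eq_smul_add_const
      (fun j : Fin (n + 1) => if j = 0 then (0 : ℝ) else 1) 0 (by simp) ?_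
    intro j i
    simp only [Matrix.of_apply, Matrix.transpose_apply]
    by_cases hj : j = 0
    · subst hj; simp
    · simp [hj]
  have e2 : (Matrix.of fun i j : Fin (n + 1) =>
        if j = 0 then 1 / (x i + y 0) else 1 / (x i + y j) - 1 / (x i + y 0)) =
      Matrix.of fun i j : Fin (n + 1) => (if j = 0 then 1 else y 0 - y j) *
        (Matrix.of fun i j : Fin (n + 1) => 1 / (x i + y 0) *
          (Matrix.of fun i j : Fin (n + 1) => if j = 0 then 1 else 1 / (x i + y j)) i j) i j := by
    ext i j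
    simp only [Matrix.of_apply]
    by_cases hj : j = 0
    · simp [hj]
    · simp only [hj, if_false]
      have h1 := h i j
      have h2 := h i 0
      field_simp
      ring
  rw [e1, e2, Matrix.det_mul_row, Matrix.det_mul_column]
  have e3 : (Matrix.of fun i j : Fin (n + 1) => if j = 0 then (1 : ℝ) else 1 / (x i + y j)).det =
      (Matrix.of fun i j : Fin (n + 1) =>
        if i = 0 then (if j = 0 then (1 : ℝ) else 1 / (x 0 + y j)) else
          (if j = 0 then (0 : ℝ) else 1 / (x i + y j) - 1 / (x 0 + y j))).det := by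
    refine Matrix.det_eq_of_forall_row_eq_smul_add_const
      (fun i : Fin (n + 1) => if i = 0 then (0 : ℝ) else 1) 0 (by simp) ?_
    intro i j
    simp only [Matrix.of_apply]
    by_cases hi : i = 0
    · subst hi; simp
    · by_cases hj : j = 0
      · simp [hi, hj]
      · simp [hi, hj]
  rw [e3, Matrix.det_succ_column_zero, Fin.sum_univ_succ]
  simp only [Matrix.of_apply, Fin.succ_ne_zero, if_true, if_false, mul_zero, zero_mul,
    Finset.sum_const_zero, add_zero, Fin.val_zero, pow_zero, one_mul]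
  have e4 : (Matrix.of fun i j : Fin (n + 1) =>
        if i = 0 then (if j = 0 then (1 : ℝ) else 1 / (x 0 + y j)) else
          (if j = 0 then (0 : ℝ) else 1 / (x i + y j) - 1 / (x 0 + y j))).submatrix
            (Fin.succAbove 0) Fin.succ =
      Matrix.of fun i j : Fin n => (1 / (x 0 + y j.succ)) *
        (Matrix.of fun i j : Fin n => (x 0 - x i.succ) *
          (Matrix.of fun i j : Fin n => 1 / (x i.succ + y j.succ)) i j) i j := by
    ext i j
    simp only [Matrix.of_apply, Matrix.submatrix_apply, Fin.zero_succAbove, Fin.succ_ne_zero,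
      if_false]
    have h1 := h i.succ j.succ
    have h2 := h 0 j.succ
    field_simp
    ring
  rw [e4, Matrix.det_mul_row, Matrix.det_mul_column, Fin.prod_univ_succ
    (f := fun j : Fin (n + 1) => if j = 0 then (1 : ℝ) else y 0 - y j)]
  simp only [if_true, one_mul, Fin.succ_ne_zero, if_false]
  ring

lemma prod_inv (N : ℕ) (f : ℕ → ℝ) :
    ∏ i : Fin N, 1 / f i.1 = 1 / ∏ i ∈ Finset.range N, f i := by
  rw [Fin.prod_univ_eq_prod_range (fun i => 1 / f i), Finset.prod_div_distrib,
    Finset.prod_const_one]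

lemma main (N : ℕ) : ∀ C : ℝ, 2 * (N : ℝ) - 2 < C →
    (Matrix.of fun i j : Fin N => 1 / (C - (i.1 : ℝ) - (j.1 : ℝ))).det =
      ∏ i ∈ Finset.range N, ((i.factorial : ℝ) ^ 2 / ∏ j ∈ Finset.range N, (C - i - j)) := by
  induction N with
  | zero => intro C _; simp
  | succ N ih =>
    intro C hC
    push_cast at hC
    have hne : ∀ i j : Fin (N + 1), (C - (i.1 : ℝ)) + (-(j.1 : ℝ)) ≠ 0 := by
      intro i j
      have h1 : (i.1 : ℝ) ≤ N := by exact_mod_cast Nat.lt_succ_iff.mp i.2
      have h2 : (j.1 : ℝ) ≤ N := by exact_mod_cast Nat.lt_succ_iff.mp j.2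
      have : 0 < (C - (i.1 : ℝ)) + (-(j.1 : ℝ)) := by linarith
      exact this.ne'
    have key := cauchy_step N (fun i => C - (i.1 : ℝ)) (fun j => -(j.1 : ℝ)) hne
    have e0 : (Matrix.of fun i j : Fin (N + 1) => 1 / (C - (i.1 : ℝ) - (j.1 : ℝ))) =
        Matrix.of fun i j : Fin (N + 1) => 1 / ((C - (i.1 : ℝ)) + (-(j.1 : ℝ))) := by
      ext i j
      simp only [Matrix.of_apply, sub_eq_add_neg]
    rw [e0, key]
    have e1 : (Matrix.of fun i j : Fin N =>
        1 / ((C - ((i.succ : Fin (N + 1)).1 : ℝ)) + (-((j.succ : Fin (N + 1)).1 : ℝ)))) =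
        Matrix.of fun i j : Fin N => 1 / ((C - 2) - (i.1 : ℝ) - (j.1 : ℝ)) := by
      ext i j
      simp only [Matrix.of_apply, Fin.val_succ]
      push_cast
      congr 1
      ring
    rw [e1, ih (C - 2) (by linarith)]
    set S : ℝ := ∏ i ∈ Finset.range N, (C - ((i : ℝ) + 1)) with hS
    set Q : ℝ := ∏ i ∈ Finset.range N, ∏ j ∈ Finset.range N, (C - 2 - (i : ℝ) - j) with hQ
    have hS0 : S ≠ 0 := by
      refine Finset.prod_ne_zero_iff.mpr fun i hi => ?_
      rw [Finset.mem_range] at hi
      have h1 : (i : ℝ) + 1 ≤ N := by exact_mod_cast hi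
      have h2 : (0 : ℝ) ≤ N := Nat.cast_nonneg _
      have : 0 < C - ((i : ℝ) + 1) := by linarith
      exact this.ne'
    have hC0 : C ≠ 0 := by
      have h2 : (0 : ℝ) ≤ N := Nat.cast_nonneg _
      have : 0 < C := by linarith
      exact this.ne'
    have f1 : ∏ i : Fin (N + 1), 1 / (C - (i.1 : ℝ) + -(((0 : Fin (N + 1)).1 : ℕ) : ℝ)) =
        1 / (S * C) := by
      simp only [Fin.val_zero, Nat.cast_zero, neg_zero, add_zero]
      rw [prod_inv (N + 1) (fun i => C - (i : ℝ)), Finset.prod_range_succ']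
      simp only [Nat.cast_zero, sub_zero, Nat.cast_add, Nat.cast_one]
      rfl
    have f2 : ∏ j : Fin N, (-(((0 : Fin (N + 1)).1 : ℕ) : ℝ) - -((j.succ : Fin (N + 1)).1 : ℝ)) =
        (N.factorial : ℝ) := by
      simp only [Fin.val_zero, Nat.cast_zero, neg_zero, Fin.val_succ, sub_neg_eq_add, zero_add]
      rw [Fin.prod_univ_eq_prod_range (fun j => ((j + 1 : ℕ) : ℝ)), ← Nat.cast_prod,
        Finset.prod_range_add_one_eq_factorial]
    have f3 : ∏ i : Fin N, (C - (((0 : Fin (N + 1)).1 : ℕ) : ℝ) -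
        (C - ((i.succ : Fin (N + 1)).1 : ℝ))) = (N.factorial : ℝ) := by
      simp only [Fin.val_zero, Nat.cast_zero, sub_zero, Fin.val_succ, sub_sub_cancel]
      rw [Fin.prod_univ_eq_prod_range (fun j => ((j + 1 : ℕ) : ℝ)), ← Nat.cast_prod,
        Finset.prod_range_add_one_eq_factorial]
    have f4 : ∏ j : Fin N, 1 / (C - (((0 : Fin (N + 1)).1 : ℕ) : ℝ) +
        -((j.succ : Fin (N + 1)).1 : ℝ)) = 1 / S := by
      simp only [Fin.val_zero, Nat.cast_zero, sub_zero, Fin.val_succ, ← sub_eq_add_neg]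
      rw [prod_inv N (fun j => C - ((j + 1 : ℕ) : ℝ))]
      simp only [Nat.cast_add, Nat.cast_one]
      rfl
    rw [f1, f2, f3, f4]
    rw [Finset.prod_div_distrib, Finset.prod_div_distrib, ← hQ, Finset.prod_range_succ]
    have g : ∏ i ∈ Finset.range (N + 1), ∏ j ∈ Finset.range (N + 1), (C - (i : ℝ) - j) =
        Q * S * (S * C) := by
      rw [Finset.prod_range_succ']
      simp only [Finset.prod_range_succ', Nat.cast_zero, sub_zero, Nat.cast_add, Nat.cast_one]
      rw [Finset.prod_mul_distrib]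
      congr 2
      refine Finset.prod_congr rfl fun i _ => Finset.prod_congr rfl fun j _ => ?_
      ring
    rw [g]
    by_cases hQ0 : Q = 0
    · rw [hQ0]; simp
    · field_simp

end CL2_

theorem CL2 : S_CL2 := fun N C hC => CL2_.main N C hC

end Pool.Agent.N334.W
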