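import Pool.Agent.N334.W.Stm

/-!
# Domination of the weight by the classical weight
-/

set_option autoImplicit false

open Finset

namespace Pool.Agent.N334.W

/-- symmetric products -/
noncomputable def domQ (c : ℕ) (t : ℝ) (m : ℕ) : ℝ := ∏ k ∈ Finset.Icc (c - m) (c + m), (t + (k : ℝ))

theorem domQ_zero (c : ℕ) (t : ℝ) : domQ c t 0 = t + c := by
  unfold domQ
  simp

theorem domQ_succ (c : ℕ) (t : ℝ) (m : ℕ) (hm : m + 1 ≤ c) :
    domQ c t (m + 1) = domQ c t m * ((t + c - (m + 1)) * (t + c + (m + 1))) := by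
  unfold domQ
  have h1 : Finset.Icc (c - (m + 1)) (c + (m + 1)) =
      insert (c - (m + 1)) (insert (c + (m + 1)) (Finset.Icc (c - m) (c + m))) := by
    ext k
    simp only [Finset.mem_Icc, Finset.mem_insert]
    omega
  rw [h1, Finset.prod_insert, Finset.prod_insert]
  · rw [Nat.cast_sub hm]
    push_cast
    ring
  · simp only [Finset.mem_Icc]
    omega
  · simp only [Finset.mem_Icc, Finset.mem_insert]
    omega

theorem domQ_pos (c : ℕ) (t : ℝ) (ht : 0 ≤ t) (m : ℕ) (hm : m < c) : 0 < domQ c t m := by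
  unfold domQ
  refine Finset.prod_pos fun k hk => ?_
  rw [Finset.mem_Icc] at hk
  have : (1 : ℝ) ≤ k := by exact_mod_cast (show 1 ≤ k by omega)
  linarith

/-- lower bound -/
theorem domQ_ge (c n : ℕ) (t : ℝ) (ht : 0 ≤ t) (hn : n ≤ c) (hc : 1 ≤ c) (m : ℕ) (hm : m ≤ n) :
    ((t + c - n) * (t + c + n)) ^ m ≤ domQ c t m := by
  have hnR : (n : ℝ) ≤ c := by exact_mod_cast hn
  have hn0 : (0 : ℝ) ≤ n := by positivity
  have hcR : (1 : ℝ) ≤ c := by exact_mod_cast hc
  induction m with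
  | zero =>
    rw [domQ_zero, pow_zero]
    linarith
  | succ m ih =>
    rw [domQ_succ c t m (by omega), pow_succ]
    have h1 : ((m : ℝ) + 1) ≤ n := by exact_mod_cast hm
    have h3 : (0 : ℝ) ≤ m := by positivity
    have h2 : (t + c - n) * (t + c + n) ≤ (t + c - (m + 1)) * (t + c + (m + 1)) := by nlinarith
    have h4 : 0 ≤ (t + c - n) * (t + c + n) := mul_nonneg (by linarith) (by linarith)
    exact mul_le_mul (ih (by omega)) h2 h4
      (le_trans (pow_nonneg h4 _) (ih (by omega)))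

/-- upper bound -/
theorem domQ_le (c n : ℕ) (t : ℝ) (ht : 0 ≤ t) (hc : 1 ≤ c) (j : ℕ) (hj : n + j < c) :
    domQ c t (n + j) ≤ domQ c t n * ((t + c - n) * (t + c + n)) ^ j := by
  have hn0 : (0 : ℝ) ≤ n := by positivity
  have hcR : (1 : ℝ) ≤ c := by exact_mod_cast hc
  induction j with
  | zero => simp
  | succ j ih =>
    have h0 := ih (by omega)
    rw [← add_assoc, domQ_succ c t (n + j) (by omega), pow_succ,
      ← mul_assoc (domQ c t n) (_ ^ j)]
    have h1 : (n : ℝ) + j + 1 ≤ c := by exact_mod_cast (show n + j + 1 ≤ c by omega)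
    have h3 : (0 : ℝ) ≤ j := by positivity
    have h2 : (t + c - (((n + j : ℕ) : ℝ) + 1)) * (t + c + (((n + j : ℕ) : ℝ) + 1)) ≤
        (t + c - n) * (t + c + n) := by
      push_cast
      nlinarith
    have h4 : 0 ≤ (t + c - (((n + j : ℕ) : ℝ) + 1)) * (t + c + (((n + j : ℕ) : ℝ) + 1)) := by
      push_cast
      exact mul_nonneg (by linarith) (by linarith)
    exact mul_le_mul h0 h2 h4 (le_trans (domQ_pos c t ht (n + j) (by omega)).le h0)

/-- comparison of the products over the two intervals -/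
theorem dom_key (ν : ℕ) (hν : 2 ≤ ν) (t : ℝ) (ht : 0 ≤ t) :
    (domQ (20 * ν) t (13 * ν - 5)) ^ 10 * (t + 10 * ν) ^ 100 ≤ (domQ (20 * ν) t (10 * ν)) ^ 13 := by
  have hνR : (2 : ℝ) ≤ ν := by exact_mod_cast hν
  have h1 := domQ_ge (20 * ν) (10 * ν) t ht (by omega) (by omega) (10 * ν) le_rfl
  have h2 := domQ_le (20 * ν) (10 * ν) t ht (by omega) (3 * ν - 5) (by omega)
  have h3 : 10 * ν + (3 * ν - 5) = 13 * ν - 5 := by omega
  rw [h3] at h2
  obtain ⟨G, hG⟩ : ∃ G : ℝ, G = (t + ((20 * ν : ℕ) : ℝ) - ((10 * ν : ℕ) : ℝ)) *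
    (t + ((20 * ν : ℕ) : ℝ) + ((10 * ν : ℕ) : ℝ)) := ⟨_, rfl⟩
  rw [← hG] at h1 h2
  have hG2 : (t + 10 * ν) ^ 2 ≤ G := by
    rw [hG]
    push_cast
    nlinarith
  have hy : 0 ≤ t + 10 * (ν : ℝ) := by positivity
  have hG0 : 0 ≤ G := le_trans (by positivity) hG2
  have hO := (domQ_pos (20 * ν) t ht (13 * ν - 5) (by omega)).le
  have hP := (domQ_pos (20 * ν) t ht (10 * ν) (by omega)).le
  calc (domQ (20 * ν) t (13 * ν - 5)) ^ 10 * (t + 10 * ν) ^ 100 ≤
        (domQ (20 * ν) t (10 * ν) * G ^ (3 * ν - 5)) ^ 10 * G ^ 50 := by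
        refine mul_le_mul (pow_le_pow_left₀ hO h2 _) ?_ (by positivity) (by positivity)
        calc (t + 10 * (ν : ℝ)) ^ 100 = ((t + 10 * ν) ^ 2) ^ 50 := by rw [← pow_mul]
          _ ≤ G ^ 50 := pow_le_pow_left₀ (by positivity) hG2 _
    _ = (domQ (20 * ν) t (10 * ν)) ^ 10 * (G ^ (10 * ν)) ^ 3 := by
        rw [mul_pow, ← pow_mul, ← pow_mul, mul_assoc, ← pow_add]
        congr 2
        omega
    _ ≤ (domQ (20 * ν) t (10 * ν)) ^ 10 * (domQ (20 * ν) t (10 * ν)) ^ 3 := by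
        gcongr
    _ = _ := by rw [← pow_add]

theorem dom_fact (a : ℕ) (m : ℕ) :
    a.factorial * ∏ k ∈ Finset.Icc (a + 1) (a + m), k = (a + m).factorial := by
  induction m with
  | zero =>
    rw [add_zero, Finset.Icc_eq_empty (by omega), Finset.prod_empty, mul_one]
  | succ m ih =>
    rw [← add_assoc, Finset.prod_Icc_succ_top (by omega), ← mul_assoc, ih, Nat.factorial_succ,
      mul_comm]

theorem DOM : S_DOM := by
  intro s h K hs hh hK
  refine ⟨K ^ 5 * 4 ^ (30 * s + 15), by positivity, fun ν t hν => ?_⟩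
  have hνR : (2 : ℝ) ≤ ν := by exact_mod_cast hν
  have ht0 : (0 : ℝ) ≤ t := by positivity
  obtain ⟨P, hP⟩ : ∃ P, P = domQ (20 * ν) t (10 * ν) := ⟨_, rfl⟩
  obtain ⟨O, hO⟩ : ∃ O, O = domQ (20 * ν) t (13 * ν - 5) := ⟨_, rfl⟩
  obtain ⟨y, hy⟩ : ∃ y : ℝ, y = t + 10 * ν := ⟨_, rfl⟩
  obtain ⟨F, hF⟩ : ∃ F : ℝ, F = ((20 * ν).factorial : ℝ) := ⟨_, rfl⟩
  have hF0 : 0 < F := by
    rw [hF]
    positivity
  have hP0 : 0 < P := by
    rw [hP]
    exact domQ_pos _ _ ht0 _ (by omega)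
  have hO0 : 0 < O := by
    rw [hO]
    exact domQ_pos _ _ ht0 _ (by omega)
  have hy1 : 1 ≤ y := by
    rw [hy]
    linarith
  have hkey : O ^ 10 * y ^ 100 ≤ P ^ 13 := by
    rw [hO, hy, hP]
    exact dom_key ν hν t ht0
  have hRt : Rt h (10 * ν) t = (F / P) ^ h * (2 * t + 40 * ν) := by
    unfold Rt
    have e1 : ∏ k ∈ Finset.Icc (10 * ν) (3 * (10 * ν)), ((t : ℝ) + k) = P := by
      rw [hP]
      unfold domQ
      congr 2 <;> omega
    rw [e1, hF, show 2 * (10 * ν) = 20 * ν by omega, div_pow]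
    push_cast
    ring
  have hw : wcl (40 * ν) (7 * ν + 5) t = (2 * t + 40 * ν) / O ^ 2 := by
    unfold wcl
    have e1 : ∏ k ∈ Finset.Icc (7 * ν + 5) (40 * ν - (7 * ν + 5)), ((t : ℝ) + k) = O := by
      rw [hO]
      unfold domQ
      congr 2 <;> omega
    rw [e1]
    push_cast
    ring
  have hr : F / P ≤ r0 (10 * ν) := by
    unfold r0
    have e1 : ((10 * ν - 1).factorial : ℝ) * ∏ k ∈ Finset.Icc (10 * ν) (30 * ν), (k : ℝ) =
        ((30 * ν).factorial : ℝ) := by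
      have e2 : (10 * ν - 1).factorial * ∏ k ∈ Finset.Icc (10 * ν) (30 * ν), k =
          (30 * ν).factorial := by
        have e8 := dom_fact (10 * ν - 1) (20 * ν + 1)
        rwa [show 10 * ν - 1 + 1 = 10 * ν by omega, show 10 * ν - 1 + (20 * ν + 1) = 30 * ν by omega]
          at e8
      rw [← e2]
      push_cast
      rfl
    have e3 : ∏ k ∈ Finset.Icc (10 * ν) (30 * ν), (k : ℝ) ≤ P := by
      rw [hP]
      unfold domQ
      rw [show 20 * ν - 10 * ν = 10 * ν by omega, show 20 * ν + 10 * ν = 30 * ν by omega]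
      exact Finset.prod_le_prod (fun k _ => by positivity) fun k _ => by linarith
    have e4 : (0 : ℝ) < ∏ k ∈ Finset.Icc (10 * ν) (30 * ν), (k : ℝ) := by
      refine Finset.prod_pos fun k hk => ?_
      rw [Finset.mem_Icc] at hk
      exact_mod_cast (show 0 < k by omega)
    rw [show 3 * (10 * ν) = 30 * ν by omega, ← e1, hF, show 2 * (10 * ν) = 20 * ν by omega,
      mul_comm ((20 * ν).factorial : ℝ) ((10 * ν - 1).factorial : ℝ),
      mul_div_mul_left _ _ (by positivity)]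
    exact div_le_div_of_nonneg_left (by positivity) e4 e3
  have hq0 : 0 ≤ F / P := by positivity
  have e5 : 5 * h = (5 * h - 13 * s) + 13 * s := by omega
  have h1 : (K * Rt h (10 * ν) t * ((t : ℝ) + 40 * ν) ^ (6 * s + 2)) ^ 5 =
      K ^ 5 * ((F / P) ^ (5 * h - 13 * s) * (F / P) ^ (13 * s)) *
        ((2 * t + 40 * ν) ^ 5 * (t + 40 * ν) ^ (30 * s + 10)) := by
    rw [hRt, ← pow_add, ← e5]
    ring
  have h2 : (2 * (t : ℝ) + 40 * ν) ^ 5 * (t + 40 * ν) ^ (30 * s + 10) ≤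
      4 ^ (30 * s + 15) * y ^ (100 * s) := by
    calc (2 * (t : ℝ) + 40 * ν) ^ 5 * (t + 40 * ν) ^ (30 * s + 10) ≤
          (4 * y) ^ 5 * (4 * y) ^ (30 * s + 10) := by
          gcongr
          · rw [hy]
            linarith
          · rw [hy]
            linarith
      _ = 4 ^ (30 * s + 15) * y ^ (30 * s + 15) := by
          rw [← pow_add, mul_pow]
          congr 2 <;> omega
      _ ≤ 4 ^ (30 * s + 15) * y ^ (100 * s) := by
          gcongr
          omega
  have h3 : (F / P) ^ (13 * s) * y ^ (100 * s) ≤ F ^ (13 * s) * (1 / O ^ 2) ^ (5 * s) := by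
    have e6 : (F / P) ^ (13 * s) * y ^ (100 * s) = (F ^ 13 * (y ^ 100 / P ^ 13)) ^ s := by
      rw [div_pow, mul_pow, div_pow, ← pow_mul, ← pow_mul, ← pow_mul]
      ring
    have e7 : F ^ (13 * s) * (1 / O ^ 2) ^ (5 * s) = (F ^ 13 * (1 / O ^ 10)) ^ s := by
      rw [mul_pow, ← pow_mul, one_div_pow, one_div_pow, ← pow_mul, ← pow_mul]
      congr 3
      ring
    rw [e6, e7]
    refine pow_le_pow_left₀ (by positivity) ?_ _
    refine mul_le_mul_of_nonneg_left ?_ (by positivity)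
    rw [div_le_div_iff₀ (by positivity) (by positivity), one_mul, mul_comm]
    exact hkey
  have h4 : (1 / O ^ 2) ^ (5 * s) ≤ (wcl (40 * ν) (7 * ν + 5) t) ^ (5 * s) := by
    rw [hw]
    refine pow_le_pow_left₀ (by positivity) ?_ _
    refine div_le_div_of_nonneg_right ?_ (by positivity)
    linarith
  have hr0 : 0 ≤ r0 (10 * ν) := hq0.trans hr
  rw [h1, ← hF]
  calc K ^ 5 * ((F / P) ^ (5 * h - 13 * s) * (F / P) ^ (13 * s)) *
        ((2 * t + 40 * ν) ^ 5 * (t + 40 * ν) ^ (30 * s + 10)) ≤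
        K ^ 5 * (r0 (10 * ν) ^ (5 * h - 13 * s) * (F / P) ^ (13 * s)) *
        (4 ^ (30 * s + 15) * y ^ (100 * s)) := by
        gcongr
    _ = K ^ 5 * 4 ^ (30 * s + 15) * r0 (10 * ν) ^ (5 * h - 13 * s) *
        ((F / P) ^ (13 * s) * y ^ (100 * s)) := by ring
    _ ≤ K ^ 5 * 4 ^ (30 * s + 15) * r0 (10 * ν) ^ (5 * h - 13 * s) *
        (F ^ (13 * s) * (wcl (40 * ν) (7 * ν + 5) t) ^ (5 * s)) := by
        refine mul_le_mul_of_nonneg_left (h3.trans ?_) (by positivity)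
        exact mul_le_mul_of_nonneg_left h4 (by positivity)
    _ = _ := by ring

end Pool.Agent.N334.W
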