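import Pool.Agent.H337R2.Sym
import Pool.Agent.H337R2.PAdic

/-!
# Hankel determinants for windows of odd zeta values: definitions

`b` even, `h` even, `R(t) = ((2n)!)^h (2t+4n) / ∏_{k=n}^{3n} (t+k)^h`, `x(t) = t (t+4n)`, and the linear form
`Q ↦ ∑_{t ≥ 0} (1/b!) (d/dt)^b [R(t) Q(x(t))]`.
-/

open Polynomial Pool.Agent.H337R2

namespace Pool.Agent.N334.W

noncomputable section

/-- multiplicity of the poles -/
abbrev mu (h : ℕ) : ℕ → ℕ := fun _ => h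

/-- the poles are at `-k`, `k ∈ [n, 3n]` -/
abbrev sN (n : ℕ) : Finset ℕ := Finset.Icc n (3 * n)

/-- numerator `((2n)!)^h (2t+4n)` of `R` -/
def PN (h n : ℕ) : ℚ[X] := C (((2 * n).factorial : ℚ) ^ h) * (2 * X + C ((4 * n : ℕ) : ℚ))

/-- `x(t) = t (t+4n)` -/
def xp (n : ℕ) : ℚ[X] := X * (X + C ((4 * n : ℕ) : ℚ))

/-- the linear form as a function of the numerator `P`; `u e` stands for `ζ(e)` -/
def xf (b h n : ℕ) (u : ℕ → ℚ) (P : ℚ[X]) : ℚ :=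
  ∑ i ∈ Finset.Icc 1 h, ((Nat.choose (i - 1 + b) (i - 1) : ℕ) : ℚ) *
    ((∑ k ∈ sN n, pa (sN n) (mu h) P k i) * u (i + b) -
      ∑ k ∈ sN n, pa (sN n) (mu h) P k i * hs (i + b) (k - 1))

lemma pa_add (s : Finset ℕ) (μ : ℕ → ℕ) (P Q : ℚ[X]) (k i : ℕ) :
    pa s μ (P + Q) k i = pa s μ P k i + pa s μ Q k i := by
  unfold pa
  split_ifs
  · unfold pfc; rw [map_add, add_mul, map_add]
  · simp

lemma pa_C_mul (s : Finset ℕ) (μ : ℕ → ℕ) (c : ℚ) (P : ℚ[X]) (k i : ℕ) :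
    pa s μ (C c * P) k i = c * pa s μ P k i := by
  unfold pa
  split_ifs
  · unfold pfc; rw [(TS (-(k : ℚ))).map_mul, TS_C, mul_assoc, PowerSeries.coeff_C_mul]
  · simp

/-- `xf` as a linear map of the numerator -/
def xfL (b h n : ℕ) (u : ℕ → ℚ) : ℚ[X] →ₗ[ℚ] ℚ where
  toFun := xf b h n u
  map_add' P Q := by
    unfold xf
    rw [← Finset.sum_add_distrib]
    apply Finset.sum_congr rfl
    intro i _
    simp only [pa_add, add_mul, Finset.sum_add_distrib]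
    ring
  map_smul' c P := by
    rw [Polynomial.smul_eq_C_mul]
    unfold xf
    simp only [pa_C_mul, RingHom.id_apply, smul_eq_mul]
    rw [Finset.mul_sum]
    apply Finset.sum_congr rfl
    intro i _
    rw [← Finset.mul_sum]
    have : ∑ k ∈ sN n, c * pa (sN n) (mu h) P k i * hs (i + b) (k - 1)
        = c * ∑ k ∈ sN n, pa (sN n) (mu h) P k i * hs (i + b) (k - 1) := by
      rw [Finset.mul_sum]
      apply Finset.sum_congr rfl
      intro k _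
      ring
    rw [this]
    ring

/-- the functional `Q ↦ N(Q)` -/
def NL (b h n : ℕ) (u : ℕ → ℚ) : ℚ[X] →ₗ[ℚ] ℚ where
  toFun Q := xfL b h n u (PN h n * Q.comp (xp n))
  map_add' P Q := by
    rw [← map_add]
    congr 1
    rw [Polynomial.add_comp, mul_add]
  map_smul' c P := by
    rw [RingHom.id_apply, ← map_smul]
    congr 1
    rw [Polynomial.smul_comp, mul_smul_comm]

lemma NL_apply (b h n : ℕ) (u : ℕ → ℚ) (Q : ℚ[X]) : NL b h n u Q = xf b h n u (PN h n * Q.comp (xp n)) := rfl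

/-- Hankel determinant -/
def DET (b h n : ℕ) (u : ℕ → ℚ) (m : ℕ) : ℚ :=
  (Matrix.of fun i j : Fin m => NL b h n u (X ^ (i.1 + j.1))).det

/-- `q` is a common denominator of the `u e` -/
def UInt (q : ℕ) (u : ℕ → ℚ) : Prop := 0 < q ∧ ∀ e, ∃ z : ℤ, (q : ℚ) * u e = z

/-- the coefficient of the `k`-th derivative (divided by `k!`) of `Q` at `x(t)` in the `t`-th term of the
linear form: `ω(t, k)`, the coefficient of `ε^b` in `R(t+ε) (x(t+ε) - x(t))^k` -/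
def om (b h n : ℕ) (t : ℚ) (k : ℕ) : ℚ :=
  PowerSeries.coeff b (RS (sN n) (mu h) (PN h n) t *
    (PowerSeries.X * (PowerSeries.X + PowerSeries.C (2 * t + ((4 * n : ℕ) : ℚ)))) ^ k)

/-- `R(t)` -/
def Rt (h n : ℕ) (t : ℕ) : ℝ :=
  ((2 * n).factorial : ℝ) ^ h * (2 * t + 4 * n) / (∏ k ∈ Finset.Icc n (3 * n), ((t : ℝ) + k)) ^ h

/-- the nodes `x_t = t (t + c)` -/
def nx (c t : ℕ) : ℝ := (t : ℝ) * ((t : ℝ) + c)

/-- the Vandermonde product of the nodes `x_a`, `a ∈ A` -/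
def vd (c : ℕ) (A : Finset ℕ) : ℝ := ∏ a ∈ A, ∏ b ∈ A.filter (fun b => a < b), (nx c b - nx c a)

/-- the truncated matrix -/
def MT (s c m T : ℕ) (ω : ℕ → ℕ → ℝ) : Matrix (Fin m) (Fin m) ℝ :=
  Matrix.of fun i j => ∑ t ∈ Finset.range T, ∑ k ∈ Finset.range s,
    ω t k * ((i.1 + j.1).choose k : ℝ) * nx c t ^ (i.1 + j.1 - k)

/-- a row of a confluent Vandermonde matrix -/
def cv (m : ℕ) (x : ℝ) (α : ℕ) : Fin m → ℝ := fun i => (i.1.choose α : ℝ) * x ^ (i.1 - α)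

/-- the classical weight `(2t+c) / ∏_{k=A}^{c-A} (t+k)^2` -/
def wcl (c A t : ℕ) : ℝ := (2 * t + c) / (∏ k ∈ Finset.Icc A (c - A), ((t : ℝ) + k)) ^ 2

/-- the Hankel determinant of size `N` of the classical weight -/
def Dcl (c A N : ℕ) : ℝ :=
  ∏ i ∈ Finset.range N, (((A + i - 1).factorial : ℝ) / ((c - A - i - 1).factorial : ℝ)) ^ 2 *
    ((i.factorial : ℝ) ^ 2 / ∏ j ∈ Finset.range N, ((c : ℝ) - 2 * A - i - j))

/-- `R(0)^(1/h)` up to a factor -/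
def r0 (n : ℕ) : ℝ := ((2 * n).factorial : ℝ) * ((n - 1).factorial : ℝ) / ((3 * n).factorial : ℝ)

/-- number of poles in the residue class of `k` modulo `p` -/
def Np (n p k : ℕ) : ℕ := ((Finset.Icc n (3 * n)).filter fun k' => k' ≡ k [MOD p]).card

/-- the node polynomial `x - x(-r)` -/
def XN (n r : ℕ) : ℚ[X] := X + C ((r : ℚ) * (4 * n - r))

/-- exponent of `p` in the bound for the determinant, `√(4n) < p ≤ 2n`; `s = b + 1`, `m = s (n-1)` -/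
def EP (b h n p : ℕ) : ℝ :=
  -2 * (((b + 1) * (n - 1) : ℕ) : ℝ) ^ 2 / p +
    ((b : ℝ) + 1 + h * ((2 * n % p : ℕ) : ℝ) / p) * (((b + 1) * (n - 1) : ℕ) : ℝ) +
    (h : ℝ) ^ 2 * (((2 * n % p : ℕ) : ℝ) / p) * (1 - ((2 * n % p : ℕ) : ℝ) / p) * p / 8 +
    (4 * (((b + 1) * (n - 1) : ℕ) : ℝ) / p + h) ^ 2 / 4

/-- harmonic numbers -/
def Hn (J : ℕ) : ℝ := ∑ j ∈ Finset.range J, 1 / ((j : ℝ) + 1)

/-- `x^2/2 log x - 3x^2/4` -/
def G2 (x : ℝ) : ℝ := x ^ 2 / 2 * Real.log x - 3 * x ^ 2 / 4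

/-- the constant of the archimedean part -/
def a0 : ℝ := 2 * (G2 (17 / 10) - G2 (7 / 10) - G2 (33 / 10) + G2 (23 / 10)) - 3 / 2 -
  (G2 (13 / 5) - 2 * G2 (8 / 5) + G2 (3 / 5)) + 13 / 5 * (2 * Real.log 2 - 2)

/-- the `p`-adic exponent sum over `2n/J < p ≤ 2n`, per `n^2` -/
def e0 (s h : ℕ) (J : ℕ) : ℝ :=
  -2 * (s : ℝ) ^ 2 * Real.log J + 2 * (s : ℝ) ^ 2 * (1 - 1 / J) +
    2 * h * s * (Real.log J - Hn J + 1) +
    (h : ℝ) ^ 2 / 2 * ((Hn (J - 1) + Hn J - 1) / 2 - Real.log J)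

end

end Pool.Agent.N334.W
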