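import Pool.Agent.N334.W.Stm
import Pool.Agent.H336R2.HD.A1

/-! Task GB (helper592): determinant bound from a triangular basis. -/

open Polynomial

namespace Pool.Agent.N334.W

noncomputable section

/-- the norm of a sum is at most the norm of one of the summands -/
private lemma gb_exists {ι : Type} (p : ℕ) [Fact p.Prime] (s : Finset ι) (hs : s.Nonempty)
    (f : ι → ℚ) : ∃ i ∈ s, padicNorm p (∑ j ∈ s, f j) ≤ padicNorm p (f i) := by
  obtain ⟨i, hi, hmax⟩ := s.exists_max_image (fun j => padicNorm p (f j)) hs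
  exact ⟨i, hi, padicNorm.sum_le hs (fun j hj => hmax j hj)⟩

private lemma gb_prod (p : ℕ) [Fact p.Prime] {ι : Type} (s : Finset ι) (f : ι → ℚ) :
    padicNorm p (∏ i ∈ s, f i) = ∏ i ∈ s, padicNorm p (f i) := by
  classical
  induction s using Finset.induction_on with
  | empty => simp
  | insert a s ha ih => rw [Finset.prod_insert ha, Finset.prod_insert ha, padicNorm.mul, ih]

private lemma gb_sign (p : ℕ) [Fact p.Prime] (e : ℤˣ) (x : ℚ) :
    padicNorm p (e • x) = padicNorm p x := by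
  rcases Int.units_eq_one_or e with h | h
  · rw [h, one_smul]
  · rw [h]
    simp

theorem GB : S_GB := by
  intro p hp L m B ρ hB hρ hL
  have : Fact p.Prime := ⟨hp⟩
  rw [← Pool.Agent.H336R2.HD.A1_det_monic L m B (fun i _ => hB i), Matrix.det_apply]
  obtain ⟨σ, _, hσ⟩ := gb_exists p (Finset.univ : Finset (Equiv.Perm (Fin m)))
    Finset.univ_nonempty
    (fun σ => Equiv.Perm.sign σ • ∏ i, (Matrix.of fun i j : Fin m => L (B i * B j)) (σ i) i)
  have h1 : ((padicNorm p (∑ σ : Equiv.Perm (Fin m), Equiv.Perm.sign σ •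
      ∏ i, (Matrix.of fun i j : Fin m => L (B i * B j)) (σ i) i) : ℚ) : ℝ) ≤
      ((∏ i : Fin m, padicNorm p (L (B (σ i) * B i)) : ℚ) : ℝ) := by
    refine (Rat.cast_le.mpr hσ).trans (le_of_eq ?_)
    rw [gb_sign, gb_prod]
    rfl
  refine h1.trans ?_
  rw [Rat.cast_prod]
  calc ∏ i : Fin m, ((padicNorm p (L (B (σ i) * B i)) : ℚ) : ℝ)
      ≤ ∏ i : Fin m, ρ (σ i) * ρ i := by
        apply Finset.prod_le_prod
        · intro i _
          exact_mod_cast padicNorm.nonneg _
        · intro i _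
          exact hL _ _ (σ i).2 i.2
    _ = (∏ i : Fin m, ρ (σ i)) * ∏ i : Fin m, ρ i := Finset.prod_mul_distrib
    _ = (∏ i : Fin m, ρ i) * ∏ i : Fin m, ρ i := by
        rw [Equiv.prod_comp σ (fun i : Fin m => ρ i)]
    _ = ∏ i ∈ Finset.range m, ρ i ^ 2 := by
        rw [Fin.prod_univ_eq_prod_range, Finset.prod_pow, sq]

end

end Pool.Agent.N334.W
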