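import Pool.Agent.N334.W.Stm

set_option autoImplicit false
set_option linter.all false

namespace Pool.Agent.N334.W

namespace GRaux

lemma exists_min (M : ℕ) (e : Fin (M + 1) → ℤ) (T : Fin (M + 1) → ℕ) :
    ∃ c : Fin (M + 1), ∀ a, e c + 2 * (T c : ℤ) ≤ e a + 2 * (T a : ℤ) := by
  obtain ⟨c, -, hc⟩ := Finset.exists_min_image Finset.univ (fun a => e a + 2 * (T a : ℤ))
    Finset.univ_nonempty
  exact ⟨c, fun a => hc a (Finset.mem_univ a)⟩

/-- the index with the smallest value -/
noncomputable def cm (M : ℕ) (e : Fin (M + 1) → ℤ) (T : Fin (M + 1) → ℕ) : Fin (M + 1) :=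
  (exists_min M e T).choose

lemma cm_le (M : ℕ) (e : Fin (M + 1) → ℤ) (T : Fin (M + 1) → ℕ) (a : Fin (M + 1)) :
    e (cm M e T) + 2 * (T (cm M e T) : ℤ) ≤ e a + 2 * (T a : ℤ) :=
  (exists_min M e T).choose_spec a

/-- the numbers of the previous choices -/
noncomputable def TT (M : ℕ) (e : Fin (M + 1) → ℤ) : ℕ → Fin (M + 1) → ℕ
  | 0 => fun _ => 0
  | i + 1 => fun a => TT M e i a + if cm M e (TT M e i) = a then 1 else 0

lemma TT_card (M : ℕ) (e : Fin (M + 1) → ℤ) (i : ℕ) (a : Fin (M + 1)) :
    ((Finset.range i).filter fun l => cm M e (TT M e l) = a).card = TT M e i a := by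
  induction i with
  | zero => rfl
  | succ i ih =>
    rw [Finset.range_add_one, Finset.filter_insert]
    show _ = TT M e i a + if cm M e (TT M e i) = a then 1 else 0
    split_ifs with h
    · rw [Finset.card_insert_of_notMem (by simp), ih]
    · rw [ih, add_zero]

lemma TT_sum (M : ℕ) (e : Fin (M + 1) → ℤ) (i : ℕ) : ∑ a, (TT M e i a : ℝ) = i := by
  induction i with
  | zero => simp [TT]
  | succ i ih =>
    have : ∀ a, (TT M e (i + 1) a : ℝ) =
        TT M e i a + if cm M e (TT M e i) = a then (1 : ℝ) else 0 := by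
      intro a
      show ((TT M e i a + if cm M e (TT M e i) = a then 1 else 0 : ℕ) : ℝ) = _
      push_cast
      rfl
    simp only [this, Finset.sum_add_distrib, ih, Finset.sum_ite_eq, Finset.mem_univ, if_true]
    push_cast
    rfl

lemma w_sum (M : ℕ) (e : Fin (M + 1) → ℤ) (m : ℕ) :
    ∑ i ∈ Finset.range m, ((e (cm M e (TT M e i)) + 2 * (TT M e i (cm M e (TT M e i)) : ℤ) : ℤ) : ℝ) =
      ∑ a, ((e a : ℝ) * TT M e m a + TT M e m a * (TT M e m a - 1)) := by
  induction m with
  | zero => simp [TT]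
  | succ m ih =>
    rw [Finset.sum_range_succ, ih]
    have : ∀ a, ((e a : ℝ) * TT M e (m + 1) a + TT M e (m + 1) a * (TT M e (m + 1) a - 1)) =
        ((e a : ℝ) * TT M e m a + TT M e m a * (TT M e m a - 1)) +
          if cm M e (TT M e m) = a then ((e a : ℝ) + 2 * TT M e m a) else 0 := by
      intro a
      have h1 : (TT M e (m + 1) a : ℝ) =
          TT M e m a + if cm M e (TT M e m) = a then (1 : ℝ) else 0 := by
        show ((TT M e m a + if cm M e (TT M e m) = a then 1 else 0 : ℕ) : ℝ) = _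
        push_cast
        rfl
      rw [h1]
      split_ifs <;> ring
    simp only [this, Finset.sum_add_distrib, Finset.sum_ite_eq, Finset.mem_univ, if_true]
    push_cast
    ring

end GRaux

open GRaux in
theorem GR : S_GR := by
  intro M e
  refine ⟨fun i => cm M e (TT M e i),
    fun i => e (cm M e (TT M e i)) + 2 * (TT M e i (cm M e (TT M e i)) : ℤ), ?_, ?_⟩
  · intro i a
    have h := TT_card M e i a
    simp only
    rw [h]
    exact cm_le M e (TT M e i) a
  · intro m W
    simp only
    rw [w_sum, ← TT_sum M e m, Finset.mul_sum, ← Finset.sum_sub_distrib]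
    refine Finset.sum_le_sum fun a _ => ?_
    have := sq_nonneg ((TT M e m a : ℝ) - (W - e a + 1) / 2)
    nlinarith

end Pool.Agent.N334.W
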