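import Pool.Agent.N334.W.Stm

/-!
# WD/GV: confluent Vandermonde determinants via Cauchy estimates
-/

open Polynomial Filter Topology

namespace Pool.Agent.N334.W

noncomputable section

namespace GVaux

theorem iter_eval (n : ℕ) : ∀ G : ℂ[X], iteratedDeriv n (fun z => G.eval z) =
    fun z => (derivative^[n] G).eval z := by
  induction n with
  | zero =>
    intro G
    rw [iteratedDeriv_zero]
    rfl
  | succ n ih =>
    intro G
    have h1 : deriv (fun z => G.eval z) = fun z => (derivative G).eval z := by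
      funext z
      exact G.deriv
    rw [iteratedDeriv_succ', h1, ih, Function.iterate_succ_apply]

theorem cauchy (G : ℂ[X]) (c : ℂ) (R M : ℝ) (a : ℕ) (hR : 0 < R)
    (hM : ∀ z, ‖z - c‖ = R → ‖G.eval z‖ ≤ M) :
    ‖(hasseDeriv a G).eval c‖ ≤ R⁻¹ ^ a * M := by
  have h1 : DiffContOnCl ℂ (fun z => G.eval z) (Metric.ball c R) :=
    G.differentiable.diffContOnCl
  have h2 := Complex.norm_iteratedDeriv_le_of_forall_mem_sphere_norm_le a hR h1 (C := M)
    (fun z hz => hM z (by rw [← dist_eq_norm]; exact hz))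
  rw [iter_eval] at h2
  have h3 : (derivative^[a] G).eval c = (a.factorial : ℂ) * (hasseDeriv a G).eval c := by
    rw [← factorial_smul_hasseDeriv]
    simp
  simp only [h3] at h2
  rw [norm_mul, Complex.norm_natCast] at h2
  have h4 : (0 : ℝ) < a.factorial := by exact_mod_cast a.factorial_pos
  rw [mul_div_assoc] at h2
  have h5 := le_of_mul_le_mul_left h2 h4
  rw [inv_pow, inv_mul_eq_div]
  exact h5

/-- a linear functional at the vector of powers -/
theorem lin_pow {m : ℕ} (l : (Fin m → ℂ) →ₗ[ℂ] ℂ) : ∃ G : ℂ[X],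
    (∀ z, G.eval z = l (fun j => z ^ j.1)) ∧
    ∀ (a : ℕ) (x : ℂ), (hasseDeriv a G).eval x =
      l (fun j => (j.1.choose a : ℂ) * x ^ (j.1 - a)) := by
  have hl : ∀ v : Fin m → ℂ, l v = ∑ j, v j * l (fun k => if j = k then 1 else 0) := by
    intro v
    rw [LinearMap.pi_apply_eq_sum_univ]
    rfl
  refine ⟨∑ j : Fin m, monomial j.1 (l (fun k => if j = k then 1 else 0)), ?_, ?_⟩
  · intro z
    rw [hl, eval_finsetSum]
    refine Finset.sum_congr rfl fun j _ => ?_
    rw [eval_monomial, mul_comm]
  · intro a x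
    rw [hl, map_sum, eval_finsetSum]
    refine Finset.sum_congr rfl fun j _ => ?_
    rw [hasseDeriv_monomial, eval_monomial]
    ring

/-- the rows -/
def rw' {m : ℕ} (x : Fin m → ℝ) (α : Fin m → ℕ) (A : Finset (Fin m)) (w : Fin m → ℂ) :
    Fin m → Fin m → ℂ := fun i => if i ∈ A then fun j => (j.1.choose (α i) : ℂ) * (x i : ℂ) ^ (j.1 - α i)
      else fun j => w i ^ j.1

theorem claim {m : ℕ} (x : Fin m → ℝ) (α : Fin m → ℕ) (r : Fin m → ℝ) (S : ℝ)
    (hr : ∀ i, 0 < r i)
    (hS : ∀ w : Fin m → ℂ, (∀ i, ‖w i - (x i : ℂ)‖ = r i) →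
      ∏ i : Fin m, ∏ j ∈ Finset.Ioi i, ‖w j - w i‖ ≤ S) (A : Finset (Fin m)) :
    ∀ w : Fin m → ℂ, (∀ i, ‖w i - (x i : ℂ)‖ = r i) →
      ‖(Matrix.of (rw' x α A w)).det‖ ≤ (∏ i ∈ A, (r i)⁻¹ ^ α i) * S := by
  induction A using Finset.induction_on with
  | empty =>
    intro w hw
    have h1 : Matrix.of (rw' x α ∅ w) = Matrix.vandermonde w := by
      ext i j
      simp [rw', Matrix.vandermonde_apply]
    rw [h1, Matrix.det_vandermonde, Finset.prod_empty, one_mul, norm_prod]
    simp only [norm_prod]
    exact hS w hw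
  | insert i A hi ih =>
    intro w hw
    let l : (Fin m → ℂ) →ₗ[ℂ] ℂ :=
      (Matrix.detRowAlternating (n := Fin m) (R := ℂ)).toMultilinearMap.toLinearMap (rw' x α A w) i
    have hl : ∀ v, l v = (Matrix.of (Function.update (rw' x α A w) i v)).det := fun v => rfl
    obtain ⟨G, hG1, hG2⟩ := lin_pow l
    have h1 : Function.update (rw' x α A w) i
        (fun j : Fin m => (j.1.choose (α i) : ℂ) * (x i : ℂ) ^ (j.1 - α i)) =
        rw' x α (insert i A) w := by
      funext k
      by_cases hk : k = i
      · subst hk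
        rw [Function.update_self]
        simp [rw']
      · rw [Function.update_of_ne hk]
        simp [rw', hk]
    have h2 : (Matrix.of (rw' x α (insert i A) w)).det = (hasseDeriv (α i) G).eval (x i : ℂ) := by
      rw [hG2, hl, h1]
    rw [h2, Finset.prod_insert hi, mul_assoc]
    apply cauchy _ _ _ _ _ (hr i)
    intro z hz
    rw [hG1, hl]
    have h3 : Function.update (rw' x α A w) i (fun j : Fin m => z ^ j.1) =
        rw' x α A (Function.update w i z) := by
      funext k
      by_cases hk : k = i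
      · subst hk
        rw [Function.update_self]
        simp [rw', hi]
      · rw [Function.update_of_ne hk]
        simp [rw', hk]
    rw [h3]
    apply ih
    intro k
    by_cases hk : k = i
    · subst hk
      rw [Function.update_self]
      exact hz
    · rw [Function.update_of_ne hk]
      exact hw k

end GVaux

open GVaux

theorem GV : S_GV := by
  intro m x α r S hr hS
  have h1 := claim x α r S hr hS Finset.univ (fun i => (x i : ℂ) + (r i : ℂ)) (fun i => by
    rw [add_sub_cancel_left, Complex.norm_real, Real.norm_of_nonneg (hr i).le])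
  have h2 : Matrix.of (rw' x α Finset.univ (fun i => (x i : ℂ) + (r i : ℂ))) =
      (Matrix.of fun i j : Fin m => cv m (x i) (α i) j).map (algebraMap ℝ ℂ) := by
    ext i j
    simp [rw', cv]
  have h3 : (Matrix.of (rw' x α Finset.univ (fun i => (x i : ℂ) + (r i : ℂ)))).det =
      (((Matrix.of fun i j : Fin m => cv m (x i) (α i) j).det : ℝ) : ℂ) := by
    rw [h2]
    exact (RingHom.map_det (algebraMap ℝ ℂ) _).symm
  rw [h3, Complex.norm_real, Real.norm_eq_abs] at h1
  exact h1

end

end Pool.Agent.N334.W
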