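import Pool.Agent.N334.W.Stm

/-! # WD/LF: the linear form (helper558) -/

open Polynomial Pool.Agent.H337R2

namespace Pool.Agent.N334.W

noncomputable section

lemma LF_xp_comp (n : ℕ) : (xp n).comp (-X - C ((4 * n : ℕ) : ℚ)) = xp n := by
  unfold xp
  simp only [Polynomial.mul_comp, Polynomial.add_comp, Polynomial.X_comp, Polynomial.C_comp]
  ring

lemma LF_PN_comp (h n : ℕ) : (PN h n).comp (-X - C ((4 * n : ℕ) : ℚ)) = -PN h n := by
  unfold PN
  simp only [Polynomial.mul_comp, Polynomial.add_comp, Polynomial.X_comp, Polynomial.C_comp,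
    Polynomial.ofNat_comp]
  ring

lemma LF_P_comp (h n : ℕ) (Q : ℚ[X]) :
    (PN h n * Q.comp (xp n)).comp (-X - C ((4 * n : ℕ) : ℚ)) = -(PN h n * Q.comp (xp n)) := by
  rw [Polynomial.mul_comp, LF_PN_comp, Polynomial.comp_assoc, LF_xp_comp]
  ring

lemma LF_deg (h n : ℕ) (Q : ℚ[X]) : (PN h n * Q.comp (xp n)).natDegree ≤ 1 + 2 * Q.natDegree := by
  have h1 : (xp n).natDegree ≤ 2 := by
    unfold xp
    refine Polynomial.natDegree_mul_le.trans ?_
    rw [Polynomial.natDegree_X, Polynomial.natDegree_X_add_C]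
  have h2 : (PN h n).natDegree ≤ 1 := by
    unfold PN
    refine (Polynomial.natDegree_C_mul_le _ _).trans ?_
    refine (Polynomial.natDegree_add_le _ _).trans ?_
    refine max_le ?_ (by rw [Polynomial.natDegree_C]; exact Nat.zero_le _)
    rw [show (2 : ℚ[X]) = C (2 : ℚ) from rfl]
    exact (Polynomial.natDegree_C_mul_le _ _).trans (by rw [Polynomial.natDegree_X])
  refine Polynomial.natDegree_mul_le.trans (Nat.add_le_add h2 ?_)
  refine Polynomial.natDegree_comp_le.trans ?_
  calc Q.natDegree * (xp n).natDegree ≤ Q.natDegree * 2 := Nat.mul_le_mul_left _ h1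
    _ = _ := by ring

lemma LF_sum (h n : ℕ) : ∑ k ∈ sN n, mu h k = h * (2 * n + 1) := by
  rw [Finset.sum_const, Nat.card_Icc, smul_eq_mul, show 3 * n + 1 - n = 2 * n + 1 by omega]
  ring

theorem LF : S_LF := by
  intro b h n u Q hb hb2 hh hn hu hQ
  set P : ℚ[X] := PN h n * Q.comp (xp n) with hP
  have hd : P.natDegree + 2 ≤ (QQ (sN n) (mu h)).natDegree := by
    rw [QQ_natDegree, LF_sum]
    have := LF_deg h n Q
    rw [← hP] at this
    omega
  have hdeg' : P.degree < (QQ (sN n) (mu h)).degree := by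
    rw [Polynomial.degree_eq_natDegree (QQ_monic _ _).ne_zero]
    exact lt_of_le_of_lt Polynomial.degree_le_natDegree (by exact_mod_cast (by omega))
  have h1 := linear_form' (sN n) (mu h) P hdeg' b 0 h (by omega)
    (fun k hk => by rw [sN, Finset.mem_Icc] at hk; omega)
    (fun k _ => le_refl _)
    (fun m hm => by rw [Finset.mem_Icc] at hm; omega)
  convert h1 using 1
  rw [NL_apply, ← hP]
  unfold xf
  push_cast
  apply Finset.sum_congr rfl
  intro i hi
  rw [Finset.mem_Icc] at hi
  rw [hb.neg_one_pow, one_mul]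
  congr 1
  congr 1
  by_cases hodd : Odd i
  · by_cases hi1 : i = 1
    · subst hi1
      have h6 := residue_sum (sN n) (mu h) P hd
      have h4 : (∑ k ∈ sN n, ((pa (sN n) (mu h) P k 1 : ℚ) : ℝ)) = 0 := by
        have : (((∑ k ∈ sN n, pa (sN n) (mu h) P k 1 : ℚ)) : ℝ) = 0 := by
          rw [h6]; simp
        push_cast at this
        exact this
      rw [h4, zero_mul, zero_mul]
    · have h7 : ((u (i + b) : ℚ) : ℝ) = zr (i + b) := by
        obtain ⟨j, hj⟩ := hodd
        obtain ⟨l, hl⟩ := hh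
        exact hu (i + b) (Odd.add_even ⟨j, hj⟩ hb) (by omega) (by omega)
      rw [h7]
  · have hodd' := Nat.not_odd_iff_even.1 hodd
    have h6 := even_vanish (sN n) (mu h) P (4 * n)
      (fun k hk => by rw [sN, Finset.mem_Icc] at hk ⊢; omega) (fun k _ => rfl)
      (by rw [hP]; exact LF_P_comp h n Q) (by rw [LF_sum]; exact hh.mul_right _) hodd' hi.1
    have h4 : (∑ k ∈ sN n, ((pa (sN n) (mu h) P k i : ℚ) : ℝ)) = 0 := by
      have : (((∑ k ∈ sN n, pa (sN n) (mu h) P k i : ℚ)) : ℝ) = 0 := by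
        rw [h6]; simp
      push_cast at this
      exact this
    rw [h4, zero_mul, zero_mul]

end

end Pool.Agent.N334.W
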