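import Pool.Agent.N334.W.Stm

/-!
# Project WD: the large primes `p > 2 n`
-/

open Polynomial Pool.Agent.H337R2

namespace Pool.Agent.N334.W

namespace LPaux

/-- the node `X_c = -c (4 n - c)` -/
def nd (n : ℕ) (c : ℕ) : ℤ := -(c : ℤ) * (-(c : ℤ) + ((4 * n : ℕ) : ℤ))

/-- the roots -/
def rt (n s M l : ℕ) : ℤ := if l < s * M then nd n (1 + l % M) else 0

/-- the basis -/
noncomputable def BZ (n s M i : ℕ) : ℤ[X] := ∏ l ∈ Finset.range i, (X - C (rt n s M l))

theorem BZ_monic (n s M i : ℕ) : (BZ n s M i).Monic :=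
  monic_prod_of_monic _ _ fun _ _ => monic_X_sub_C _

theorem BZ_natDegree (n s M i : ℕ) : (BZ n s M i).natDegree = i := by
  unfold BZ
  rw [natDegree_prod_of_monic _ _ fun l _ => monic_X_sub_C _,
    Finset.sum_congr rfl fun l _ => natDegree_X_sub_C _]
  simp

theorem BZ_dvd (n s M : ℕ) {i j : ℕ} (hij : i ≤ j) : BZ n s M i ∣ BZ n s M j := by
  unfold BZ
  exact Finset.prod_dvd_prod_of_subset _ _ _ (Finset.range_subset_range.2 hij)

theorem BZ_order (n s M c : ℕ) (hc1 : 1 ≤ c) (hcM : c ≤ M) (t : ℕ) :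
    t ≤ s → ∀ i, t * M ≤ i → (X - C (nd n c)) ^ t ∣ BZ n s M i := by
  induction t with
  | zero =>
    intro _ i _
    simp
  | succ t ih =>
    intro ht i hi
    have h1 := ih (by omega) (t * M + (c - 1)) (by omega)
    have hlt : t * M + (c - 1) < s * M := by
      have : (t + 1) * M ≤ s * M := Nat.mul_le_mul_right M ht
      rw [Nat.succ_mul] at this
      omega
    have h2 : BZ n s M (t * M + (c - 1) + 1) = BZ n s M (t * M + (c - 1)) * (X - C (nd n c)) := by
      unfold BZ
      rw [Finset.prod_range_succ]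
      congr 2
      unfold rt
      rw [if_pos hlt]
      congr 2
      have : (t * M + (c - 1)) % M = c - 1 := by
        rw [mul_comm t M, Nat.mul_add_mod, Nat.mod_eq_of_lt (by omega)]
      rw [this]
      omega
    have h3 : (X - C (nd n c)) ^ (t + 1) ∣ BZ n s M (t * M + (c - 1) + 1) := by
      rw [h2, pow_succ]
      exact mul_dvd_mul_right h1 _
    refine h3.trans (BZ_dvd n s M ?_)
    rw [Nat.succ_mul] at hi
    omega

theorem hasse_zero {F : ℤ[X]} {a : ℤ} {r k : ℕ} (h : (X - C a) ^ r ∣ F) (hk : k < r) :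
    (hasseDeriv k F).eval a = 0 := by
  obtain ⟨G, rfl⟩ := h
  rw [← taylor_coeff, taylor_mul, taylor_pow]
  have h1 : taylor a (X - C a) = X := by
    rw [map_sub, taylor_X, taylor_C]
    ring
  rw [h1, coeff_X_pow_mul', if_neg (by omega)]

theorem hasse_cast (F : ℤ[X]) (k : ℕ) (a : ℤ) :
    (hasseDeriv k (F.map (Int.castRingHom ℚ))).eval (a : ℚ) = (((hasseDeriv k F).eval a : ℤ) : ℚ) := by
  rw [← taylor_coeff, ← taylor_coeff]
  have h1 : taylor (a : ℚ) (F.map (Int.castRingHom ℚ)) = (taylor a F).map (Int.castRingHom ℚ) := by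
    rw [taylor_apply, taylor_apply, Polynomial.map_comp]
    simp
  rw [h1, coeff_map]
  rfl

theorem norm_int (p : ℕ) [Fact p.Prime] (z : ℤ) : padicNorm p (z : ℚ) ≤ 1 := padicNorm.of_int z

theorem norm_sum (p : ℕ) [Fact p.Prime] {ι : Type*} (s : Finset ι) (f : ι → ℚ) (R : ℚ) (hR : 0 ≤ R)
    (h : ∀ i ∈ s, padicNorm p (f i) ≤ R) : padicNorm p (∑ i ∈ s, f i) ≤ R := by
  classical
  induction s using Finset.induction_on with
  | empty => simpa using hR
  | insert a s ha ih =>
    rw [Finset.sum_insert ha]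
    refine le_trans padicNorm.nonarchimedean (max_le (h a (Finset.mem_insert_self a s)) ?_)
    exact ih fun i hi => h i (Finset.mem_insert_of_mem hi)

/-- the exponents -/
theorem expo (M h b : ℕ) (t : ℕ) : t ≤ b + 1 → b ≤ h →
    ∑ i ∈ Finset.range (t * M), (h + b - 2 * (i / M)) + M * (t * (t - 1)) = M * (t * (h + b)) := by
  induction t with
  | zero =>
    intro _ _
    simp
  | succ t ih =>
    intro ht hb
    have h1 := ih (by omega) hb
    rw [Nat.succ_mul, Finset.sum_range_add]
    have h2 : ∑ x ∈ Finset.range M, (h + b - 2 * ((t * M + x) / M)) = M * (h + b - 2 * t) := by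
      rw [Finset.sum_congr rfl (g := fun _ => h + b - 2 * t)]
      · simp
      · intro x hx
        rw [Finset.mem_range] at hx
        have h3 : (t * M + x) / M = t := by
          rw [mul_comm t M, Nat.mul_add_div (by omega), Nat.div_eq_of_lt hx, add_zero]
        rw [h3]
    rw [h2]
    obtain ⟨d, hd⟩ : ∃ d, h + b = 2 * t + d := ⟨h + b - 2 * t, by omega⟩
    rw [hd, Nat.add_sub_cancel_left, Nat.add_sub_cancel]
    rw [hd] at h1
    cases t with
    | zero =>
      simp at h1 ⊢
    | succ t =>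
      rw [Nat.add_sub_cancel] at h1
      have h4 : M * ((t + 1 + 1) * (t + 1)) = M * ((t + 1) * t) + M * (2 * (t + 1)) := by ring
      have h5 : M * ((t + 1 + 1) * (2 * (t + 1) + d)) = M * ((t + 1) * (2 * (t + 1) + d)) +
        M * (2 * (t + 1)) + M * d := by ring
      rw [h4, h5, ← h1]
      ring

end LPaux

open LPaux

theorem LP_of (hRED : S_RED) (hOMP : S_OMP) (hGB : S_GB) : S_LP := by
  intro b h n q p u hb hh hn hp hnp hu
  have : Fact p.Prime := ⟨hp⟩
  obtain ⟨s, hs⟩ : ∃ s, s = b + 1 := ⟨_, rfl⟩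
  obtain ⟨M, hM⟩ : ∃ M, M = 3 * n - p := ⟨_, rfl⟩
  obtain ⟨m, hm⟩ : ∃ m, m = (b + 1) * (n - 1) := ⟨_, rfl⟩
  have hMn : M ≤ n - 1 := by omega
  have hsM : s * M ≤ m := by
    rw [hs, hm]
    exact Nat.mul_le_mul_left _ hMn
  have hp1 : (1 : ℝ) ≤ p := by exact_mod_cast hp.one_lt.le
  have hp1q : (1 : ℚ) ≤ p := by exact_mod_cast hp.one_lt.le
  have hp0 : (0 : ℝ) < p := by linarith
  -- the basis
  set B : ℕ → ℚ[X] := fun i => (BZ n s M i).map (Int.castRingHom ℚ) with hB
  have hBm : ∀ i, (B i).Monic ∧ (B i).natDegree = i := by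
    intro i
    refine ⟨(BZ_monic n s M i).map _, ?_⟩
    rw [hB]
    simp only
    rw [(BZ_monic n s M i).natDegree_map, BZ_natDegree]
  -- the weights
  set ρ : ℕ → ℝ := fun i => if i < s * M then (p : ℝ) ^ (((h + b - 2 * (i / M) : ℕ) : ℝ) / 2) else 1
    with hρ
  have hρ1 : ∀ i, 1 ≤ ρ i := by
    intro i
    simp only [hρ]
    split_ifs
    · exact Real.one_le_rpow hp1 (by positivity)
    · exact le_rfl
  have hdiv : ∀ i, i < s * M → i / M ≤ b := by
    intro i hi
    have h1 : i / M < s := by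
      rw [Nat.div_lt_iff_lt_mul]
      · exact hi
      · rcases Nat.eq_zero_or_pos M with h0 | h0
        · rw [h0] at hi
          simp at hi
        · exact h0
    omega
  -- the linear functional
  set L : ℚ[X] →ₗ[ℚ] ℚ := (q : ℚ) • NL b h n u with hL
  have hLa : ∀ Q, L Q = (q : ℚ) * NL b h n u Q := fun Q => rfl
  have key : ∀ i j, i < m → j < m → ((padicNorm p (L (B i * B j)) : ℚ) : ℝ) ≤ ρ i * ρ j := by
    intro i j hi hj
    have hBB : B i * B j = (BZ n s M i * BZ n s M j).map (Int.castRingHom ℚ) := by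
      rw [Polynomial.map_mul]
    set F : ℤ[X] := BZ n s M i * BZ n s M j with hF
    have hFd : F.natDegree = i + j := by
      rw [hF, (BZ_monic n s M i).natDegree_mul (BZ_monic n s M j), BZ_natDegree, BZ_natDegree]
    have hdeg : 2 * F.natDegree + 1 < h * (2 * n + 1) := by
      rw [hFd]
      have h1 : 4 * m ≤ 2 * h * (n - 1) := by
        rw [hm]
        calc 4 * ((b + 1) * (n - 1)) = 2 * (2 * (b + 1)) * (n - 1) := by ring
          _ ≤ 2 * h * (n - 1) := by gcongr
      have h2 : 2 * h * (n - 1) + 3 * h = h * (2 * n + 1) := by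
        obtain ⟨n', hn'⟩ : ∃ n', n = n' + 1 := ⟨n - 1, by omega⟩
        rw [hn', Nat.add_sub_cancel]
        ring
      omega
    have hred := hRED b h n q p u F hb hn hp hnp hu hdeg
    rw [← hM] at hred
    -- the sum of the residues
    set SS : ℚ := ∑ c ∈ Finset.Icc 1 M, ∑ k ∈ Finset.range (b + 1), om b h n (-(c : ℚ)) k *
      (hasseDeriv k (F.map (Int.castRingHom ℚ))).eval (-(c : ℚ) * (-(c : ℚ) + ((4 * n : ℕ) : ℚ)))
      with hSS
    have hsplit : L (B i * B j) = (q : ℚ) * (NL b h n u (F.map (Int.castRingHom ℚ)) + SS) -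
        (q : ℚ) * SS := by
      rw [hBB, hLa]
      ring
    have hbound : ∀ R : ℚ, 1 ≤ R →
        (∀ c ∈ Finset.Icc 1 M, ∀ k ∈ Finset.range (b + 1), padicNorm p (om b h n (-(c : ℚ)) k *
          (hasseDeriv k (F.map (Int.castRingHom ℚ))).eval
            (-(c : ℚ) * (-(c : ℚ) + ((4 * n : ℕ) : ℚ)))) ≤ R) →
        padicNorm p (L (B i * B j)) ≤ R := by
      intro R hR hRb
      rw [hsplit]
      refine le_trans padicNorm.sub (max_le (hred.trans hR) ?_)
      rw [padicNorm.mul]
      have h1 : padicNorm p (q : ℚ) ≤ 1 := by exact_mod_cast norm_int p (q : ℤ)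
      have h2 : padicNorm p SS ≤ R := by
        rw [hSS]
        refine norm_sum p _ _ R (by linarith) fun c hc => ?_
        exact norm_sum p _ _ R (by linarith) fun k hk => hRb c hc k hk
      calc padicNorm p (q : ℚ) * padicNorm p SS ≤ 1 * R := by
            apply mul_le_mul h1 h2 (padicNorm.nonneg _) zero_le_one
        _ = R := one_mul R
    have heval : ∀ c k : ℕ, (hasseDeriv k (F.map (Int.castRingHom ℚ))).eval
        (-(c : ℚ) * (-(c : ℚ) + ((4 * n : ℕ) : ℚ))) = (((hasseDeriv k F).eval (nd n c) : ℤ) : ℚ) := by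
      intro c k
      rw [← hasse_cast]
      congr 1
      unfold nd
      push_cast
      ring
    have hzero : ∀ c ∈ Finset.Icc 1 M, ∀ ti tj : ℕ, ti ≤ s → tj ≤ s → ti * M ≤ i → tj * M ≤ j →
        ∀ k, k < ti + tj → (hasseDeriv k F).eval (nd n c) = 0 := by
      intro c hc ti tj h1 h2 h3 h4 k hk
      rw [Finset.mem_Icc] at hc
      have h5 := BZ_order n s M c hc.1 hc.2 ti h1 i h3
      have h6 := BZ_order n s M c hc.1 hc.2 tj h2 j h4
      refine hasse_zero ?_ hk
      rw [pow_add]
      exact mul_dvd_mul h5 h6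
    by_cases hij : i < s * M ∧ j < s * M
    · -- both below
      obtain ⟨hi', hj'⟩ := hij
      have hia := hdiv i hi'
      have hja := hdiv j hj'
      have hR : padicNorm p (L (B i * B j)) ≤ (p : ℚ) ^ (h + b - (i / M + j / M)) := by
        refine hbound _ (one_le_pow₀ hp1q) fun c hc k hk => ?_
        rw [heval]
        rw [Finset.mem_range] at hk
        by_cases hka : k < i / M + j / M
        · rw [hzero c hc (i / M) (j / M) (by omega) (by omega) (Nat.div_mul_le_self i M)
            (Nat.div_mul_le_self j M) k hka]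
          simp
        · have hc' := Finset.mem_Icc.1 hc
          have h1 := (hOMP b h n p c hn hp hnp hc'.1 (by omega)).1 k (by omega)
          rw [padicNorm.mul]
          calc padicNorm p (om b h n (-(c : ℚ)) k) *
                padicNorm p (((hasseDeriv k F).eval (nd n c) : ℤ) : ℚ)
              ≤ (p : ℚ) ^ (h + b - k) * 1 := by
                apply mul_le_mul h1 (norm_int p _) (padicNorm.nonneg _) (by positivity)
            _ = (p : ℚ) ^ (h + b - k) := mul_one _
            _ ≤ (p : ℚ) ^ (h + b - (i / M + j / M)) := pow_le_pow_right₀ hp1q (by omega)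
      have hR' : ((padicNorm p (L (B i * B j)) : ℚ) : ℝ) ≤
          (p : ℝ) ^ (h + b - (i / M + j / M)) := by exact_mod_cast hR
      refine hR'.trans (le_of_eq ?_)
      simp only [hρ]
      rw [if_pos hi', if_pos hj', ← Real.rpow_add hp0, ← Real.rpow_natCast]
      congr 1
      have e1 : ((h + b - 2 * (i / M) : ℕ) : ℝ) = (h : ℝ) + b - 2 * ((i / M : ℕ) : ℝ) := by
        rw [Nat.cast_sub (by omega)]
        push_cast
        ring
      have e2 : ((h + b - 2 * (j / M) : ℕ) : ℝ) = (h : ℝ) + b - 2 * ((j / M : ℕ) : ℝ) := by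
        rw [Nat.cast_sub (by omega)]
        push_cast
        ring
      have e3 : ((h + b - (i / M + j / M) : ℕ) : ℝ) = (h : ℝ) + b - (((i / M : ℕ) : ℝ) +
          ((j / M : ℕ) : ℝ)) := by
        rw [Nat.cast_sub (by omega)]
        push_cast
        ring
      rw [e1, e2, e3]
      ring
    · -- one above
      have hR : padicNorm p (L (B i * B j)) ≤ 1 := by
        refine hbound 1 le_rfl fun c hc k hk => ?_
        rw [heval]
        rw [Finset.mem_range] at hk
        have h0 : (hasseDeriv k F).eval (nd n c) = 0 := by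
          by_cases hi' : i < s * M
          · have hj' : s * M ≤ j := by
              by_contra hcon
              exact hij ⟨hi', not_le.1 hcon⟩
            exact hzero c hc 0 s (Nat.zero_le _) le_rfl (by simp) hj' k (by omega)
          · exact hzero c hc s 0 le_rfl (Nat.zero_le _) (not_lt.1 hi') (by simp) k (by omega)
        rw [h0]
        simp
      have hR' : ((padicNorm p (L (B i * B j)) : ℚ) : ℝ) ≤ 1 := by exact_mod_cast hR
      exact hR'.trans (one_le_mul_of_one_le_of_one_le (hρ1 i) (hρ1 j))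
  have hfin := hGB p hp L m B ρ hBm (fun i => zero_le_one.trans (hρ1 i)) key
  -- the determinant
  have hdet : (Matrix.of fun i j : Fin m => L (X ^ (i.1 + j.1))).det =
      (q : ℚ) ^ m * DET b h n u m := by
    have h1 : (Matrix.of fun i j : Fin m => L (X ^ (i.1 + j.1))) =
        (q : ℚ) • (Matrix.of fun i j : Fin m => NL b h n u (X ^ (i.1 + j.1))) := by
      ext i j
      rfl
    rw [h1, Matrix.det_smul, Fintype.card_fin]
    rfl
  -- the product
  have hprod : ∏ i ∈ Finset.range m, ρ i ^ 2 = (p : ℝ) ^ (h * (b + 1) * (3 * n - p)) := by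
    have h1 : ∏ i ∈ Finset.range m, ρ i ^ 2 = ∏ i ∈ Finset.range (s * M), ρ i ^ 2 := by
      symm
      refine Finset.prod_subset (Finset.range_subset_range.2 hsM) fun i _ hi => ?_
      rw [Finset.mem_range] at hi
      simp only [hρ]
      rw [if_neg hi, one_pow]
    have h2 : ∀ i ∈ Finset.range (s * M), ρ i ^ 2 = (p : ℝ) ^ (h + b - 2 * (i / M)) := by
      intro i hi
      rw [Finset.mem_range] at hi
      simp only [hρ]
      rw [if_pos hi, ← Real.rpow_natCast, ← Real.rpow_mul hp0.le, ← Real.rpow_natCast]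
      congr 1
      push_cast
      ring
    rw [h1, Finset.prod_congr rfl h2, Finset.prod_pow_eq_pow_sum]
    congr 1
    have h3 := expo M h b s (by omega) (by omega)
    rw [hs, Nat.add_sub_cancel] at h3
    rw [hs, ← hM]
    have h4 : M * ((b + 1) * (h + b)) = h * (b + 1) * M + M * ((b + 1) * b) := by ring
    omega
  rw [hdet, hprod] at hfin
  rw [← hm]
  exact_mod_cast hfin

end Pool.Agent.N334.W
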