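import Pool.Agent.N334.W.PN
import Mathlib.Analysis.SpecialFunctions.Stirling

/-! Part ME: the formula of Mertens for `Λ`, lower bound (from the prime number theorem). -/

open Filter Topology Finset

namespace Pool.Agent.N334.W

namespace MEAux

lemma log_fact (N : ℕ) :
    ∑ k ∈ Ioc 0 N, ArithmeticFunction.vonMangoldt k * ((N / k : ℕ) : ℝ) = Real.log N.factorial := by
  have h := ArithmeticFunction.sum_Ioc_mul_zeta_eq_sum ArithmeticFunction.vonMangoldt N
  rw [ArithmeticFunction.vonMangoldt_mul_zeta] at h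
  rw [← h]
  clear h
  induction N with
  | zero => simp
  | succ n ih =>
    rw [← Finset.insert_Ioc_right_eq_Ioc_add_one (Nat.zero_le n), Finset.sum_insert (by simp), ih,
      Nat.factorial_succ, Nat.cast_mul, Real.log_mul (by positivity) (by positivity),
      ArithmeticFunction.log_apply]

/-- the primes in `(N/(j+2), N/(j+1)]` -/
noncomputable abbrev P (N j : ℕ) : Finset ℕ := PS (1 / ((j : ℝ) + 2)) (1 / ((j : ℝ) + 1)) N

lemma mem_P {N j p : ℕ} (h : p ∈ P N j) : p.Prime ∧ N / p = j + 1 ∧ p ≤ N := by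
  classical
  unfold P PS at h
  rw [Finset.mem_filter, Finset.mem_range] at h
  obtain ⟨h1, hp, h2⟩ := h
  have h3 : p ≤ ⌊1 / ((j : ℝ) + 1) * N⌋₊ := by omega
  have h4 : (p : ℝ) ≤ 1 / ((j : ℝ) + 1) * N := (Nat.le_floor_iff (by positivity)).1 h3
  have hj1 : (0 : ℝ) < (j : ℝ) + 1 := by positivity
  have hj2 : (0 : ℝ) < (j : ℝ) + 2 := by positivity
  have h5 : ((j + 1) * p : ℕ) ≤ N := by
    have : ((j : ℝ) + 1) * p ≤ N := by
      calc ((j : ℝ) + 1) * p ≤ ((j : ℝ) + 1) * (1 / ((j : ℝ) + 1) * N) := by gcongr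
        _ = N := by field_simp
    exact_mod_cast this
  have h6 : N < (j + 1 + 1) * p := by
    have : (N : ℝ) < ((j : ℝ) + 2) * p := by
      calc (N : ℝ) = ((j : ℝ) + 2) * (1 / ((j : ℝ) + 2) * N) := by field_simp
        _ < ((j : ℝ) + 2) * p := by gcongr
    have h7 : (N : ℝ) < (((j + 1 + 1) * p : ℕ) : ℝ) := by push_cast; linarith
    exact_mod_cast h7
  have hp0 := hp.pos
  refine ⟨hp, ?_, ?_⟩
  · exact Nat.div_eq_of_lt_le h5 h6
  · nlinarith

lemma lower (N K : ℕ) (hN : 0 < N) :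
    (N : ℝ) * Real.log N - N + ∑ j ∈ range K, ∑ p ∈ P N j, ((N : ℝ) / p - (j + 1)) * Real.log p ≤
      N * ∑ k ∈ Icc 1 N, ArithmeticFunction.vonMangoldt k / k := by
  classical
  have hIcc : Icc 1 N = Ioc 0 N := by ext; simp; omega
  have hst := Stirling.le_log_factorial_stirling (n := N) hN.ne'
  have hN1 : (1 : ℝ) ≤ N := by exact_mod_cast hN
  have hl0 : 0 ≤ Real.log N := Real.log_nonneg hN1
  have hl1 : 0 ≤ Real.log (2 * Real.pi) := Real.log_nonneg (by nlinarith [Real.pi_gt_three])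
  have e1 : (N : ℝ) * ∑ k ∈ Icc 1 N, ArithmeticFunction.vonMangoldt k / k =
      Real.log N.factorial + ∑ k ∈ Ioc 0 N, ArithmeticFunction.vonMangoldt k * ((N : ℝ) / k - (N / k : ℕ)) := by
    rw [← log_fact, hIcc, Finset.mul_sum, ← Finset.sum_add_distrib]
    refine Finset.sum_congr rfl fun k hk => ?_
    ring
  rw [e1]
  have hfr : ∀ k ∈ Ioc 0 N, 0 ≤ ArithmeticFunction.vonMangoldt k * ((N : ℝ) / k - (N / k : ℕ)) := by
    intro k _
    exact mul_nonneg ArithmeticFunction.vonMangoldt_nonneg (sub_nonneg.2 Nat.cast_div_le)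
  have hdisj : (↑(range K) : Set ℕ).PairwiseDisjoint (P N) := by
    intro i _ j _ hij
    rw [Function.onFun, Finset.disjoint_left]
    intro p hp hq
    have h1 := (mem_P hp).2.1
    have h2 := (mem_P hq).2.1
    exact hij (by omega)
  have e2 : ∑ j ∈ range K, ∑ p ∈ P N j, ((N : ℝ) / p - (j + 1)) * Real.log p =
      ∑ p ∈ (range K).biUnion (P N), ArithmeticFunction.vonMangoldt p * ((N : ℝ) / p - (N / p : ℕ)) := by
    rw [Finset.sum_biUnion hdisj]
    refine Finset.sum_congr rfl fun j _ => Finset.sum_congr rfl fun p hp => ?_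
    obtain ⟨hpp, h1, -⟩ := mem_P hp
    rw [ArithmeticFunction.vonMangoldt_apply_prime hpp, h1]
    push_cast
    ring
  have e3 : ∑ p ∈ (range K).biUnion (P N), ArithmeticFunction.vonMangoldt p * ((N : ℝ) / p - (N / p : ℕ)) ≤
      ∑ k ∈ Ioc 0 N, ArithmeticFunction.vonMangoldt k * ((N : ℝ) / k - (N / k : ℕ)) := by
    refine Finset.sum_le_sum_of_subset_of_nonneg ?_ fun k hk _ => hfr k hk
    intro p hp
    rw [Finset.mem_biUnion] at hp
    obtain ⟨j, _, hp⟩ := hp
    obtain ⟨hpp, -, h2⟩ := mem_P hp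
    exact Finset.mem_Ioc.2 ⟨hpp.pos, h2⟩
  rw [e2]
  have : (N : ℝ) * Real.log N - N ≤ Real.log N.factorial := by linarith
  linarith

lemma lim (K : ℕ) : Tendsto (fun N : ℕ =>
    (∑ j ∈ range K, ∑ p ∈ P N j, ((N : ℝ) / p - (j + 1)) * Real.log p) / N) atTop
    (𝓝 (Real.log (K + 1) - (harmonic (K + 1) - 1 : ℚ))) := by
  have h1 : ∀ j : ℕ, Tendsto (fun N : ℕ => (∑ p ∈ P N j, ((N : ℝ) / p - (j + 1)) * Real.log p) / N) atTop
      (𝓝 (Real.log ((j + 2) / (j + 1)) - 1 / ((j : ℝ) + 2))) := by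
    intro j
    have hj1 : (0 : ℝ) < (j : ℝ) + 1 := by positivity
    have hj2 : (0 : ℝ) < (j : ℝ) + 2 := by positivity
    have h := thm_PN (1 / ((j : ℝ) + 2)) (1 / ((j : ℝ) + 1)) 1 (-((j : ℝ) + 1)) 0 (by positivity)
      (one_div_lt_one_div_of_lt hj1 (by linarith))
    have e : 1 * Real.log (1 / ((j : ℝ) + 1) / (1 / ((j : ℝ) + 2))) +
        -((j : ℝ) + 1) * (1 / ((j : ℝ) + 1) - 1 / ((j : ℝ) + 2)) +
        0 * (((1 / ((j : ℝ) + 1)) ^ 2 - (1 / ((j : ℝ) + 2)) ^ 2) / 2) =
        Real.log ((j + 2) / (j + 1)) - 1 / ((j : ℝ) + 2) := by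
      have e1 : 1 / ((j : ℝ) + 1) / (1 / ((j : ℝ) + 2)) = ((j : ℝ) + 2) / (j + 1) := by
        field_simp
      rw [e1]
      field_simp
      ring
    rw [e] at h
    refine h.congr' ?_
    filter_upwards [eventually_gt_atTop 0] with N hN
    have hN0 : (N : ℝ) ≠ 0 := by exact_mod_cast hN.ne'
    rw [div_eq_div_iff (by positivity) hN0]
    rw [Finset.sum_mul, Finset.sum_mul]
    refine Finset.sum_congr rfl fun p _ => ?_
    ring
  have h2 := tendsto_finsetSum (range K) (fun j _ => h1 j)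
  have e : ∑ j ∈ range K, (Real.log ((j + 2) / (j + 1)) - 1 / ((j : ℝ) + 2)) =
      Real.log (K + 1) - (harmonic (K + 1) - 1 : ℚ) := by
    induction K with
    | zero => simp
    | succ K ih =>
      rw [Finset.sum_range_succ, ih (by simpa using tendsto_finsetSum (range K) (fun j _ => h1 j)), harmonic_succ (K + 1)]
      rw [Real.log_div (by positivity) (by positivity)]
      push_cast
      have : (K : ℝ) + 1 + 1 = K + 2 := by ring
      rw [this]
      ring
  rw [← e]
  refine h2.congr fun N => ?_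
  rw [Finset.sum_div]

end MEAux

open MEAux in
theorem ME : S_ME := by
  intro ε hε
  have hH := Real.tendsto_harmonic_sub_log
  have hH' : Tendsto (fun K : ℕ => ((harmonic (K + 1) : ℚ) : ℝ) - Real.log ((K : ℝ) + 1)) atTop
      (𝓝 Real.eulerMascheroniConstant) := by
    have := hH.comp (tendsto_add_atTop_nat 1)
    refine this.congr fun K => ?_
    simp
  obtain ⟨K, hK⟩ := ((tendsto_order.1 hH').2 (Real.eulerMascheroniConstant + ε / 2) (by linarith)).exists
  have h1 := (tendsto_order.1 (lim K)).1 (Real.log (K + 1) - (harmonic (K + 1) - 1 : ℚ) - ε / 2) (by linarith)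
  filter_upwards [h1, eventually_gt_atTop 0] with N hN hN0
  have hNp : (0 : ℝ) < N := by exact_mod_cast hN0
  have h2 := lower N K hN0
  rw [lt_div_iff₀ hNp] at hN
  push_cast at hN hK
  have h3 : (N : ℝ) * (Real.log N - Real.eulerMascheroniConstant - ε) ≤
      N * ∑ k ∈ Icc 1 N, ArithmeticFunction.vonMangoldt k / k := by
    nlinarith
  exact le_of_mul_le_mul_left h3 hNp

end Pool.Agent.N334.W
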