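import Pool.Agent.N334.W.Stm

/-!
# Project WD, part NUM: the final numerical inequality
-/

open Filter Topology

namespace Pool.Agent.N334.W

noncomputable section

namespace NUMaux

lemma log_le_of_pow {x : ℝ} (hx : 0 < x) {k m : ℕ} (hk : 0 < k) (h : x ^ k ≤ 2 ^ m) :
    Real.log x ≤ (m : ℝ) / k * Real.log 2 := by
  have hk' : (0 : ℝ) < k := by exact_mod_cast hk
  have h1 := Real.log_le_log (pow_pos hx k) h
  rw [Real.log_pow, Real.log_pow] at h1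
  rw [div_mul_eq_mul_div, le_div_iff₀ hk']
  linarith

lemma le_log_of_pow {x : ℝ} {k m : ℕ} (hk : 0 < k) (h : (2 : ℝ) ^ m ≤ x ^ k) :
    (m : ℝ) / k * Real.log 2 ≤ Real.log x := by
  have hk' : (0 : ℝ) < k := by exact_mod_cast hk
  have h1 := Real.log_le_log (by positivity) h
  rw [Real.log_pow, Real.log_pow] at h1
  rw [div_mul_eq_mul_div, div_le_iff₀ hk']
  linarith

/-- numerical value of `a0` -/
lemma a0_lt : a0 < -(28 / 5) := by
  have l2a := Real.log_two_gt_d9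
  have l2b := Real.log_two_lt_d9
  have h17 : Real.log (17 / 10) ≤ ((49 : ℕ) : ℝ) / ((64 : ℕ) : ℝ) * Real.log 2 :=
    log_le_of_pow (by norm_num) (by norm_num) (by norm_num)
  have h23 : Real.log (23 / 10) ≤ ((83 : ℕ) : ℝ) / ((69 : ℕ) : ℝ) * Real.log 2 :=
    log_le_of_pow (by norm_num) (by norm_num) (by norm_num)
  have h16 : Real.log (8 / 5) ≤ ((19 : ℕ) : ℝ) / ((28 : ℕ) : ℝ) * Real.log 2 :=
    log_le_of_pow (by norm_num) (by norm_num) (by norm_num)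
  have h33 : ((31 : ℕ) : ℝ) / ((18 : ℕ) : ℝ) * Real.log 2 ≤ Real.log (33 / 10) :=
    le_log_of_pow (by norm_num) (by norm_num)
  have h26 : ((51 : ℕ) : ℝ) / ((37 : ℕ) : ℝ) * Real.log 2 ≤ Real.log (13 / 5) :=
    le_log_of_pow (by norm_num) (by norm_num)
  have h07 : Real.log (10 / 7) ≤ ((35 : ℕ) : ℝ) / ((68 : ℕ) : ℝ) * Real.log 2 :=
    log_le_of_pow (by norm_num) (by norm_num) (by norm_num)
  have h06 : Real.log (5 / 3) ≤ ((45 : ℕ) : ℝ) / ((61 : ℕ) : ℝ) * Real.log 2 :=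
    log_le_of_pow (by norm_num) (by norm_num) (by norm_num)
  have e07 : Real.log (7 / 10) = - Real.log (10 / 7) := by
    rw [← Real.log_inv]; norm_num
  have e06 : Real.log (3 / 5) = - Real.log (5 / 3) := by
    rw [← Real.log_inv]; norm_num
  unfold a0 G2
  rw [e07, e06]
  push_cast at h17 h23 h16 h33 h26 h07 h06
  nlinarith [h17, h23, h16, h33, h26, h07, h06, l2a, l2b]

lemma kappa_gt : (19 : ℝ) / 10 < 3 * Real.log 3 - 2 * Real.log 2 := by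
  have l2a := Real.log_two_gt_d9
  have l2b := Real.log_two_lt_d9
  have h3 : ((19 : ℕ) : ℝ) / ((12 : ℕ) : ℝ) * Real.log 2 ≤ Real.log 3 :=
    le_log_of_pow (by norm_num) (by norm_num)
  push_cast at h3
  linarith

/-- `Hn J - log J → γ` -/
lemma tendsto_Hn : Tendsto (fun J : ℕ => Hn J - Real.log J) atTop (𝓝 Real.eulerMascheroniConstant) := by
  have h := Real.tendsto_harmonic_sub_log
  convert h using 2 with J
  congr 1
  unfold Hn harmonic
  push_cast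
  apply Finset.sum_congr rfl
  intro j _
  rw [one_div]

lemma Hn_pred {J : ℕ} (hJ : 1 ≤ J) : Hn (J - 1) = Hn J - 1 / J := by
  obtain ⟨m, rfl⟩ : ∃ m, J = m + 1 := ⟨J - 1, by omega⟩
  unfold Hn
  rw [Nat.add_sub_cancel, Finset.sum_range_succ]
  push_cast
  ring

end NUMaux

open NUMaux

theorem NUM : S_NUM := by
  intro s h C hs h1 h2
  set γ := Real.eulerMascheroniConstant with hγ
  have hγ2 : γ < 2 / 3 := Real.eulerMascheroniConstant_lt_two_thirds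
  have hs' : (1 : ℝ) ≤ s := by exact_mod_cast hs
  have h1' : 13 * (s : ℝ) ≤ 5 * h := by exact_mod_cast h1
  have h2' : 5 * (h : ℝ) ≤ 15 * s := by exact_mod_cast h2
  set κ := 3 * Real.log 3 - 2 * Real.log 2 with hκ
  have hκ1 : 19 / 10 < κ := kappa_gt
  have ha := a0_lt
  have l2a := Real.log_two_gt_d9
  set A : ℝ := (s : ℝ) ^ 2 * a0 - (s : ℝ) * (5 * h - 13 * (s : ℝ)) / 5 * κ -
    2 * (s : ℝ) ^ 2 * Real.log 2 + 2 * (s : ℝ) ^ 2 * γ + (h : ℝ) * s / 2 with hA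
  -- the limit is negative
  have hL : A + C * 0 + 2 * (s : ℝ) ^ 2 * (1 - 0) + 2 * h * s * (1 - γ) +
      (h : ℝ) ^ 2 / 2 * (γ - 0 / 2 - 1 / 2) < 0 := by
    have e1 : A + C * 0 + 2 * (s : ℝ) ^ 2 * (1 - 0) + 2 * h * s * (1 - γ) +
      (h : ℝ) ^ 2 / 2 * (γ - 0 / 2 - 1 / 2) =
      (s : ℝ) ^ 2 * (a0 - 2 * Real.log 2) - (s : ℝ) * (5 * h - 13 * (s : ℝ)) / 5 * κ +
        (h : ℝ) * s / 2 + 2 * (s : ℝ) ^ 2 + 2 * h * s - (h : ℝ) ^ 2 / 4 +
        ((h : ℝ) - 2 * s) ^ 2 / 2 * γ := by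
      rw [hA]; ring
    rw [e1]
    have e2 : ((h : ℝ) - 2 * s) ^ 2 / 2 * γ ≤ ((h : ℝ) - 2 * s) ^ 2 / 2 * (2 / 3) :=
      mul_le_mul_of_nonneg_left hγ2.le (by positivity)
    have e3 : (s : ℝ) * (5 * h - 13 * (s : ℝ)) / 5 * (19 / 10) ≤
        (s : ℝ) * (5 * h - 13 * (s : ℝ)) / 5 * κ := by
      apply mul_le_mul_of_nonneg_left hκ1.le
      have : 0 ≤ 5 * (h : ℝ) - 13 * (s : ℝ) := by linarith
      positivity
    have e4 : (s : ℝ) ^ 2 * (a0 - 2 * Real.log 2) ≤ (s : ℝ) ^ 2 * (-(28 / 5) - 2 * 0.6931) := by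
      apply mul_le_mul_of_nonneg_left _ (by positivity)
      linarith
    have hs2 : (1 : ℝ) ≤ (s : ℝ) ^ 2 := by nlinarith
    -- the convex quadratic
    have e5 : 0 ≤ (5 * (h : ℝ) - 13 * s) * (15 * s - 5 * h) := by
      apply mul_nonneg <;> linarith
    have e6 : 0 ≤ (5 * (h : ℝ) - 13 * s) * s := by
      apply mul_nonneg <;> linarith
    nlinarith
  have hD := tendsto_Hn
  have hE : Tendsto (fun J : ℕ => 1 / (J : ℝ)) atTop (𝓝 0) := tendsto_one_div_atTop_nhds_zero_nat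
  have hlim : Tendsto (fun J : ℕ => A + C * (1 / (J : ℝ)) + 2 * (s : ℝ) ^ 2 * (1 - 1 / (J : ℝ)) +
      2 * h * s * (1 - (Hn J - Real.log J)) +
      (h : ℝ) ^ 2 / 2 * ((Hn J - Real.log J) - (1 / (J : ℝ)) / 2 - 1 / 2)) atTop
      (𝓝 (A + C * 0 + 2 * (s : ℝ) ^ 2 * (1 - 0) + 2 * h * s * (1 - γ) +
      (h : ℝ) ^ 2 / 2 * (γ - 0 / 2 - 1 / 2))) := by
    apply Tendsto.add
    · apply Tendsto.add
      · apply Tendsto.add
        · exact tendsto_const_nhds.add (hE.const_mul C)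
        · exact (tendsto_const_nhds.sub hE).const_mul _
      · exact (tendsto_const_nhds.sub hD).const_mul _
    · exact ((hD.sub (hE.div_const 2)).sub tendsto_const_nhds).const_mul _
  have hev := hlim.eventually (gt_mem_nhds hL)
  obtain ⟨J, hJ, hJ1⟩ := (hev.and (eventually_ge_atTop 1)).exists
  refine ⟨J, hJ1, ?_⟩
  have hfin : (s : ℝ) ^ 2 * a0 - (s : ℝ) * (5 * h - 13 * (s : ℝ)) / 5 * κ -
    2 * (s : ℝ) ^ 2 * Real.log 2 + 2 * (s : ℝ) ^ 2 * Real.log J +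
    2 * (s : ℝ) ^ 2 * γ + C / J + e0 s h J + (h : ℝ) * s / 2 =
    A + C * (1 / (J : ℝ)) + 2 * (s : ℝ) ^ 2 * (1 - 1 / (J : ℝ)) +
      2 * h * s * (1 - (Hn J - Real.log J)) +
      (h : ℝ) ^ 2 / 2 * ((Hn J - Real.log J) - (1 / (J : ℝ)) / 2 - 1 / 2) := by
    unfold e0
    rw [Hn_pred hJ1, hA]
    ring
  rw [hfin]
  exact hJ

end

end Pool.Agent.N334.W
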