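import Pool.Agent.N334.W.Stm

/-!
# OM1: Taylor expansion of a term of the linear form
-/

set_option autoImplicit false

open Polynomial Pool.Agent.H337R2

namespace Pool.Agent.N334.W

theorem OM1 : S_OM1 := by
  intro b h n t Q
  obtain ⟨x, hx⟩ : ∃ x, x = t * (t + ((4 * n : ℕ) : ℚ)) := ⟨_, rfl⟩
  rw [← hx]
  obtain ⟨y, hy⟩ : ∃ y : PowerSeries ℚ,
      y = PowerSeries.X * (PowerSeries.X + PowerSeries.C (2 * t + ((4 * n : ℕ) : ℚ))) := ⟨_, rfl⟩
  have hTS : TS t (xp n - C x) = y := by
    unfold xp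
    rw [map_sub, map_mul, TS_X, TS_lin, TS_C, hx, hy]
    have e1 : (PowerSeries.C (2 * t + ((4 * n : ℕ) : ℚ)) : PowerSeries ℚ) =
        PowerSeries.C t + PowerSeries.C (t + ((4 * n : ℕ) : ℚ)) := by
      rw [← map_add]
      congr 1
      ring
    rw [e1, map_mul]
    ring
  obtain ⟨N, hN⟩ : ∃ N, N = max (b + 1) ((Polynomial.taylor x Q).natDegree + 1) := ⟨_, rfl⟩
  have hbN : b + 1 ≤ N := by rw [hN]; exact le_max_left _ _
  have hQ : Q.comp (xp n) = ∑ k ∈ Finset.range N, C ((hasseDeriv k Q).eval x) * (xp n - C x) ^ k := by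
    have h1 : Q.comp (xp n) = (Polynomial.taylor x Q).comp (xp n - C x) := by
      rw [Polynomial.taylor_apply, Polynomial.comp_assoc]
      congr 1
      simp
    rw [h1, Polynomial.comp_eq_sum_left, Polynomial.sum_over_range' _ _ N]
    · refine Finset.sum_congr rfl fun k _ => ?_
      rw [Polynomial.taylor_coeff]
    · rw [hN]
      exact lt_of_lt_of_le (Nat.lt_succ_self _) (le_max_right _ _)
    · intro k
      simp
  have hRS : RS (sN n) (mu h) (PN h n * Q.comp (xp n)) t =
      ∑ k ∈ Finset.range N, PowerSeries.C ((hasseDeriv k Q).eval x) *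
        (RS (sN n) (mu h) (PN h n) t * y ^ k) := by
    unfold RS
    rw [map_mul, hQ, map_sum, Finset.mul_sum, Finset.sum_mul]
    refine Finset.sum_congr rfl fun k _ => ?_
    rw [map_mul, map_pow, hTS, TS_C]
    ring
  rw [hRS, map_sum]
  have hz : ∀ k ∈ Finset.range N, k ∉ Finset.range (b + 1) →
      PowerSeries.coeff b (PowerSeries.C ((hasseDeriv k Q).eval x) *
        (RS (sN n) (mu h) (PN h n) t * y ^ k)) = 0 := by
    intro k _ hk
    rw [Finset.mem_range, not_lt] at hk
    have h1 : PowerSeries.C ((hasseDeriv k Q).eval x) *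
        (RS (sN n) (mu h) (PN h n) t * y ^ k) = PowerSeries.X ^ k *
        (PowerSeries.C ((hasseDeriv k Q).eval x) * (RS (sN n) (mu h) (PN h n) t *
          (PowerSeries.X + PowerSeries.C (2 * t + ((4 * n : ℕ) : ℚ))) ^ k)) := by
      rw [hy, mul_pow]
      ring
    rw [h1, PowerSeries.coeff_X_pow_mul', if_neg (by omega)]
  rw [← Finset.sum_subset (Finset.range_subset_range.2 hbN) hz]
  refine Finset.sum_congr rfl fun k _ => ?_
  rw [PowerSeries.coeff_C_mul, om, ← hy]
  ring

end Pool.Agent.N334.W
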