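import Pool.Agent.N334.W.Stm
import Pool.Agent.N334.W.RED
import Pool.Agent.N334.W.OMP
import Pool.Agent.N334.W.OM1

/-!
# Project WD: non-vanishing at `p = 2n+1`
-/

open Polynomial Pool.Agent.H337R2

namespace Pool.Agent.N334.W

noncomputable section

/-! ### a primitive polynomial in the kernel of the Hankel matrix -/

lemma nv_kernelQ (L : ℚ[X] →ₗ[ℚ] ℚ) (m : ℕ)
    (h0 : (Matrix.of fun i j : Fin m => L (X ^ (i.1 + j.1))).det = 0) :
    ∃ P : ℚ[X], P ≠ 0 ∧ P.natDegree < m ∧ ∀ Q : ℚ[X], Q.natDegree < m → L (P * Q) = 0 := by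
  obtain ⟨v, hv, hMv⟩ := Matrix.exists_mulVec_eq_zero_iff.2 h0
  obtain ⟨j0, hj0⟩ := Function.ne_iff.1 hv
  have hm : 0 < m := lt_of_le_of_lt (Nat.zero_le _) j0.2
  obtain ⟨P, hP⟩ : ∃ P : ℚ[X], P = ∑ j : Fin m, C (v j) * X ^ (j : ℕ) := ⟨_, rfl⟩
  have hcoef : P.coeff j0 = v j0 := by
    rw [hP, finsetSum_coeff]
    simp only [coeff_C_mul, coeff_X_pow]
    rw [Finset.sum_eq_single j0]
    · simp
    · intro j _ hj
      rw [if_neg (fun h => hj (Fin.ext h.symm)), mul_zero]
    · intro h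
      exact absurd (Finset.mem_univ _) h
  have hX : ∀ i, i < m → L (P * X ^ i) = 0 := by
    intro i hi
    have h1 := congrFun hMv ⟨i, hi⟩
    rw [Matrix.mulVec, dotProduct] at h1
    rw [hP, Finset.sum_mul, map_sum]
    refine Eq.trans (Finset.sum_congr rfl fun j _ => ?_) h1
    rw [Matrix.of_apply, mul_assoc, ← pow_add, ← smul_eq_C_mul, map_smul, smul_eq_mul, mul_comm]
    congr 2
    rw [add_comm]
  refine ⟨P, ?_, ?_, ?_⟩
  · intro h
    rw [h, coeff_zero] at hcoef
    exact hj0 hcoef.symm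
  · rw [hP]
    refine lt_of_le_of_lt (natDegree_sum_le_of_forall_le (n := m - 1) _ _ fun j _ => ?_) (by omega)
    refine (natDegree_C_mul_X_pow_le _ _).trans ?_
    have := j.2
    omega
  · intro Q hQ
    rw [Q.as_sum_range_C_mul_X_pow' hQ, Finset.mul_sum, map_sum]
    refine Finset.sum_eq_zero fun i hi => ?_
    have e : P * (C (Q.coeff i) * X ^ i) = Q.coeff i • (P * X ^ i) := by
      rw [smul_eq_C_mul]
      ring
    rw [e, map_smul, hX i (Finset.mem_range.1 hi), smul_zero]

lemma nv_kernel (L : ℚ[X] →ₗ[ℚ] ℚ) (m : ℕ)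
    (h0 : (Matrix.of fun i j : Fin m => L (X ^ (i.1 + j.1))).det = 0) :
    ∃ P : ℤ[X], P.IsPrimitive ∧ P.natDegree < m ∧ ∀ Q : ℤ[X], Q.natDegree < m →
      L ((P * Q).map (Int.castRingHom ℚ)) = 0 := by
  obtain ⟨P0, hP0, hdeg, hL⟩ := nv_kernelQ L m h0
  obtain ⟨b, hb₁, hb⟩ := IsLocalization.integerNormalization_spec (nonZeroDivisors ℤ) P0
  obtain ⟨P1, hP1⟩ : ∃ P1, P1 = IsLocalization.integerNormalization (nonZeroDivisors ℤ) P0 :=
    ⟨_, rfl⟩
  rw [← hP1] at hb
  have hb0 : b ≠ 0 := nonZeroDivisors.ne_zero hb₁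
  have hbQ : (b : ℚ) ≠ 0 := by exact_mod_cast hb0
  have hb' : P1.map (Int.castRingHom ℚ) = C (b : ℚ) * P0 := by
    have : P1.map (algebraMap ℤ ℚ) = b • P0 := hb
    rw [algebraMap_int_eq] at this
    rw [this, zsmul_eq_mul]
    simp
  have hP1ne : P1 ≠ 0 := by
    rintro rfl
    rw [Polynomial.map_zero] at hb'
    exact mul_ne_zero (C_ne_zero.2 hbQ) hP0 hb'.symm
  have hc0 : P1.content ≠ 0 := fun h => hP1ne (content_eq_zero_iff.1 h)
  have hcQ : (P1.content : ℚ) ≠ 0 := by exact_mod_cast hc0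
  have hfac := P1.eq_C_content_mul_primPart
  have hmap : P1.map (Int.castRingHom ℚ) =
      C (P1.content : ℚ) * P1.primPart.map (Int.castRingHom ℚ) := by
    conv_lhs => rw [hfac]
    rw [Polynomial.map_mul, Polynomial.map_C]
    rfl
  have hprim : P1.primPart.map (Int.castRingHom ℚ) = C ((b : ℚ) / (P1.content : ℚ)) * P0 := by
    have h1 : C (P1.content : ℚ) * P1.primPart.map (Int.castRingHom ℚ) =
        C (P1.content : ℚ) * (C ((b : ℚ) / (P1.content : ℚ)) * P0) := by
      rw [← hmap, hb', ← mul_assoc, ← C_mul, mul_div_cancel₀ _ hcQ]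
    exact mul_left_cancel₀ (C_ne_zero.2 hcQ) h1
  refine ⟨P1.primPart, P1.isPrimitive_primPart, ?_, ?_⟩
  · have h1 : P1.natDegree = P0.natDegree := by
      rw [← natDegree_map_eq_of_injective (RingHom.injective_int (Int.castRingHom ℚ)) P1, hb',
        natDegree_C_mul hbQ]
    rw [natDegree_primPart, h1]
    exact hdeg
  · intro Q hQ
    rw [Polynomial.map_mul, hprim, mul_assoc, ← smul_eq_C_mul, map_smul, hL, smul_zero]
    exact lt_of_le_of_lt natDegree_map_le hQ

/-! ### nodes -/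

/-- the nodes `x(-c)` -/
def nvx (n c : ℕ) : ℤ := -(c : ℤ) * (-(c : ℤ) + ((4 * n : ℕ) : ℤ))

lemma nvx_eval (F : ℤ[X]) (n c k : ℕ) :
    (hasseDeriv k (F.map (Int.castRingHom ℚ))).eval (-(c : ℚ) * (-(c : ℚ) + ((4 * n : ℕ) : ℚ))) =
      (((taylor (nvx n c) F).coeff k : ℤ) : ℚ) := by
  have h1 : (-(c : ℚ) * (-(c : ℚ) + ((4 * n : ℕ) : ℚ))) = Int.castRingHom ℚ (nvx n c) := by
    simp [nvx]
  rw [h1, ← taylor_coeff, ← map_taylor, coeff_map]
  rfl

lemma nvx_ne {n c c' : ℕ} (hp : (2 * n + 1).Prime) (hc : 1 ≤ c) (hc2 : c ≤ n - 1) (hc' : 1 ≤ c')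
    (hc2' : c' ≤ n - 1) (hne : c ≠ c') :
    ((nvx n c : ℤ) : ZMod (2 * n + 1)) ≠ ((nvx n c' : ℤ) : ZMod (2 * n + 1)) := by
  intro h
  rw [ZMod.intCast_eq_intCast_iff_dvd_sub] at h
  have e : nvx n c' - nvx n c = ((c : ℤ) - c') * (4 * n - c - c') := by
    unfold nvx
    push_cast
    ring
  rw [e] at h
  have hp' : Prime ((2 * n + 1 : ℕ) : ℤ) := Nat.prime_iff_prime_int.1 hp
  have b1 : (1 : ℤ) ≤ c := by exact_mod_cast hc
  have b2 : (c : ℤ) + 1 ≤ n := by omega
  have b3 : (1 : ℤ) ≤ c' := by exact_mod_cast hc'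
  have b4 : (c' : ℤ) + 1 ≤ n := by omega
  rcases hp'.dvd_or_dvd h with h1 | h1
  · obtain ⟨k, hk⟩ := h1
    push_cast at hk
    have hk0 : k ≠ 0 := by
      rintro rfl
      rw [mul_zero] at hk
      omega
    rcases lt_or_gt_of_ne hk0 with h2 | h2
    · nlinarith
    · nlinarith
  · obtain ⟨k, hk⟩ := h1
    push_cast at hk
    rcases le_or_gt k 1 with h2 | h2
    · nlinarith
    · nlinarith

/-! ### the p-adic descent -/

/-- triangular descent -/
lemma nv_descent {p : ℕ} [hp : Fact p.Prime] {b h : ℕ} (ω : ℕ → ℚ) (w : ℕ → ℤ)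
    (h1 : ∀ k, k ≤ b → padicNorm p (ω k) ≤ (p : ℚ) ^ (h + b - k))
    (h2 : padicNorm p (ω b) = (p : ℚ) ^ h)
    (h3 : ∀ a i, a + i = b → padicNorm p (∑ j ∈ Finset.range (i + 1), ω (a + j) * (w j : ℚ)) ≤ 1) :
    ∀ i, i ≤ b → padicNorm p (w i : ℚ) * (p : ℚ) ^ h ≤ (p : ℚ) ^ i := by
  have hp1 : (1 : ℚ) ≤ p := by exact_mod_cast hp.out.one_lt.le
  have hp0 : (0 : ℚ) < p := by linarith
  intro i
  induction i using Nat.strong_induction_on with
  | _ i ih =>
    intro hi
    have h4 := h3 (b - i) i (by omega)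
    rw [Finset.sum_range_succ, show b - i + i = b by omega] at h4
    have h5 : padicNorm p (∑ j ∈ Finset.range i, ω (b - i + j) * (w j : ℚ)) ≤ (p : ℚ) ^ i := by
      refine padicNorm.sum_le' (fun j hj => ?_) (by positivity)
      have hj' : j < i := Finset.mem_range.1 hj
      rw [padicNorm.mul]
      have h6 := h1 (b - i + j) (by omega)
      have h7 := ih j hj' (by omega)
      have e : h + b - (b - i + j) = (i - j) + h := by omega
      rw [e, pow_add] at h6
      calc padicNorm p (ω (b - i + j)) * padicNorm p (w j : ℚ)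
          ≤ ((p : ℚ) ^ (i - j) * (p : ℚ) ^ h) * padicNorm p (w j : ℚ) :=
            mul_le_mul_of_nonneg_right h6 (padicNorm.nonneg _)
        _ = (p : ℚ) ^ (i - j) * (padicNorm p (w j : ℚ) * (p : ℚ) ^ h) := by ring
        _ ≤ (p : ℚ) ^ (i - j) * (p : ℚ) ^ j := mul_le_mul_of_nonneg_left h7 (by positivity)
        _ = (p : ℚ) ^ i := by rw [← pow_add]; congr 1; omega
    have h8 : ω b * (w i : ℚ) = (∑ j ∈ Finset.range i, ω (b - i + j) * (w j : ℚ) + ω b * (w i : ℚ)) -
        ∑ j ∈ Finset.range i, ω (b - i + j) * (w j : ℚ) := by ring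
    have h9 : padicNorm p (ω b * (w i : ℚ)) ≤ (p : ℚ) ^ i := by
      rw [h8]
      refine padicNorm.sub.trans (max_le (h4.trans (one_le_pow₀ hp1)) h5)
    rw [padicNorm.mul, h2, mul_comm] at h9
    exact h9

/-- the product of the other nodes -/
def nvG (b n c0 : ℕ) : ℤ[X] :=
  ∏ c ∈ (Finset.Icc 1 (n - 1)).erase c0, (X - C (nvx n c)) ^ (b + 1)

theorem NV_of : S_RED → S_OMP → S_NV := by
  intro hRED hOMP b h n q u hb hh hp hq hu hdet
  have hpF : Fact (2 * n + 1).Prime := ⟨hp⟩
  set p : ℕ := 2 * n + 1 with hpdef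
  have hn1 : 1 ≤ n := by
    by_contra hcon
    have : n = 0 := by omega
    subst this
    exact Nat.not_prime_one hp
  obtain ⟨P, hprim, hdeg, hker⟩ := nv_kernel (NL b h n u) ((b + 1) * (n - 1)) hdet
  have hn2 : 2 ≤ n := by
    by_contra hcon
    have : n = 1 := by omega
    subst this
    simp at hdeg
  obtain ⟨N, hN⟩ : ∃ N, n = N + 2 := ⟨n - 2, by omega⟩
  have hNn : n - 1 = N + 1 := by omega
  set φ : ℤ →+* ZMod p := Int.castRingHom (ZMod p) with hφ
  have hqn : padicNorm p (q : ℚ) = 1 := (padicNorm.nat_eq_one_iff q).2 hq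
  -- the local statement
  have hloc : ∀ c0 ∈ Finset.Icc 1 (n - 1),
      (X - C ((nvx n c0 : ℤ) : ZMod p)) ^ (b + 1) ∣ P.map φ := by
    intro c0 hc0
    have hc0' := Finset.mem_Icc.1 hc0
    obtain ⟨hO1, hO2⟩ := hOMP b h n p c0 hn1 hp (by omega) hc0'.1 (by omega)
    have hGdeg : (nvG b n c0).natDegree ≤ (b + 1) * N := by
      unfold nvG
      refine (natDegree_prod_le _ _).trans ?_
      have hcard : ((Finset.Icc 1 (n - 1)).erase c0).card = N := by
        rw [Finset.card_erase_of_mem hc0, Nat.card_Icc]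
        omega
      calc ∑ c ∈ (Finset.Icc 1 (n - 1)).erase c0, ((X - C (nvx n c)) ^ (b + 1)).natDegree
          ≤ ∑ _c ∈ (Finset.Icc 1 (n - 1)).erase c0, (b + 1) := by
            refine Finset.sum_le_sum fun c _ => natDegree_pow_le.trans (le_of_eq ?_)
            rw [natDegree_X_sub_C, mul_one]
        _ = (b + 1) * N := by rw [Finset.sum_const, hcard, smul_eq_mul, mul_comm]
    set W : ℤ[X] := taylor (nvx n c0) (P * nvG b n c0) with hW
    have hdesc := nv_descent (p := p) (b := b) (h := h) (fun k => om b h n (-(c0 : ℚ)) k)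
      (fun i => W.coeff i) hO1 hO2 (by
        intro a i hai
        have hQdeg : ((X - C (nvx n c0)) ^ a * nvG b n c0).natDegree < (b + 1) * (n - 1) := by
          refine lt_of_le_of_lt natDegree_mul_le ?_
          have h1 : ((X - C (nvx n c0)) ^ a).natDegree ≤ a := natDegree_pow_le.trans (by
            rw [natDegree_X_sub_C, mul_one])
          have h2 : (b + 1) * (n - 1) = (b + 1) * N + (b + 1) := by rw [hNn]; ring
          omega
        have hk := hker _ hQdeg
        have hF : 2 * (P * ((X - C (nvx n c0)) ^ a * nvG b n c0)).natDegree + 1 <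
            h * (2 * n + 1) := by
          have h1 : (P * ((X - C (nvx n c0)) ^ a * nvG b n c0)).natDegree ≤
              P.natDegree + ((X - C (nvx n c0)) ^ a * nvG b n c0).natDegree := natDegree_mul_le
          have h2 : 2 * (b + 1) * (2 * n + 1) ≤ h * (2 * n + 1) := Nat.mul_le_mul_right _ hh
          have h3 : 4 * ((b + 1) * (n - 1)) < 2 * (b + 1) * (2 * n + 1) := by
            rw [hNn, hN]
            nlinarith
          omega
        have hr := hRED b h n q p u _ hb hn1 hp (by omega) hu hF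
        rw [hk, zero_add, padicNorm.mul, hqn, one_mul] at hr
        have hp3 : 3 * n - p = n - 1 := by omega
        rw [hp3, Finset.sum_eq_single_of_mem c0 hc0] at hr
        · have e : ∑ k ∈ Finset.range (b + 1), om b h n (-(c0 : ℚ)) k *
              (hasseDeriv k ((P * ((X - C (nvx n c0)) ^ a * nvG b n c0)).map
                (Int.castRingHom ℚ))).eval (-(c0 : ℚ) * (-(c0 : ℚ) + ((4 * n : ℕ) : ℚ))) =
              ∑ j ∈ Finset.range (i + 1), om b h n (-(c0 : ℚ)) (a + j) * (W.coeff j : ℚ) := by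
            have hb1 : b + 1 = a + (i + 1) := by omega
            have hT : ∀ k, (taylor (nvx n c0) (P * ((X - C (nvx n c0)) ^ a * nvG b n c0))).coeff k =
                if a ≤ k then W.coeff (k - a) else 0 := by
              intro k
              have e2 : P * ((X - C (nvx n c0)) ^ a * nvG b n c0) =
                  (X - C (nvx n c0)) ^ a * (P * nvG b n c0) := by ring
              rw [e2, taylor_mul, taylor_pow]
              have e3 : taylor (nvx n c0) (X - C (nvx n c0)) = X := by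
                rw [map_sub, taylor_X, taylor_C, add_sub_cancel_right]
              rw [e3, coeff_X_pow_mul']
            rw [hb1, Finset.sum_range_add, Finset.sum_eq_zero, zero_add]
            · refine Finset.sum_congr rfl fun j _ => ?_
              rw [nvx_eval, hT, if_pos (Nat.le_add_right a j), Nat.add_sub_cancel_left]
            · intro k hk
              rw [nvx_eval, hT, if_neg (by have := Finset.mem_range.1 hk; omega)]
              simp
          rw [e] at hr
          exact hr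
        · intro c hc hcne
          refine Finset.sum_eq_zero fun k hk => ?_
          have hdvd : (X - C (nvx n c)) ^ (b + 1) ∣
              P * ((X - C (nvx n c0)) ^ a * nvG b n c0) := by
            refine Dvd.dvd.mul_left (Dvd.dvd.mul_left ?_ _) _
            exact Finset.dvd_prod_of_mem _ (Finset.mem_erase.2 ⟨hcne, hc⟩)
          obtain ⟨H, hH⟩ := hdvd
          rw [nvx_eval, hH, taylor_mul, taylor_pow]
          have e3 : taylor (nvx n c) (X - C (nvx n c)) = X := by
            rw [map_sub, taylor_X, taylor_C, add_sub_cancel_right]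
          rw [e3, coeff_X_pow_mul', if_neg (by have := Finset.mem_range.1 hk; omega)]
          simp)
    have hWp : ∀ i < b + 1, (W.map φ).coeff i = 0 := by
      intro i hi
      have h1 := hdesc i (by omega)
      rw [coeff_map]
      change ((W.coeff i : ℤ) : ZMod p) = 0
      rw [ZMod.intCast_zmod_eq_zero_iff_dvd, ← padicNorm.int_lt_one_iff]
      have hpp : (1 : ℚ) < p := by exact_mod_cast hp.one_lt
      have h2 : (p : ℚ) ^ i < (p : ℚ) ^ h := pow_lt_pow_right₀ hpp (by omega)
      have h3 : (0 : ℚ) < (p : ℚ) ^ h := by positivity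
      by_contra hcon
      push Not at hcon
      have h4 : (p : ℚ) ^ h ≤ padicNorm p ((W.coeff i : ℤ) : ℚ) * (p : ℚ) ^ h :=
        le_mul_of_one_le_left h3.le hcon
      linarith
    have hX := X_pow_dvd_iff.2 hWp
    rw [hW, map_taylor, taylor_apply, ← X_sub_C_pow_dvd_iff, Polynomial.map_mul] at hX
    refine IsCoprime.dvd_of_dvd_mul_right ?_ hX
    unfold nvG
    rw [Polynomial.map_prod]
    refine IsCoprime.prod_right fun c hc => ?_
    rw [Polynomial.map_pow, Polynomial.map_sub, Polynomial.map_X, Polynomial.map_C]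
    refine IsCoprime.pow (isCoprime_X_sub_C_of_isUnit_sub ?_)
    rw [isUnit_iff_ne_zero, sub_ne_zero]
    have hc1 := Finset.mem_erase.1 hc
    have hc2 := Finset.mem_Icc.1 hc1.2
    exact nvx_ne hp hc0'.1 hc0'.2 hc2.1 hc2.2 (fun h => hc1.1 h.symm)
  -- the global statement
  have hall : (∏ c ∈ Finset.Icc 1 (n - 1), (X - C ((nvx n c : ℤ) : ZMod p)) ^ (b + 1)) ∣
      P.map φ := by
    refine Finset.prod_dvd_of_coprime ?_ hloc
    intro c hc c' hc' hcc
    have h1 := Finset.mem_Icc.1 hc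
    have h2 := Finset.mem_Icc.1 hc'
    refine IsCoprime.pow (isCoprime_X_sub_C_of_isUnit_sub ?_)
    rw [isUnit_iff_ne_zero, sub_ne_zero]
    exact nvx_ne hp h1.1 h1.2 h2.1 h2.2 hcc
  have hP0 : P.map φ = 0 := by
    by_contra hcon
    have h1 := natDegree_le_of_dvd hall hcon
    have h2 : (∏ c ∈ Finset.Icc 1 (n - 1),
        (X - C ((nvx n c : ℤ) : ZMod p)) ^ (b + 1)).natDegree = (b + 1) * (n - 1) := by
      rw [natDegree_prod_of_monic _ _ fun c _ => (monic_X_sub_C _).pow _]
      rw [Finset.sum_congr rfl fun c _ => (monic_X_sub_C _).natDegree_pow _]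
      simp only [natDegree_X_sub_C, mul_one]
      rw [Finset.sum_const, Nat.card_Icc, smul_eq_mul, mul_comm]
      congr 1
    have h3 : (P.map φ).natDegree ≤ P.natDegree := natDegree_map_le
    omega
  have hdvd : C ((p : ℕ) : ℤ) ∣ P := by
    rw [C_dvd_iff_dvd_coeff]
    intro i
    have h1 : (P.map φ).coeff i = 0 := by rw [hP0, coeff_zero]
    rw [coeff_map] at h1
    exact (ZMod.intCast_zmod_eq_zero_iff_dvd _ _).1 h1
  have hunit := hprim _ hdvd
  rw [Int.isUnit_iff] at hunit
  have := hp.two_le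
  omega

theorem NV : S_NV := NV_of (RED_of OM1) OMP

end

end Pool.Agent.N334.W
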