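import Pool.Agent.N334.W.Stm

/-!
# OM2: bound of the coefficients `ω(t, k)` (helper755)
-/

set_option autoImplicit false

open Polynomial Pool.Agent.H337R2

namespace Pool.Agent.N334.W

noncomputable section

/-- the coefficients of `f` are bounded by `A r ^ j` -/
def OM2_Maj (f : PowerSeries ℚ) (A r : ℚ) : Prop := ∀ j : ℕ, |PowerSeries.coeff j f| ≤ A * r ^ j

lemma OM2_mono {f : PowerSeries ℚ} {A r r' : ℚ} (h : OM2_Maj f A r) (hA : 0 ≤ A) (hr : 0 ≤ r) (hrr : r ≤ r') :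
    OM2_Maj f A r' := fun j => (h j).trans (mul_le_mul_of_nonneg_left (pow_le_pow_left₀ hr hrr j) hA)

lemma OM2_mul {f g : PowerSeries ℚ} {A B a b : ℚ} (hf : OM2_Maj f A a) (hg : OM2_Maj g B b) (hA : 0 ≤ A)
    (hB : 0 ≤ B) (ha : 0 ≤ a) (hb : 0 ≤ b) : OM2_Maj (f * g) (A * B) (a + b) := by
  intro j
  rw [PowerSeries.coeff_mul, (Commute.all a b).add_pow', Finset.mul_sum]
  refine (Finset.abs_sum_le_sum_abs _ _).trans (Finset.sum_le_sum fun p hp => ?_)
  rw [abs_mul, nsmul_eq_mul]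
  have h1 : |PowerSeries.coeff p.1 f| * |PowerSeries.coeff p.2 g| ≤ (A * a ^ p.1) * (B * b ^ p.2) :=
    mul_le_mul (hf _) (hg _) (abs_nonneg _) (by positivity)
  refine h1.trans ?_
  have h2 : (1 : ℚ) ≤ ((j.choose p.1 : ℕ) : ℚ) := by
    have h3 : 0 < j.choose p.1 := Nat.choose_pos (Finset.HasAntidiagonal.mem_antidiagonal.mp hp ▸ Nat.le_add_right _ _)
    exact_mod_cast h3
  have h3 : 0 ≤ a ^ p.1 * b ^ p.2 := by positivity
  have h4 : a ^ p.1 * b ^ p.2 ≤ ((j.choose p.1 : ℕ) : ℚ) * (a ^ p.1 * b ^ p.2) := by nlinarith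
  calc (A * a ^ p.1) * (B * b ^ p.2) = A * B * (a ^ p.1 * b ^ p.2) := by ring
    _ ≤ A * B * (((j.choose p.1 : ℕ) : ℚ) * (a ^ p.1 * b ^ p.2)) :=
        mul_le_mul_of_nonneg_left h4 (by positivity)

lemma OM2_one : OM2_Maj 1 1 0 := by
  intro j
  rw [PowerSeries.coeff_one]
  split_ifs with h
  · subst h
    simp
  · simp [h]

lemma OM2_C (c : ℚ) : OM2_Maj (PowerSeries.C c) |c| 0 := by
  intro j
  rw [PowerSeries.coeff_C]
  split_ifs with h
  · subst h
    simp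
  · simp [h]

lemma OM2_pow {f : PowerSeries ℚ} {A a : ℚ} (hf : OM2_Maj f A a) (hA : 0 ≤ A) (ha : 0 ≤ a) (k : ℕ) :
    OM2_Maj (f ^ k) (A ^ k) (k * a) := by
  induction k with
  | zero => simpa using OM2_one
  | succ k ih =>
    have := OM2_mul ih hf (by positivity) hA (by positivity) ha
    rw [pow_succ, pow_succ]
    have e1 : ((k + 1 : ℕ) : ℚ) * a = (k : ℚ) * a + a := by
      push_cast
      ring
    rw [e1]
    exact this

lemma OM2_prod {ι : Type*} (s : Finset ι) (f : ι → PowerSeries ℚ) (A a : ι → ℚ)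
    (hf : ∀ i ∈ s, OM2_Maj (f i) (A i) (a i)) (hA : ∀ i ∈ s, 0 ≤ A i) (ha : ∀ i ∈ s, 0 ≤ a i) :
    OM2_Maj (∏ i ∈ s, f i) (∏ i ∈ s, A i) (∑ i ∈ s, a i) := by
  classical
  induction s using Finset.induction_on with
  | empty => simpa using OM2_one
  | insert i s hi ih =>
    rw [Finset.prod_insert hi, Finset.prod_insert hi, Finset.sum_insert hi]
    refine OM2_mul (hf i (Finset.mem_insert_self _ _))
      (ih (fun j hj => hf j (Finset.mem_insert_of_mem hj)) (fun j hj => hA j (Finset.mem_insert_of_mem hj))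
        (fun j hj => ha j (Finset.mem_insert_of_mem hj))) (hA i (Finset.mem_insert_self _ _)) ?_
      (ha i (Finset.mem_insert_self _ _)) ?_
    · exact Finset.prod_nonneg fun j hj => hA j (Finset.mem_insert_of_mem hj)
    · exact Finset.sum_nonneg fun j hj => ha j (Finset.mem_insert_of_mem hj)

lemma OM2_iv {a : ℚ} (ha : 0 < a) : OM2_Maj (iv a) (1 / a) (1 / a) := by
  intro j
  rw [iv, PowerSeries.coeff_mk, abs_div, abs_pow, abs_neg, abs_one, one_pow, abs_of_pos (by positivity)]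
  apply le_of_eq
  rw [pow_succ, one_div, one_div, inv_pow, mul_comm, mul_inv]

lemma OM2_lin {g u : ℚ} (hg : 0 < g) (hu : 0 ≤ u) (hug : u ≤ g) :
    OM2_Maj (PowerSeries.C u * PowerSeries.X + PowerSeries.C g) g 1 := by
  intro j
  rw [map_add, one_pow, mul_one]
  rcases j with _ | j
  · simp [abs_of_pos hg]
  · rw [PowerSeries.coeff_C_mul, PowerSeries.coeff_X, PowerSeries.coeff_C, if_neg (Nat.succ_ne_zero j), add_zero]
    split_ifs with h
    · rw [mul_one, abs_of_nonneg hu]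
      exact hug
    · simp [hg.le]

lemma OM2_RS (h n t : ℕ) (hn : 1 ≤ n) : OM2_Maj (RS (sN n) (mu h) (PN h n) (t : ℚ))
    (((2 * n).factorial : ℚ) ^ h * (2 * t + 4 * n) * (∏ k ∈ sN n, (1 / ((t : ℚ) + k))) ^ h) (1 + 3 * h) := by
  have hnq : (1 : ℚ) ≤ n := by exact_mod_cast hn
  have htq : (0 : ℚ) ≤ t := Nat.cast_nonneg t
  have hg : (0 : ℚ) < 2 * t + 4 * n := by positivity
  have h1 : TS (t : ℚ) (PN h n) = PowerSeries.C (((2 * n).factorial : ℚ) ^ h) *
      (PowerSeries.C 2 * PowerSeries.X + PowerSeries.C (2 * (t : ℚ) + 4 * n)) := by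
    unfold PN
    rw [map_mul, TS_C, map_add, map_mul, TS_X, TS_C]
    have e2 : (TS (t : ℚ)) 2 = PowerSeries.C 2 := by
      have := TS_C (t : ℚ) 2
      rwa [show (C (2 : ℚ) : ℚ[X]) = 2 from rfl] at this
    rw [e2]
    congr 1
    rw [mul_add, ← map_mul, add_assoc, ← map_add]
    congr 3
    push_cast
    ring
  have h2 : OM2_Maj (TS (t : ℚ) (PN h n)) (((2 * n).factorial : ℚ) ^ h * (2 * t + 4 * n)) (0 + 1) := by
    rw [h1]
    have e1 := OM2_C (((2 * n).factorial : ℚ) ^ h)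
    rw [abs_of_nonneg (by positivity)] at e1
    exact OM2_mul e1 (OM2_lin hg (by norm_num) (by linarith)) (by positivity) hg.le le_rfl zero_le_one
  have hpos : ∀ k ∈ sN n, (0 : ℚ) < (t : ℚ) + k := by
    intro k hk
    rw [Finset.mem_Icc] at hk
    have : (1 : ℚ) ≤ k := by exact_mod_cast hn.trans hk.1
    linarith
  have h3 : OM2_Maj (VV (sN n) (mu h) (t : ℚ)) (∏ k ∈ sN n, (1 / ((t : ℚ) + k)) ^ h)
      (∑ k ∈ sN n, (h : ℚ) * (1 / ((t : ℚ) + k))) := by
    unfold VV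
    refine OM2_prod _ _ _ _ (fun k hk => ?_) (fun k hk => ?_) (fun k hk => ?_)
    · have := hpos k hk
      exact OM2_pow (OM2_iv this) (by positivity) (by positivity) h
    · have := hpos k hk
      positivity
    · have := hpos k hk
      positivity
  have h4 : ∑ k ∈ sN n, (h : ℚ) * (1 / ((t : ℚ) + k)) ≤ 3 * h := by
    have e1 : ∀ k ∈ sN n, (h : ℚ) * (1 / ((t : ℚ) + k)) ≤ (h : ℚ) * (1 / n) := by
      intro k hk
      rw [Finset.mem_Icc] at hk
      have : (n : ℚ) ≤ k := by exact_mod_cast hk.1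
      apply mul_le_mul_of_nonneg_left _ (Nat.cast_nonneg h)
      apply div_le_div_of_nonneg_left zero_le_one (by linarith) (by linarith)
    refine (Finset.sum_le_sum e1).trans ?_
    rw [Finset.sum_const, Nat.card_Icc, nsmul_eq_mul]
    have e2 : ((3 * n + 1 - n : ℕ) : ℚ) = 2 * n + 1 := by
      have : 3 * n + 1 - n = 2 * n + 1 := by omega
      rw [this]
      push_cast
      ring
    rw [e2]
    have e3 : (2 * (n : ℚ) + 1) * (1 / n) ≤ 3 := by
      rw [mul_one_div, div_le_iff₀ (by linarith)]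
      linarith
    have e4 : (0 : ℚ) ≤ h := Nat.cast_nonneg h
    calc (2 * (n : ℚ) + 1) * ((h : ℚ) * (1 / n)) = (h : ℚ) * ((2 * (n : ℚ) + 1) * (1 / n)) := by ring
      _ ≤ (h : ℚ) * 3 := mul_le_mul_of_nonneg_left e3 e4
      _ = 3 * h := by ring
  have hpp : 0 ≤ ∏ k ∈ sN n, (1 / ((t : ℚ) + k)) ^ h := Finset.prod_nonneg fun k hk => by
    have := hpos k hk
    positivity
  have hss : 0 ≤ ∑ k ∈ sN n, (h : ℚ) * (1 / ((t : ℚ) + k)) := Finset.sum_nonneg fun k hk => by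
    have := hpos k hk
    positivity
  have h5 := OM2_mul h2 (OM2_mono h3 hpp hss h4) (by positivity) hpp (by norm_num) (by positivity)
  rw [zero_add, Finset.prod_pow] at h5
  exact h5

lemma OM2_q (b h n t k : ℕ) (hn : 1 ≤ n) (hk : k ≤ b) : |om b h n (t : ℚ) k| ≤
    (1 + 3 * h + b) ^ b * (((2 * n).factorial : ℚ) ^ h * (2 * t + 4 * n) *
      (∏ k ∈ sN n, (1 / ((t : ℚ) + k))) ^ h) * (2 * (t : ℚ) + 4 * n) ^ k := by
  have hnq : (1 : ℚ) ≤ n := by exact_mod_cast hn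
  have htq : (0 : ℚ) ≤ t := Nat.cast_nonneg t
  have hg : (0 : ℚ) < 2 * t + 4 * n := by positivity
  set A : ℚ := ((2 * n).factorial : ℚ) ^ h * (2 * t + 4 * n) * (∏ k ∈ sN n, (1 / ((t : ℚ) + k))) ^ h with hA
  have hpos : ∀ k ∈ sN n, (0 : ℚ) < (t : ℚ) + k := by
    intro k hk
    rw [Finset.mem_Icc] at hk
    have : (1 : ℚ) ≤ k := by exact_mod_cast hn.trans hk.1
    linarith
  have hpp : 0 ≤ ∏ k ∈ sN n, (1 / ((t : ℚ) + k)) := Finset.prod_nonneg fun k hk => by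
    have := hpos k hk
    positivity
  have hA0 : 0 ≤ A := by positivity
  have h1 := OM2_RS h n t hn
  rw [← hA] at h1
  have h2 : OM2_Maj (PowerSeries.C 1 * PowerSeries.X + PowerSeries.C (2 * (t : ℚ) + 4 * n)) (2 * t + 4 * n) 1 :=
    OM2_lin hg zero_le_one (by linarith)
  have h3 := OM2_mul h1 (OM2_pow h2 hg.le zero_le_one k) hA0 (by positivity) (by positivity) (by positivity)
  have h4 : om b h n (t : ℚ) k = PowerSeries.coeff (b - k) (RS (sN n) (mu h) (PN h n) (t : ℚ) *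
      (PowerSeries.C 1 * PowerSeries.X + PowerSeries.C (2 * (t : ℚ) + 4 * n)) ^ k) := by
    unfold om
    have e1 : RS (sN n) (mu h) (PN h n) (t : ℚ) *
        (PowerSeries.X * (PowerSeries.X + PowerSeries.C (2 * (t : ℚ) + ((4 * n : ℕ) : ℚ)))) ^ k =
        PowerSeries.X ^ k * (RS (sN n) (mu h) (PN h n) (t : ℚ) *
      (PowerSeries.C 1 * PowerSeries.X + PowerSeries.C (2 * (t : ℚ) + 4 * n)) ^ k) := by
      rw [mul_pow, map_one, one_mul]
      push_cast
      ring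
    rw [e1, PowerSeries.coeff_X_pow_mul', if_pos hk]
  rw [h4]
  refine (h3 (b - k)).trans ?_
  have h5 : (1 + 3 * (h : ℚ) + (k : ℚ) * 1) ^ (b - k) ≤ (1 + 3 * h + b) ^ b := by
    have e1 : (k : ℚ) ≤ b := by exact_mod_cast hk
    have e2 : (0 : ℚ) ≤ h := Nat.cast_nonneg h
    have e3 : (0 : ℚ) ≤ k := Nat.cast_nonneg k
    calc (1 + 3 * (h : ℚ) + (k : ℚ) * 1) ^ (b - k) ≤ (1 + 3 * h + b) ^ (b - k) :=
          pow_le_pow_left₀ (by positivity) (by linarith) _
      _ ≤ (1 + 3 * h + b) ^ b := pow_le_pow_right₀ (by linarith) (Nat.sub_le _ _)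
  calc A * (2 * (t : ℚ) + 4 * n) ^ k * (1 + 3 * (h : ℚ) + (k : ℚ) * 1) ^ (b - k)
      ≤ A * (2 * (t : ℚ) + 4 * n) ^ k * (1 + 3 * h + b) ^ b := mul_le_mul_of_nonneg_left h5 (by positivity)
    _ = _ := by ring

theorem OM2 : S_OM2 := by
  intro b h
  refine ⟨(1 + 3 * h + b) ^ b, by positivity, fun n t k hn hk => ?_⟩
  have h1 := OM2_q b h n t k hn hk
  have h2 : ((|om b h n (t : ℚ) k| : ℚ) : ℝ) ≤ (((1 + 3 * h + b) ^ b * (((2 * n).factorial : ℚ) ^ h * (2 * t + 4 * n) *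
      (∏ k ∈ sN n, (1 / ((t : ℚ) + k))) ^ h) * (2 * (t : ℚ) + 4 * n) ^ k : ℚ) : ℝ) := by
    exact_mod_cast h1
  rw [Rat.cast_abs] at h2
  refine h2.trans (le_of_eq ?_)
  push_cast
  unfold Rt
  rw [Finset.prod_div_distrib, Finset.prod_const_one, div_pow, one_pow]
  ring

end

end Pool.Agent.N334.W
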