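import Pool.Agent.N334.W.Stm
import Pool.Agent.H336R2.HD.F1

/-!
# Project WD, part PN: sums over primes from the prime number theorem (helper953)
-/

open Filter Topology Finset

namespace Pool.Agent.N334.W

namespace PNAux

open Pool.Agent.H336R2.HD (pw sum_pw theta_sub_le theta_tendsto)

lemma PS_eq (a b : ℝ) (ha : 0 ≤ a) (n : ℕ) :
    PS a b n = (Ioc ⌊a * n⌋₊ ⌊b * n⌋₊).filter Nat.Prime := by
  classical
  ext p
  unfold PS
  rw [mem_filter, mem_filter, mem_range, mem_Ioc, Nat.floor_lt (by positivity)]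
  constructor
  · rintro ⟨h1, h2, h3⟩
    exact ⟨⟨h3, by omega⟩, h2⟩
  · rintro ⟨⟨h1, h2⟩, h3⟩
    exact ⟨by omega, h3, h1⟩

lemma PS_sum (f : ℕ → ℝ) (a b : ℝ) (ha : 0 ≤ a) (n : ℕ) :
    ∑ p ∈ PS a b n, f p * Real.log p = ∑ k ∈ Ioc ⌊a * n⌋₊ ⌊b * n⌋₊, f k * pw k := by
  rw [PS_eq a b ha, sum_filter]
  refine sum_congr rfl fun k _ => ?_
  unfold pw
  split_ifs <;> simp

/-- the integral in the formula of partial summation -/
lemma int_tendsto (a b α γ : ℝ) (ha : 0 < a) (hab : a < b) :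
    Tendsto (fun n : ℕ => (∫ t in Set.Ioc (a * n) (b * n),
      (-(α * (n : ℝ) ^ 2) * (t ^ 2)⁻¹ + γ) * Chebyshev.theta t) / (n : ℝ) ^ 2) atTop
      (𝓝 (-(α * Real.log (b / a)) + γ * ((b ^ 2 - a ^ 2) / 2))) := by
  have hb : 0 < b := ha.trans hab
  rw [Metric.tendsto_atTop]
  intro ε hε
  set M : ℝ := |α| / a ^ 2 + |γ| + 1 with hM
  have hM0 : 0 < M := by positivity
  obtain ⟨T, hT, hTT⟩ := theta_sub_le (ε / (2 * M * b ^ 2)) (by positivity)
  obtain ⟨N, hN⟩ := exists_nat_gt (T / a)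
  refine ⟨N + 1, fun n hn => ?_⟩
  have hn0 : (0 : ℝ) < n := by exact_mod_cast (by omega : 0 < n)
  have hNn : (N : ℝ) ≤ n := by exact_mod_cast (by omega : N ≤ n)
  have hTa : T ≤ a * n := by
    rw [div_lt_iff₀ ha] at hN
    nlinarith
  have han : 0 < a * n := by positivity
  have hle : a * n ≤ b * n := mul_le_mul_of_nonneg_right hab.le hn0.le
  have hc : ContinuousOn (fun t : ℝ => -(α * (n : ℝ) ^ 2) * (t ^ 2)⁻¹ + γ)
      (Set.Icc (a * n) (b * n)) := by
    refine (continuousOn_const.mul ((continuousOn_pow 2).inv₀ fun t ht => ?_)).add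
      continuousOn_const
    have : 0 < t := lt_of_lt_of_le han ht.1
    positivity
  have hi1 : MeasureTheory.IntegrableOn Chebyshev.theta (Set.Icc (a * n) (b * n)) :=
    (Chebyshev.theta_mono.monotoneOn _).integrableOn_isCompact isCompact_Icc
  have hi1' : MeasureTheory.IntegrableOn (fun t : ℝ => (-(α * (n : ℝ) ^ 2) * (t ^ 2)⁻¹ + γ) *
      Chebyshev.theta t) (Set.Ioc (a * n) (b * n)) :=
    (hi1.continuousOn_mul hc isCompact_Icc).mono_set Set.Ioc_subset_Icc_self
  have hi2' : MeasureTheory.IntegrableOn (fun t : ℝ => (-(α * (n : ℝ) ^ 2) * (t ^ 2)⁻¹ + γ) *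
      t) (Set.Ioc (a * n) (b * n)) :=
    ((hc.mul continuousOn_id).integrableOn_Icc).mono_set Set.Ioc_subset_Icc_self
  have e1 : ∫ t in Set.Ioc (a * n) (b * n), (-(α * (n : ℝ) ^ 2) * (t ^ 2)⁻¹ + γ) * t =
      (-(α * Real.log (b / a)) + γ * ((b ^ 2 - a ^ 2) / 2)) * (n : ℝ) ^ 2 := by
    have e2 : ∫ t in Set.Ioc (a * n) (b * n), (-(α * (n : ℝ) ^ 2) * (t ^ 2)⁻¹ + γ) * t =
        ∫ t in Set.Ioc (a * n) (b * n), (-(α * (n : ℝ) ^ 2) * t⁻¹ + γ * t) := by
      refine MeasureTheory.setIntegral_congr_fun measurableSet_Ioc fun t ht => ?_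
      have : 0 < t := han.trans ht.1
      field_simp
    have hci : ContinuousOn (fun t : ℝ => t⁻¹) (Set.Icc (a * n) (b * n)) :=
      continuousOn_id.inv₀ fun t ht => (lt_of_lt_of_le han ht.1).ne'
    have e3 : ∫ t in (a * n)..(b * n), (-(α * (n : ℝ) ^ 2) * t⁻¹ + γ * t) =
        -(α * (n : ℝ) ^ 2) * Real.log ((b * n) / (a * n)) +
          γ * (((b * n) ^ 2 - (a * n) ^ 2) / 2) := by
      rw [intervalIntegral.integral_add, intervalIntegral.integral_const_mul,
        intervalIntegral.integral_const_mul, integral_inv_of_pos han (by positivity), integral_id]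
      · rw [← Set.uIcc_of_le hle] at hci
        exact (continuousOn_const.mul hci).intervalIntegrable
      · exact (continuous_const.mul continuous_id).intervalIntegrable _ _
    rw [e2, ← intervalIntegral.integral_of_le hle, e3]
    have e4 : b * (n : ℝ) / (a * n) = b / a := by field_simp
    rw [e4]
    ring
  have e2 : (∫ t in Set.Ioc (a * n) (b * n),
      (-(α * (n : ℝ) ^ 2) * (t ^ 2)⁻¹ + γ) * Chebyshev.theta t) / (n : ℝ) ^ 2 -
      (-(α * Real.log (b / a)) + γ * ((b ^ 2 - a ^ 2) / 2)) =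
      (∫ t in Set.Ioc (a * n) (b * n), ((-(α * (n : ℝ) ^ 2) * (t ^ 2)⁻¹ + γ) * Chebyshev.theta t -
        (-(α * (n : ℝ) ^ 2) * (t ^ 2)⁻¹ + γ) * t)) / (n : ℝ) ^ 2 := by
    rw [MeasureTheory.integral_sub hi1' hi2', e1]
    field_simp
  rw [Real.dist_eq, e2, abs_div, abs_of_pos (by positivity : (0 : ℝ) < (n : ℝ) ^ 2),
    div_lt_iff₀ (by positivity)]
  have h3 : ‖∫ t in Set.Ioc (a * n) (b * n), ((-(α * (n : ℝ) ^ 2) * (t ^ 2)⁻¹ + γ) *
      Chebyshev.theta t - (-(α * (n : ℝ) ^ 2) * (t ^ 2)⁻¹ + γ) * t)‖ ≤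
      (M * (ε / (2 * M * b ^ 2) * (b * n))) *
        MeasureTheory.volume.real (Set.Ioc (a * n) (b * n)) := by
    apply MeasureTheory.norm_setIntegral_le_of_norm_le_const
    · simp
    · intro t ht
      have ht0 : 0 < t := han.trans ht.1
      rw [← mul_sub, norm_mul, Real.norm_eq_abs, Real.norm_eq_abs]
      have h5 : |-(α * (n : ℝ) ^ 2) * (t ^ 2)⁻¹ + γ| ≤ M := by
        have h6 : |-(α * (n : ℝ) ^ 2) * (t ^ 2)⁻¹| ≤ |α| / a ^ 2 := by
          rw [abs_mul, abs_neg, abs_mul, abs_inv, abs_of_pos (by positivity : (0:ℝ) < t ^ 2),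
            abs_of_pos (by positivity : (0:ℝ) < (n:ℝ) ^ 2), ← div_eq_mul_inv,
            div_le_div_iff₀ (by positivity) (by positivity)]
          have h7 : (a * n) ^ 2 ≤ t ^ 2 := pow_le_pow_left₀ han.le ht.1.le 2
          have h8 := mul_le_mul_of_nonneg_left h7 (abs_nonneg α)
          calc |α| * (n : ℝ) ^ 2 * a ^ 2 = |α| * (a * n) ^ 2 := by ring
            _ ≤ |α| * t ^ 2 := h8
        calc |-(α * (n : ℝ) ^ 2) * (t ^ 2)⁻¹ + γ| ≤ |-(α * (n : ℝ) ^ 2) * (t ^ 2)⁻¹| + |γ| :=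
              abs_add_le _ _
          _ ≤ M := by rw [hM]; linarith
      have h6 : |Chebyshev.theta t - t| ≤ ε / (2 * M * b ^ 2) * (b * n) :=
        (hTT t (by linarith [ht.1])).trans (mul_le_mul_of_nonneg_left ht.2 (by positivity))
      exact mul_le_mul h5 h6 (abs_nonneg _) hM0.le
  rw [Real.norm_eq_abs, Real.volume_real_Ioc_of_le hle] at h3
  refine lt_of_le_of_lt h3 ?_
  have h4 : M * (ε / (2 * M * b ^ 2) * (b * n)) * (b * n - a * n) ≤
      M * (ε / (2 * M * b ^ 2) * (b * n)) * (b * n) :=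
    mul_le_mul_of_nonneg_left (by linarith) (by positivity)
  refine lt_of_le_of_lt h4 ?_
  have h5 : M * (ε / (2 * M * b ^ 2) * (b * n)) * (b * n) = ε * (n : ℝ) ^ 2 / 2 := by
    field_simp
  rw [h5]
  have h7 : 0 < ε * (n : ℝ) ^ 2 := by positivity
  linarith

end PNAux

open PNAux Pool.Agent.H336R2.HD in
/-- **Part PN** (the name `PN` is taken by a definition) -/
theorem thm_PN : S_PN := by
  intro a b α β γ ha hab
  have hb : 0 < b := ha.trans hab
  have h1 := theta_tendsto b hb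
  have h2 := theta_tendsto a ha
  have h3 := int_tendsto a b α γ ha hab
  have h4 := (((h1.const_mul (α / b + β + γ * b)).sub
    (h2.const_mul (α / a + β + γ * a))).sub h3)
  have e0 : (α / b + β + γ * b) * b - (α / a + β + γ * a) * a -
      (-(α * Real.log (b / a)) + γ * ((b ^ 2 - a ^ 2) / 2)) =
      α * Real.log (b / a) + β * (b - a) + γ * ((b ^ 2 - a ^ 2) / 2) := by
    field_simp
    ring
  rw [e0] at h4
  refine h4.congr' ?_
  filter_upwards [eventually_ge_atTop 1] with n hn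
  have hn0 : (0 : ℝ) < n := by exact_mod_cast hn
  have han : 0 < a * n := by positivity
  have hbn : 0 < b * n := by positivity
  have hle : a * n ≤ b * n := mul_le_mul_of_nonneg_right hab.le hn0.le
  rw [PNAux.PS_sum (fun k => α * (n : ℝ) ^ 2 / k + β * n + γ * k) a b ha.le n]
  have hd : ∀ t : ℝ, 0 < t → HasDerivAt (fun x : ℝ => α * (n : ℝ) ^ 2 / x + β * n + γ * x)
      (-(α * (n : ℝ) ^ 2) * (t ^ 2)⁻¹ + γ) t := by
    intro t ht
    have h5 := ((((hasDerivAt_id t).inv ht.ne').const_mul (α * (n : ℝ) ^ 2)).add_const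
      (β * (n : ℝ))).add ((hasDerivAt_id t).const_mul γ)
    refine (h5.congr_deriv ?_).congr_of_eventuallyEq ?_
    · simp only [id]
      field_simp
    · exact Eventually.of_forall fun x => by simp [div_eq_mul_inv]
  have h6 := sum_mul_eq_sub_sub_integral_mul (c := Pool.Agent.H336R2.HD.pw)
    (f := fun x : ℝ => α * (n : ℝ) ^ 2 / x + β * n + γ * x) han.le hle
    (fun t ht => (hd t (lt_of_lt_of_le han ht.1)).differentiableAt) (by
      have hc : ContinuousOn (fun t : ℝ => -(α * (n : ℝ) ^ 2) * (t ^ 2)⁻¹ + γ)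
          (Set.Icc (a * n) (b * n)) := by
        refine (continuousOn_const.mul ((continuousOn_pow 2).inv₀ fun t ht => ?_)).add
          continuousOn_const
        have : 0 < t := lt_of_lt_of_le han ht.1
        positivity
      refine hc.integrableOn_Icc.congr_fun (fun t ht => ?_) measurableSet_Icc
      exact ((hd t (lt_of_lt_of_le han ht.1)).deriv).symm)
  rw [h6, Pool.Agent.H336R2.HD.sum_pw, Pool.Agent.H336R2.HD.sum_pw]
  have h7 : ∫ t in Set.Ioc (a * n) (b * n),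
      deriv (fun x : ℝ => α * (n : ℝ) ^ 2 / x + β * n + γ * x) t *
        ∑ k ∈ Icc 0 ⌊t⌋₊, Pool.Agent.H336R2.HD.pw k =
      ∫ t in Set.Ioc (a * n) (b * n),
        (-(α * (n : ℝ) ^ 2) * (t ^ 2)⁻¹ + γ) * Chebyshev.theta t := by
    refine MeasureTheory.setIntegral_congr_fun measurableSet_Ioc fun t ht => ?_
    rw [Pool.Agent.H336R2.HD.sum_pw, (hd t (han.trans ht.1)).deriv]
  rw [h7]
  field_simp

end Pool.Agent.N334.W
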