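import Pool.Agent.N334.W.Stm

/-!
# Project WD: perturbation of the nodes (PT)
-/

open Finset

namespace Pool.Agent.N334.W

noncomputable section

namespace PTaux

/-- inverse distance -/
def e' (a b : ℕ) : ℝ := if a = b then 0 else 1 / |(b : ℝ) - a|

lemma e'_nonneg (a b : ℕ) : 0 ≤ e' a b := by
  unfold e'
  split_ifs
  · exact le_refl _
  · positivity

lemma e'_symm (a b : ℕ) : e' a b = e' b a := by
  unfold e'
  by_cases h : a = b
  · rw [if_pos h, if_pos h.symm]
  · rw [if_neg h, if_neg (Ne.symm h), abs_sub_comm]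

lemma e'_le (m a b : ℕ) (hm : 1 ≤ m) : e' a b ≤ (∑ k ∈ range m,
    ((if b = a + (k + 1) then ((k : ℝ) + 1)⁻¹ else 0) +
      (if b + (k + 1) = a then ((k : ℝ) + 1)⁻¹ else 0))) + (m : ℝ)⁻¹ := by
  have hm' : (0 : ℝ) < m := by exact_mod_cast hm
  have hnn : ∀ k ∈ range m, (0 : ℝ) ≤
    ((if b = a + (k + 1) then ((k : ℝ) + 1)⁻¹ else 0) +
      (if b + (k + 1) = a then ((k : ℝ) + 1)⁻¹ else 0)) := by
    intro k _
    have : (0 : ℝ) ≤ ((k : ℝ) + 1)⁻¹ := by positivity
    split_ifs <;> linarith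
  have hs := sum_nonneg hnn
  unfold e'
  split_ifs with h
  · have : (0 : ℝ) ≤ (m : ℝ)⁻¹ := by positivity
    linarith
  · rcases lt_or_gt_of_ne h with h1 | h1
    · -- a < b
      obtain ⟨k, hk⟩ : ∃ k, b = a + (k + 1) := ⟨b - a - 1, by omega⟩
      have habs : |(b : ℝ) - a| = k + 1 := by
        rw [hk]; push_cast
        rw [show (a : ℝ) + (k + 1) - a = k + 1 by ring]
        exact abs_of_pos (by positivity)
      rw [habs, one_div]
      by_cases hkm : k < m
      · have h2 := single_le_sum hnn (mem_range.2 hkm)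
        rw [if_pos hk, if_neg (by omega), add_zero] at h2
        have : (0 : ℝ) ≤ (m : ℝ)⁻¹ := by positivity
        linarith
      · have h3 : (m : ℝ) ≤ k := by exact_mod_cast not_lt.1 hkm
        have h4 : ((k : ℝ) + 1)⁻¹ ≤ (m : ℝ)⁻¹ := by
          apply inv_anti₀ hm'
          linarith
        linarith
    · obtain ⟨k, hk⟩ : ∃ k, b + (k + 1) = a := ⟨a - b - 1, by omega⟩
      have habs : |(b : ℝ) - a| = k + 1 := by
        rw [← hk]; push_cast
        rw [show (b : ℝ) - (b + (k + 1)) = -(k + 1) by ring, abs_neg]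
        exact abs_of_pos (by positivity)
      rw [habs, one_div]
      by_cases hkm : k < m
      · have h2 := single_le_sum hnn (mem_range.2 hkm)
        rw [if_pos hk, if_neg (by omega), zero_add] at h2
        have : (0 : ℝ) ≤ (m : ℝ)⁻¹ := by positivity
        linarith
      · have h3 : (m : ℝ) ≤ k := by exact_mod_cast not_lt.1 hkm
        have h4 : ((k : ℝ) + 1)⁻¹ ≤ (m : ℝ)⁻¹ := by
          apply inv_anti₀ hm'
          linarith
        linarith

lemma inner_le (s m : ℕ) (hm : 1 ≤ m) (t : Fin m → ℕ)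
    (ht : ∀ a : ℕ, (univ.filter fun i => t i = a).card ≤ s) (a : ℕ) :
    ∑ j, e' a (t j) ≤ 2 * s * (1 + Real.log m) + 1 := by
  have h1 : ∑ j, e' a (t j) ≤ ∑ j : Fin m, ((∑ k ∈ range m,
    ((if t j = a + (k + 1) then ((k : ℝ) + 1)⁻¹ else 0) +
      (if t j + (k + 1) = a then ((k : ℝ) + 1)⁻¹ else 0))) + (m : ℝ)⁻¹) :=
    sum_le_sum fun j _ => e'_le m a (t j) hm
  refine h1.trans ?_
  rw [sum_add_distrib, sum_const, card_univ, Fintype.card_fin, nsmul_eq_mul,
    mul_inv_cancel₀ (by positivity)]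
  rw [sum_comm]
  have h2 : ∀ k ∈ range m, ∑ j : Fin m,
      ((if t j = a + (k + 1) then ((k : ℝ) + 1)⁻¹ else 0) +
      (if t j + (k + 1) = a then ((k : ℝ) + 1)⁻¹ else 0)) ≤ 2 * s * ((k : ℝ) + 1)⁻¹ := by
    intro k _
    have hk : (0 : ℝ) ≤ ((k : ℝ) + 1)⁻¹ := by positivity
    rw [sum_add_distrib, ← sum_filter, ← sum_filter, sum_const, sum_const, nsmul_eq_mul,
      nsmul_eq_mul]
    have h3 : ((univ.filter fun j => t j = a + (k + 1)).card : ℝ) ≤ s := by
      exact_mod_cast ht _
    have h4 : ((univ.filter fun j => t j + (k + 1) = a).card : ℝ) ≤ s := by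
      have : (univ.filter fun j => t j + (k + 1) = a).card ≤
          (univ.filter fun j => t j = a - (k + 1)).card := by
        apply card_le_card
        intro j hj
        simp only [mem_filter, mem_univ, true_and] at hj ⊢
        omega
      exact_mod_cast this.trans (ht _)
    nlinarith
  have h5 := sum_le_sum h2
  rw [← mul_sum] at h5
  have h6 : ∑ k ∈ range m, ((k : ℝ) + 1)⁻¹ ≤ 1 + Real.log m := by
    have h7 := harmonic_le_one_add_log m
    unfold harmonic at h7
    push_cast at h7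
    exact h7
  have hs0 : (0 : ℝ) ≤ 2 * s := by positivity
  have h8 := mul_le_mul_of_nonneg_left h6 hs0
  linarith

lemma half (m : ℕ) (f : Fin m → Fin m → ℝ) (hs : ∀ i j, f i j = f j i) (h0 : ∀ i j, 0 ≤ f i j) :
    2 * ∑ i, ∑ j ∈ Ioi i, f i j ≤ ∑ i, ∑ j, f i j := by
  have h1 : ∑ i, ∑ j ∈ Ioi i, f i j = ∑ i, ∑ j ∈ Iio i, f i j := by
    rw [sum_comm' (t' := univ) (s' := fun j => Iio j)]
    · exact sum_congr rfl fun i _ => sum_congr rfl fun j _ => hs _ _
    · intro x y
      simp
  have h2 : ∑ i, ∑ j ∈ Ioi i, f i j + ∑ i, ∑ j ∈ Iio i, f i j ≤ ∑ i, ∑ j, f i j := by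
    rw [← sum_add_distrib]
    refine sum_le_sum fun i _ => ?_
    rw [← sum_union]
    · exact sum_le_sum_of_subset_of_nonneg (subset_univ _) fun j _ _ => h0 i j
    · rw [disjoint_left]
      intro j hj hj'
      exact absurd (mem_Ioi.1 hj) (not_lt_of_gt (mem_Iio.1 hj'))
  linarith

end PTaux

open PTaux

/-- PT: perturbation of the nodes -/
theorem PT : S_PT := by
  intro s c m t w hs hc ht hw
  have hg : ∀ i, (1 : ℝ) ≤ 2 * (t i : ℝ) + c := by
    intro i
    have : (1 : ℝ) ≤ c := by exact_mod_cast hc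
    have : (0 : ℝ) ≤ t i := by positivity
    linarith
  have hpair : ∀ i j, ‖w j - w i‖ ≤ (if t i = t j then 2 * (t i : ℝ) + c else 1) *
      Real.exp ((2 / 3) * e' (t i) (t j)) * max 1 |nx c (t j) - nx c (t i)| := by
    intro i j
    have h1 : ‖w j - w i‖ ≤ |nx c (t j) - nx c (t i)| +
        ((2 * (t i : ℝ) + c) / 3 + (2 * (t j : ℝ) + c) / 3) := by
      have h2 : w j - w i = ((nx c (t j) - nx c (t i) : ℝ) : ℂ) +
          ((w j - ((nx c (t j) : ℝ) : ℂ)) - (w i - ((nx c (t i) : ℝ) : ℂ))) := by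
        push_cast; ring
      rw [h2]
      refine (norm_add_le _ _).trans ?_
      rw [Complex.norm_real, Real.norm_eq_abs]
      have h3 := norm_sub_le (w j - ((nx c (t j) : ℝ) : ℂ)) (w i - ((nx c (t i) : ℝ) : ℂ))
      have h4 := hw i
      have h5 := hw j
      linarith
    by_cases htt : t i = t j
    · rw [if_pos htt]
      have h6 : e' (t i) (t j) = 0 := by unfold e'; rw [if_pos htt]
      rw [h6, mul_zero, Real.exp_zero, mul_one]
      rw [← htt, sub_self, abs_zero] at h1 ⊢
      rw [max_eq_left (by norm_num), mul_one]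
      have := hg i
      linarith
    · rw [if_neg htt, one_mul]
      have hd : (1 : ℝ) ≤ |(t j : ℝ) - t i| := by
        have h7 : (1 : ℤ) ≤ |(t j : ℤ) - t i| := by
          apply Int.one_le_abs
          intro h
          apply htt
          omega
        exact_mod_cast h7
      have hd0 : (0 : ℝ) < |(t j : ℝ) - t i| := by linarith
      have hsum : (0 : ℝ) ≤ (t i : ℝ) + t j + c := by positivity
      have hx : |nx c (t j) - nx c (t i)| = |(t j : ℝ) - t i| * ((t i : ℝ) + t j + c) := by
        unfold nx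
        rw [← abs_of_nonneg hsum, ← abs_mul]
        congr 1
        ring
      have h8 : |nx c (t j) - nx c (t i)| +
        ((2 * (t i : ℝ) + c) / 3 + (2 * (t j : ℝ) + c) / 3) =
        |nx c (t j) - nx c (t i)| * ((2 / 3) * e' (t i) (t j) + 1) := by
        have h9 : e' (t i) (t j) = 1 / |(t j : ℝ) - t i| := by unfold e'; rw [if_neg htt]
        rw [h9, hx]
        field_simp
        ring
      rw [h8] at h1
      refine h1.trans ?_
      rw [mul_comm]
      refine mul_le_mul (Real.add_one_le_exp _) (le_max_right _ _) (abs_nonneg _)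
        (Real.exp_pos _).le
  have hprod : ∏ i : Fin m, ∏ j ∈ Ioi i, ‖w j - w i‖ ≤
      ∏ i : Fin m, ∏ j ∈ Ioi i, ((if t i = t j then 2 * (t i : ℝ) + c else 1) *
      Real.exp ((2 / 3) * e' (t i) (t j)) * max 1 |nx c (t j) - nx c (t i)|) := by
    refine prod_le_prod (fun i _ => prod_nonneg fun j _ => norm_nonneg _) fun i _ => ?_
    exact prod_le_prod (fun j _ => norm_nonneg _) fun j _ => hpair i j
  refine hprod.trans ?_
  simp only [prod_mul_distrib]
  refine mul_le_mul_of_nonneg_right ?_ (prod_nonneg fun i _ => prod_nonneg fun j _ => by positivity)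
  rw [mul_comm (Real.exp _)]
  refine mul_le_mul ?_ ?_ (prod_nonneg fun i _ => prod_nonneg fun j _ => (Real.exp_pos _).le)
    (prod_nonneg fun i _ => pow_nonneg (by linarith [hg i]) _)
  · refine prod_le_prod (fun i _ => prod_nonneg fun j _ => ?_) fun i _ => ?_
    · split_ifs
      · linarith [hg i]
      · norm_num
    · rw [← prod_filter, prod_const]
      refine pow_le_pow_right₀ (hg i) ?_
      refine le_trans (card_le_card ?_) (ht (t i))
      intro j hj
      simp only [mem_filter, mem_univ, true_and] at hj ⊢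
      exact hj.2.symm
  · have h1 : ∏ i : Fin m, ∏ j ∈ Ioi i, Real.exp ((2 / 3) * e' (t i) (t j)) =
        Real.exp ((2 / 3) * ∑ i : Fin m, ∑ j ∈ Ioi i, e' (t i) (t j)) := by
      rw [mul_sum, Real.exp_sum]
      refine prod_congr rfl fun i _ => ?_
      rw [mul_sum, Real.exp_sum]
    rw [h1]
    apply Real.exp_le_exp.2
    rcases Nat.eq_zero_or_pos m with hm | hm
    · subst hm
      simp
    have h2 := half m (fun i j => e' (t i) (t j)) (fun i j => e'_symm _ _)
      (fun i j => e'_nonneg _ _)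
    have h3 : ∑ i : Fin m, ∑ j, e' (t i) (t j) ≤ m * (2 * s * (1 + Real.log m) + 1) := by
      have h4 := sum_le_sum (s := univ) (fun (i : Fin m) _ => inner_le s m hm t ht (t i))
      rw [sum_const, card_univ, Fintype.card_fin, nsmul_eq_mul] at h4
      exact h4
    have hlog : 0 ≤ Real.log m := Real.log_natCast_nonneg m
    have hs' : (1 : ℝ) ≤ s := by exact_mod_cast hs
    have hm' : (0 : ℝ) ≤ m := by positivity
    have h5 : 1 ≤ s * (1 + Real.log m) := by nlinarith
    have h6 := mul_le_mul_of_nonneg_left h5 hm'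
    nlinarith

end

end Pool.Agent.N334.W
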