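import Pool.Agent.N334.W.Stm

/-!
# Project WD, task R0 (helper456): size of `r0`
-/

open Filter Topology

namespace Pool.Agent.N334.W

namespace R0_

/-- `k log k - k` -/
noncomputable def ph (x : ℝ) : ℝ := x * Real.log x - x

lemma log_fac_succ (k : ℕ) :
    Real.log ((k + 1).factorial : ℝ) = Real.log ((k : ℝ) + 1) + Real.log (k.factorial : ℝ) := by
  rw [Nat.factorial_succ, Nat.cast_mul, Real.log_mul (by positivity) (by positivity)]
  push_cast
  rfl

lemma ph_le (k : ℕ) : ph k ≤ Real.log (k.factorial : ℝ) := by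
  induction k with
  | zero => simp [ph]
  | succ k ih =>
    rw [log_fac_succ]
    have hk : (0 : ℝ) ≤ k := Nat.cast_nonneg k
    have h : ph ((k + 1 : ℕ) : ℝ) ≤ Real.log ((k : ℝ) + 1) + ph k := by
      unfold ph
      push_cast
      rcases Nat.eq_zero_or_pos k with h0 | h0
      · subst h0; simp
      · have hk0 : (0 : ℝ) < k := by exact_mod_cast h0
        have h1 : Real.log ((k : ℝ) + 1) - Real.log k ≤ 1 / k := by
          rw [← Real.log_div (by positivity) (by positivity)]
          have := Real.log_le_sub_one_of_pos (x := ((k : ℝ) + 1) / k) (by positivity)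
          have e : ((k : ℝ) + 1) / k - 1 = 1 / k := by field_simp; ring
          linarith
        have h2 : k * (Real.log ((k : ℝ) + 1) - Real.log k) ≤ 1 := by
          calc k * (Real.log ((k : ℝ) + 1) - Real.log k) ≤ k * (1 / k) :=
                mul_le_mul_of_nonneg_left h1 hk
            _ = 1 := by field_simp
        nlinarith
    linarith

lemma le_ph (k : ℕ) : Real.log (k.factorial : ℝ) ≤ ph k + 2 * Real.log ((k : ℝ) + 1) := by
  induction k with
  | zero => simp [ph]
  | succ k ih =>
    rw [log_fac_succ]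
    have hk : (0 : ℝ) ≤ k := Nat.cast_nonneg k
    have h : Real.log ((k : ℝ) + 1) + ph k + 2 * Real.log ((k : ℝ) + 1) ≤
        ph ((k + 1 : ℕ) : ℝ) + 2 * Real.log ((k : ℝ) + 1 + 1) := by
      unfold ph
      push_cast
      have h3 : 2 / ((k : ℝ) + 2) ≤ 2 * (Real.log ((k : ℝ) + 1 + 1) - Real.log ((k : ℝ) + 1)) := by
        rw [← Real.log_div (by positivity) (by positivity)]
        have := Real.one_sub_inv_le_log_of_pos (x := ((k : ℝ) + 1 + 1) / (k + 1)) (by positivity)
        have e : 1 - (((k : ℝ) + 1 + 1) / (k + 1))⁻¹ = 1 / (k + 2) := by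
          rw [inv_div]
          field_simp
          ring
        rw [e] at this
        have e2 : 2 / ((k : ℝ) + 2) = 2 * (1 / (k + 2)) := by ring
        linarith
      rcases Nat.eq_zero_or_pos k with h0 | h0
      · subst h0
        simp only [Nat.cast_zero, zero_mul, zero_add, Real.log_one] at *
        norm_num at h3 ⊢
        linarith
      · have hk0 : (0 : ℝ) < k := by exact_mod_cast h0
        have h1 : 1 / ((k : ℝ) + 1) ≤ Real.log ((k : ℝ) + 1) - Real.log k := by
          rw [← Real.log_div (by positivity) (by positivity)]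
          have := Real.one_sub_inv_le_log_of_pos (x := ((k : ℝ) + 1) / k) (by positivity)
          have e : 1 - (((k : ℝ) + 1) / k)⁻¹ = 1 / (k + 1) := by
            rw [inv_div]
            field_simp
            ring
          rwa [e] at this
        have h2 : k / ((k : ℝ) + 1) ≤ k * (Real.log ((k : ℝ) + 1) - Real.log k) := by
          calc k / ((k : ℝ) + 1) = k * (1 / (k + 1)) := by ring
            _ ≤ _ := mul_le_mul_of_nonneg_left h1 hk
        have h4 : k / ((k : ℝ) + 1) = 1 - 1 / (k + 1) := by field_simp; ring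
        have h5 : 1 / ((k : ℝ) + 1) ≤ 2 / (k + 2) := by
          rw [div_le_div_iff₀ (by positivity) (by positivity)]
          linarith
        nlinarith
    push_cast at h ⊢
    linarith

lemma tendsto_log_div : Tendsto (fun n : ℕ => Real.log n / n) atTop (𝓝 0) :=
  (Real.isLittleO_log_id_atTop.tendsto_div_nhds_zero).comp tendsto_natCast_atTop_atTop

lemma log_small (ε : ℝ) (hε : 0 < ε) (K c : ℝ) (hc : 1 ≤ c) :
    ∀ᶠ n : ℕ in atTop, K * Real.log (c * n) ≤ ε * n := by
  have h1 : Tendsto (fun n : ℕ => K * (Real.log n / n) + K * Real.log c / n) atTop (𝓝 0) := by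
    have h2 := (tendsto_log_div).const_mul K
    have h3 : Tendsto (fun n : ℕ => K * Real.log c / (n : ℝ)) atTop (𝓝 0) :=
      tendsto_const_div_atTop_nhds_zero_nat _
    simpa using h2.add h3
  filter_upwards [h1.eventually (gt_mem_nhds hε), eventually_ge_atTop 1] with n hn hn1
  have hn0 : (0 : ℝ) < n := by exact_mod_cast hn1
  have hc0 : (0 : ℝ) < c := by linarith
  rw [Real.log_mul hc0.ne' hn0.ne']
  have h4 := mul_lt_mul_of_pos_right hn hn0
  have h5 : (K * (Real.log n / n) + K * Real.log c / n) * n = K * (Real.log c + Real.log n) := by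
    field_simp
    ring
  rw [h5] at h4
  exact h4.le

end R0_

open R0_

theorem R0 : S_R0 := by
  intro ε hε
  filter_upwards [log_small ε hε 4 4 (by norm_num), eventually_ge_atTop 1]
    with n hn hn1
  have hn0 : (0 : ℝ) < n := by exact_mod_cast hn1
  have hn1' : (1 : ℝ) ≤ n := by exact_mod_cast hn1
  have e1 : Real.log (r0 n) = Real.log ((2 * n).factorial : ℝ) +
      Real.log ((n - 1).factorial : ℝ) - Real.log ((3 * n).factorial : ℝ) := by
    unfold r0
    rw [Real.log_div (by positivity) (by positivity), Real.log_mul (by positivity) (by positivity)]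
  have e2 : Real.log ((n - 1).factorial : ℝ) = Real.log (n.factorial : ℝ) - Real.log n := by
    have h := log_fac_succ (n - 1)
    rw [Nat.sub_add_cancel hn1, Nat.cast_sub hn1] at h
    rw [h]
    push_cast
    rw [sub_add_cancel]
    ring
  have h1 := le_ph (2 * n)
  have h2 := le_ph n
  have h3 := ph_le (3 * n)
  have l2 : Real.log ((2 : ℝ) * n) = Real.log 2 + Real.log n := Real.log_mul (by norm_num) hn0.ne'
  have l3 : Real.log ((3 : ℝ) * n) = Real.log 3 + Real.log n := Real.log_mul (by norm_num) hn0.ne'
  have h4 : Real.log ((2 : ℝ) * n + 1) ≤ Real.log (4 * n) :=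
    Real.log_le_log (by positivity) (by linarith)
  have h5 : Real.log ((n : ℝ) + 1) ≤ Real.log (4 * n) :=
    Real.log_le_log (by positivity) (by linarith)
  have h6 : 0 ≤ Real.log (n : ℝ) := Real.log_nonneg hn1'
  unfold ph at h1 h2 h3
  push_cast at h1 h3
  rw [l2] at h1
  rw [l3] at h3
  rw [e1, e2]
  nlinarith

end Pool.Agent.N334.W
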