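import Pool.Agent.N334.W.Stm

/-!
# WD/RR: distribution of the nodes to `s` interlacing sets
-/

namespace Pool.Agent.N334.W

namespace RRaux

open Finset

lemma nx_nonneg (c a : ℕ) : 0 ≤ nx c a := by unfold nx; positivity

lemma nx_mono (c : ℕ) {a b : ℕ} (h : a ≤ b) : nx c a ≤ nx c b := by
  unfold nx
  have : (a : ℝ) ≤ b := by exact_mod_cast h
  gcongr

lemma nx_gap (c : ℕ) {a b : ℕ} (h : a < b) : 1 ≤ nx c b - nx c a := by
  unfold nx
  have h1 : (a : ℝ) + 1 ≤ b := by exact_mod_cast h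
  have h2 : (0 : ℝ) ≤ a := a.cast_nonneg
  have h3 : (0 : ℝ) ≤ c := c.cast_nonneg
  nlinarith

/-- the modified distance of the nodes -/
noncomputable def D (c a b : ℕ) : ℝ := max 1 |nx c b - nx c a|

lemma D_one (c a b : ℕ) : 1 ≤ D c a b := le_max_left _ _

lemma D_self (c a : ℕ) : D c a a = 1 := by simp [D]

lemma D_symm (c a b : ℕ) : D c a b = D c b a := by rw [D, D, abs_sub_comm]

lemma D_le (c : ℕ) {a a' b : ℕ} (h : a' ≤ a) (h' : a ≤ b) (h'' : a' < b) :
    D c a b ≤ nx c b - nx c a' := by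
  unfold D
  refine max_le (nx_gap c h'') ?_
  rw [abs_of_nonneg (by linarith [nx_mono c h'])]
  linarith [nx_mono c h]

lemma D_le' (c : ℕ) {a b : ℕ} (h' : a ≤ b) : D c a b ≤ nx c b + 1 := by
  unfold D
  refine max_le (by linarith [nx_nonneg c b]) ?_
  rw [abs_of_nonneg (by linarith [nx_mono c h'])]
  linarith [nx_nonneg c a]

/-- the product over the pairs, squared -/
lemma sq_pairs (c M : ℕ) (t : Fin M → ℕ) :
    (∏ i : Fin M, ∏ j ∈ Finset.Ioi i, D c (t i) (t j)) ^ 2 = ∏ i, ∏ j, D c (t i) (t j) := by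
  have h1 := Finset.prod_prod_Ioi_mul_eq_prod_prod_off_diag (fun i j : Fin M => D c (t i) (t j))
  have h2 : (∏ i : Fin M, ∏ j ∈ Finset.Ioi i, D c (t i) (t j)) ^ 2 =
      ∏ i : Fin M, ∏ j ∈ Finset.Ioi i, D c (t j) (t i) * D c (t i) (t j) := by
    rw [← Finset.prod_pow]
    refine Finset.prod_congr rfl fun i _ => ?_
    rw [← Finset.prod_pow]
    refine Finset.prod_congr rfl fun j _ => ?_
    rw [D_symm c (t j) (t i), sq]
  rw [h2, h1]
  refine Finset.prod_congr rfl fun i _ => ?_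
  rw [← Finset.prod_compl_mul_prod {i}, Finset.prod_singleton, D_self, mul_one]
  exact Finset.prod_congr rfl fun j _ => D_symm c _ _

lemma pairs_perm (c M : ℕ) (t : Fin M → ℕ) (σ : Equiv.Perm (Fin M)) :
    ∏ i : Fin M, ∏ j ∈ Finset.Ioi i, D c (t (σ i)) (t (σ j)) =
      ∏ i : Fin M, ∏ j ∈ Finset.Ioi i, D c (t i) (t j) := by
  have h1 : (∏ i : Fin M, ∏ j ∈ Finset.Ioi i, D c (t (σ i)) (t (σ j))) ^ 2 =
      (∏ i : Fin M, ∏ j ∈ Finset.Ioi i, D c (t i) (t j)) ^ 2 := by
    rw [sq_pairs c M t, sq_pairs c M (fun i => t (σ i))]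
    rw [← Equiv.prod_comp σ (fun i => ∏ j, D c (t i) (t j))]
    refine Finset.prod_congr rfl fun i _ => ?_
    exact Equiv.prod_comp σ (fun j => D c (t (σ i)) (t j))
  have h2 : 0 ≤ ∏ i : Fin M, ∏ j ∈ Finset.Ioi i, D c (t (σ i)) (t (σ j)) :=
    Finset.prod_nonneg fun i _ => Finset.prod_nonneg fun j _ => zero_le_one.trans (D_one _ _ _)
  have h3 : 0 ≤ ∏ i : Fin M, ∏ j ∈ Finset.Ioi i, D c (t i) (t j) :=
    Finset.prod_nonneg fun i _ => Finset.prod_nonneg fun j _ => zero_le_one.trans (D_one _ _ _)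
  exact (sq_eq_sq₀ h2 h3).1 h1

/-- extension by zero -/
def ex {M : ℕ} (t : Fin M → ℕ) (i : ℕ) : ℕ := if h : i < M then t ⟨i, h⟩ else 0

lemma ex_of {M : ℕ} (t : Fin M → ℕ) {i : ℕ} (h : i < M) : ex t i = t ⟨i, h⟩ := dif_pos h

lemma ex_coe {M : ℕ} (t : Fin M → ℕ) (i : Fin M) : ex t i = t i := ex_of t i.2

lemma pairs_range (M : ℕ) (g : ℕ → ℕ → ℝ) :
    ∏ i : Fin M, ∏ j ∈ Finset.Ioi i, g i j = ∏ j ∈ range M, ∏ i ∈ range j, g i j := by
  have h1 : ∏ i : Fin M, ∏ j ∈ Finset.Ioi i, g i j =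
      ∏ i : Fin M, ∏ j : Fin M, if i < j then g i j else 1 := by
    refine Finset.prod_congr rfl fun i _ => ?_
    rw [← Finset.prod_filter]
    congr 1
    ext j
    simp
  rw [h1, Finset.prod_comm, ← Fin.prod_univ_eq_prod_range (fun j => ∏ i ∈ range j, g i j) M]
  refine Finset.prod_congr rfl fun j _ => ?_
  have h2 : ∏ i : Fin M, (if i < j then g i j else 1) =
      ∏ i : Fin M, (fun i : ℕ => if i < (j : ℕ) then g i j else 1) i := rfl
  rw [h2, Fin.prod_univ_eq_prod_range (fun i : ℕ => if i < (j : ℕ) then g i j else 1) M,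
    ← Finset.prod_filter]
  congr 1
  ext i
  simp only [Finset.mem_filter, Finset.mem_range]
  have := j.2
  omega

lemma prod_blocks (s : ℕ) (f : ℕ → ℝ) (N : ℕ) :
    ∏ i ∈ range (s * N), f i = ∏ k ∈ range N, ∏ β ∈ range s, f (s * k + β) := by
  induction N with
  | zero => simp
  | succ N ih => rw [Nat.mul_succ, Finset.prod_range_add, ih, Finset.prod_range_succ]

section

variable {s c N : ℕ} {T : ℕ → ℕ} (hT : ∀ i j, i ≤ j → j < s * N → T i ≤ T j)
  (hs : ∀ i, i + s < s * N → T i < T (i + s))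

include hT hs in
lemma T_lt {β k k' : ℕ} (hβ : β < s) (hk : k < k') (hk' : k' < N) :
    T (s * k + β) < T (s * k' + β) := by
  have h1 : s * (k + 1) ≤ s * k' := Nat.mul_le_mul_left s hk
  have h2 : s * (k' + 1) ≤ s * N := Nat.mul_le_mul_left s hk'
  rw [Nat.mul_succ] at h1 h2
  exact lt_of_lt_of_le (hs (s * k + β) (by omega)) (hT _ _ (by omega) (by omega))

include hT hs in
/-- the pairs with the larger index `s k' + β` -/
lemma col {β k' : ℕ} (hβ : β < s) (hk' : k' < N) :
    ∏ i ∈ range (s * k' + β), D c (T i) (T (s * k' + β)) ≤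
      (∏ k ∈ range k', (nx c (T (s * k' + β)) - nx c (T (s * k + β)))) ^ s *
        (nx c (T (s * k' + β)) + 1) ^ s := by
  have h2 : s * (k' + 1) ≤ s * N := Nat.mul_le_mul_left s hk'
  rw [Nat.mul_succ] at h2
  have hj : s * k' + β < s * N := by omega
  obtain ⟨y, hy⟩ : ∃ y, y = T (s * k' + β) := ⟨_, rfl⟩
  rw [← hy]
  have e1 : ∏ i ∈ range (s * k' + β), D c (T i) y =
      (∏ i ∈ range β, D c (T i) y) * ∏ i ∈ range (s * k'), D c (T (β + i)) y := by
    rw [add_comm (s * k') β, Finset.prod_range_add]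
  have e2 : ∏ i ∈ range β, D c (T i) y ≤ (nx c y + 1) ^ s := by
    have h3 : ∏ i ∈ range β, D c (T i) y ≤ ∏ _i ∈ range β, (nx c y + 1) := by
      refine Finset.prod_le_prod (fun i _ => zero_le_one.trans (D_one _ _ _)) fun i hi => ?_
      rw [Finset.mem_range] at hi
      apply D_le'
      rw [hy]
      exact hT _ _ (by omega) hj
    refine h3.trans ?_
    rw [Finset.prod_const, Finset.card_range]
    exact pow_le_pow_right₀ (by linarith [nx_nonneg c y]) hβ.le
  have e3 : ∏ i ∈ range (s * k'), D c (T (β + i)) y ≤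
      (∏ k ∈ range k', (nx c y - nx c (T (s * k + β)))) ^ s := by
    rw [prod_blocks, ← Finset.prod_pow]
    refine Finset.prod_le_prod (fun i _ => Finset.prod_nonneg fun _ _ =>
      zero_le_one.trans (D_one _ _ _)) fun k hk => ?_
    rw [Finset.mem_range] at hk
    have h1 : s * (k + 1) ≤ s * k' := Nat.mul_le_mul_left s hk
    rw [Nat.mul_succ] at h1
    have h3 : ∏ γ ∈ range s, D c (T (β + (s * k + γ))) y ≤
        ∏ _γ ∈ range s, (nx c y - nx c (T (s * k + β))) := by
      refine Finset.prod_le_prod (fun i _ => zero_le_one.trans (D_one _ _ _)) fun γ hγ => ?_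
      rw [Finset.mem_range] at hγ
      apply D_le
      · exact hT _ _ (by omega) (by omega)
      · rw [hy]
        exact hT _ _ (by omega) hj
      · rw [hy]
        exact T_lt hT hs hβ hk hk'
    rwa [Finset.prod_const, Finset.card_range] at h3
  rw [e1, mul_comm]
  refine mul_le_mul e3 e2 (Finset.prod_nonneg fun _ _ => zero_le_one.trans (D_one _ _ _)) ?_
  refine pow_nonneg (Finset.prod_nonneg fun k hk => ?_) s
  rw [Finset.mem_range] at hk
  rw [hy]
  linarith [nx_gap c (T_lt hT hs hβ hk hk')]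

/-- the sets -/
def AA (s N : ℕ) (T : ℕ → ℕ) (β : ℕ) : Finset ℕ := (range N).image fun k => T (s * k + β)

include hT hs in
lemma AA_inj {β : ℕ} (hβ : β < s) {k : ℕ} (hk : k ∈ range N) {k' : ℕ} (hk' : k' ∈ range N)
    (h : T (s * k + β) = T (s * k' + β)) : k = k' := by
  rw [Finset.mem_range] at hk hk'
  rcases Nat.lt_trichotomy k k' with h1 | h1 | h1
  · exact absurd h (T_lt hT hs hβ h1 hk').ne
  · exact h1
  · exact absurd h.symm (T_lt hT hs hβ h1 hk).ne

include hT hs in
lemma AA_prod {β : ℕ} (hβ : β < s) (F : ℕ → ℝ) :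
    ∏ a ∈ AA s N T β, F a = ∏ k ∈ range N, F (T (s * k + β)) :=
  Finset.prod_image fun _ hk _ hk' h => AA_inj hT hs hβ hk hk' h

include hT hs in
lemma AA_card {β : ℕ} (hβ : β < s) : (AA s N T β).card = N := by
  unfold AA
  rw [Finset.card_image_of_injOn (fun _ hk _ hk' h => AA_inj hT hs hβ hk hk' h),
    Finset.card_range]

include hT hs in
lemma AA_vd {β : ℕ} (hβ : β < s) : vd c (AA s N T β) =
    ∏ k' ∈ range N, ∏ k ∈ range k', (nx c (T (s * k' + β)) - nx c (T (s * k + β))) := by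
  unfold vd
  rw [AA_prod hT hs hβ]
  have h1 : ∀ k ∈ range N, ∏ b ∈ (AA s N T β).filter (fun b => T (s * k + β) < b),
      (nx c b - nx c (T (s * k + β))) = ∏ k' ∈ range N, if k < k' then
        (nx c (T (s * k' + β)) - nx c (T (s * k + β))) else 1 := by
    intro k hk
    rw [Finset.prod_filter, AA_prod hT hs hβ]
    refine Finset.prod_congr rfl fun k' hk' => ?_
    rw [Finset.mem_range] at hk hk'
    congr 1
    rw [eq_iff_iff]
    constructor
    · intro h
      by_contra hc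
      rcases Nat.lt_or_ge k' k with h2 | h2
      · exact absurd h (T_lt hT hs hβ h2 hk).not_gt
      · have : k = k' := by omega
        rw [this] at h
        exact lt_irrefl _ h
    · exact fun h => T_lt hT hs hβ h hk'
  rw [Finset.prod_congr rfl h1, Finset.prod_comm]
  refine Finset.prod_congr rfl fun k' hk' => ?_
  rw [Finset.mem_range] at hk'
  rw [← Finset.prod_filter]
  congr 1
  ext k
  simp only [Finset.mem_filter, Finset.mem_range]
  omega

include hT hs in
lemma main_ineq : ∏ j ∈ range (s * N), ∏ i ∈ range j, D c (T i) (T j) ≤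
    (∏ β ∈ range s, vd c (AA s N T β)) ^ s * ∏ j ∈ range (s * N), (nx c (T j) + 1) ^ s := by
  rw [prod_blocks, prod_blocks]
  have h1 : (∏ β ∈ range s, vd c (AA s N T β)) ^ s = ∏ k' ∈ range N, ∏ β ∈ range s,
      (∏ k ∈ range k', (nx c (T (s * k' + β)) - nx c (T (s * k + β)))) ^ s := by
    rw [← Finset.prod_pow, Finset.prod_comm]
    refine Finset.prod_congr rfl fun β hβ => ?_
    rw [AA_vd hT hs (Finset.mem_range.1 hβ), ← Finset.prod_pow]
  rw [h1, ← Finset.prod_mul_distrib]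
  refine Finset.prod_le_prod (fun _ _ => Finset.prod_nonneg fun _ _ => Finset.prod_nonneg
    fun _ _ => zero_le_one.trans (D_one _ _ _)) fun k' hk' => ?_
  rw [← Finset.prod_mul_distrib]
  refine Finset.prod_le_prod (fun _ _ => Finset.prod_nonneg
    fun _ _ => zero_le_one.trans (D_one _ _ _)) fun β hβ => ?_
  exact col hT hs (Finset.mem_range.1 hβ) (Finset.mem_range.1 hk')

end

end RRaux

open RRaux in
theorem RR : S_RR := by
  intro s c N t hs1 _ hcard
  obtain ⟨σ, hσ⟩ : ∃ σ : Equiv.Perm (Fin (s * N)), Monotone (t ∘ σ) :=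
    ⟨Tuple.sort t, Tuple.monotone_sort t⟩
  obtain ⟨T, hTd⟩ : ∃ T, T = ex (t ∘ σ) := ⟨_, rfl⟩
  have hT : ∀ i j, i ≤ j → j < s * N → T i ≤ T j := by
    intro i j hij hj
    rw [hTd, ex_of _ (lt_of_le_of_lt hij hj), ex_of _ hj]
    exact hσ (by rw [Fin.mk_le_mk]; exact hij)
  have hs : ∀ i, i + s < s * N → T i < T (i + s) := by
    intro i hi
    refine lt_of_le_of_ne (hT _ _ (by omega) hi) fun hc => ?_
    have h1 := hcard (T i)
    have h2 : (Finset.univ.image fun γ : Fin (s + 1) =>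
        σ ⟨i + γ, by have := γ.2; omega⟩) ⊆ Finset.univ.filter fun j => t j = T i := by
      intro j hj
      obtain ⟨γ, _, rfl⟩ := Finset.mem_image.1 hj
      rw [Finset.mem_filter]
      refine ⟨Finset.mem_univ _, ?_⟩
      have hγ := γ.2
      have h3 : T (i + γ) = T i := by
        apply le_antisymm
        · rw [hc]
          exact hT _ _ (by omega) hi
        · exact hT _ _ (by omega) (by omega)
      rw [← h3, hTd, ex_of _ (by omega : i + (γ : ℕ) < s * N)]
      rfl
    have h3 := Finset.card_le_card h2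
    rw [Finset.card_image_of_injective, Finset.card_univ, Fintype.card_fin] at h3
    · omega
    · intro γ γ' h
      have h4 := σ.injective h
      rw [Fin.mk.injEq] at h4
      exact Fin.ext (by omega)
  have hprod : ∀ F : ℕ → ℝ, ∏ i, F (t i) = ∏ j ∈ Finset.range (s * N), F (T j) := by
    intro F
    rw [← Equiv.prod_comp σ, ← Fin.prod_univ_eq_prod_range]
    refine Finset.prod_congr rfl fun i _ => ?_
    rw [hTd, ex_coe]
    rfl
  refine ⟨fun β => AA s N T β, fun β => AA_card hT hs β.2, fun F => ?_, ?_⟩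
  · rw [hprod, prod_blocks, Finset.prod_comm,
      Fin.prod_univ_eq_prod_range (fun β => ∏ a ∈ AA s N T β, F a) s]
    exact Finset.prod_congr rfl fun β hβ => (AA_prod hT hs (Finset.mem_range.1 hβ) F).symm
  · have h1 : ∏ i : Fin (s * N), ∏ j ∈ Finset.Ioi i, max 1 |nx c (t j) - nx c (t i)| =
        ∏ j ∈ Finset.range (s * N), ∏ i ∈ Finset.range j, D c (T i) (T j) := by
      rw [← pairs_range (s * N) (fun i j => D c (T i) (T j))]
      have h2 := pairs_perm c (s * N) t σ
      unfold D at h2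
      rw [← h2]
      refine Finset.prod_congr rfl fun i _ => Finset.prod_congr rfl fun j _ => ?_
      rw [hTd, ex_coe, ex_coe]
      rfl
    rw [h1, hprod (fun a => (nx c a + 1) ^ s),
      Fin.prod_univ_eq_prod_range (fun β => vd c (AA s N T β)) s]
    exact main_ineq hT hs

end Pool.Agent.N334.W
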