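import Pool.Agent.N334.W.Stm

/-!
# The sum of the exponents over `2n/J < p ≤ 2n`
-/

set_option autoImplicit false

open Finset Filter Topology

namespace Pool.Agent.N334.W

theorem mem_PS {a b : ℝ} (hb : 0 ≤ b) {n p : ℕ} :
    p ∈ PS a b n ↔ p.Prime ∧ a * n < p ∧ (p : ℝ) ≤ b * n := by
  unfold PS
  rw [Finset.mem_filter, Finset.mem_range, Nat.lt_succ_iff, Nat.le_floor_iff (by positivity)]
  tauto

theorem PS_split {a b c : ℝ} (ha : 0 ≤ a) (hab : a ≤ b) (hbc : b ≤ c) (n : ℕ) (f : ℕ → ℝ) :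
    ∑ p ∈ PS a c n, f p = ∑ p ∈ PS a b n, f p + ∑ p ∈ PS b c n, f p := by
  have hb : 0 ≤ b := ha.trans hab
  have hc : 0 ≤ c := hb.trans hbc
  have hn : (0 : ℝ) ≤ n := by positivity
  have h1 : a * n ≤ b * n := mul_le_mul_of_nonneg_right hab hn
  have h2 : b * n ≤ c * n := mul_le_mul_of_nonneg_right hbc hn
  classical
  rw [← Finset.sum_union]
  · congr 1
    ext p
    rw [Finset.mem_union, mem_PS hc, mem_PS hb, mem_PS hc]
    constructor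
    · rintro ⟨h3, h4, h5⟩
      rcases le_or_gt (p : ℝ) (b * n) with h | h
      · exact Or.inl ⟨h3, h4, h⟩
      · exact Or.inr ⟨h3, h, h5⟩
    · rintro (⟨h3, h4, h5⟩ | ⟨h3, h4, h5⟩)
      · exact ⟨h3, h4, h5.trans h2⟩
      · exact ⟨h3, h1.trans_lt h4, h5⟩
  · rw [Finset.disjoint_left]
    intro p h3 h4
    rw [mem_PS hb] at h3
    rw [mem_PS hc] at h4
    exact absurd h3.2.2 (not_le.2 h4.2.1)

/-- the exponent on a block -/
theorem EP_le (b h n p J : ℕ) (hn : 1 ≤ n) (hp0 : 0 < p) (h1 : 2 * n < (J + 1) * p)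
    (h2 : J * p ≤ 2 * n) :
    EP b h n p ≤ (-2 * ((b : ℝ) + 1) ^ 2 + 2 * ((b : ℝ) + 1) * h - (h : ℝ) ^ 2 / 2) *
        (n : ℝ) ^ 2 / p +
      (((b : ℝ) + 1) ^ 2 - ((b : ℝ) + 1) * h * J + (h : ℝ) ^ 2 * (1 + 2 * J) / 4) * n +
      (-((h : ℝ) ^ 2 * J * (J + 1) / 8)) * p +
      (2 * ((b : ℝ) + 1) ^ 2 * (J + 1) + (2 * ((b : ℝ) + 1) * (J + 1) + h) ^ 2 / 4) := by
  have hm : ((((b + 1) * (n - 1) : ℕ)) : ℝ) = ((b : ℝ) + 1) * (n - 1) := by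
    rw [Nat.cast_mul, Nat.cast_sub hn]
    push_cast
    ring
  have hmod : ((2 * n % p : ℕ) : ℝ) = 2 * n - J * p := by
    have h3 : 2 * n % p = 2 * n - J * p := by
      have h4 : 2 * n = (2 * n - J * p) + p * J := by
        rw [mul_comm p J]
        omega
      have h5 : 2 * n - J * p < p := by
        have : (J + 1) * p = J * p + p := by ring
        omega
      conv_lhs => rw [h4]
      rw [Nat.add_mul_mod_self_left, Nat.mod_eq_of_lt h5]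
    rw [h3, Nat.cast_sub h2]
    push_cast
    ring
  have hpR : (0 : ℝ) < p := by exact_mod_cast hp0
  have hnR : (1 : ℝ) ≤ n := by exact_mod_cast hn
  have h1R : 2 * (n : ℝ) < (J + 1) * p := by exact_mod_cast h1
  have h2R : (J : ℝ) * p ≤ 2 * n := by exact_mod_cast h2
  have hb0 : (0 : ℝ) ≤ b := by positivity
  have hh0 : (0 : ℝ) ≤ h := by positivity
  have hJ0 : (0 : ℝ) ≤ J := by positivity
  obtain ⟨s, hs⟩ : ∃ s : ℝ, s = (b : ℝ) + 1 := ⟨_, rfl⟩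
  obtain ⟨x, hx⟩ : ∃ x : ℝ, x = (n : ℝ) / p := ⟨_, rfl⟩
  have hs0 : 0 < s := by
    rw [hs]
    linarith
  have hnx : (n : ℝ) = x * p := by
    rw [hx]
    field_simp
  have hx0 : 0 ≤ x := by
    rw [hx]
    positivity
  have hx1 : 2 * x ≤ J + 1 := by
    rw [hx, mul_div_assoc', div_le_iff₀ hpR]
    exact h1R.le
  have hφ : (J : ℝ) ≤ 2 * x := by
    rw [hx, mul_div_assoc', le_div_iff₀ hpR]
    exact h2R
  unfold EP
  rw [hm, hmod, ← hs]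
  have e1 : (2 * (n : ℝ) - J * p) / p = 2 * x - J := by
    rw [hx]
    field_simp
  have e1' : (h : ℝ) * (2 * (n : ℝ) - J * p) / p = h * (2 * x - J) := by
    rw [mul_div_assoc, e1]
  rw [e1', e1]
  have t1 : -2 * (s * ((n : ℝ) - 1)) ^ 2 / p ≤ -2 * s ^ 2 * (n : ℝ) ^ 2 / p +
      2 * s ^ 2 * (J + 1) := by
    have e2 : -2 * (s * ((n : ℝ) - 1)) ^ 2 / p = -2 * s ^ 2 * (n : ℝ) ^ 2 / p +
        4 * s ^ 2 * x - 2 * s ^ 2 / p := by
      rw [hx]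
      field_simp
      ring
    rw [e2]
    have h3 : 0 ≤ 2 * s ^ 2 / p := by positivity
    have h4 : 2 * s ^ 2 * (2 * x) ≤ 2 * s ^ 2 * (J + 1) :=
      mul_le_mul_of_nonneg_left hx1 (by positivity)
    linarith
  have t2 : (s + h * (2 * x - J)) * (s * ((n : ℝ) - 1)) ≤ (s + h * (2 * x - J)) * (s * n) := by
    refine mul_le_mul_of_nonneg_left ?_ ?_
    · exact mul_le_mul_of_nonneg_left (by linarith) hs0.le
    · have : 0 ≤ (h : ℝ) * (2 * x - J) := mul_nonneg hh0 (by linarith)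
      linarith
  have t3 : (4 * (s * ((n : ℝ) - 1)) / p + h) ^ 2 / 4 ≤ (2 * s * (J + 1) + h) ^ 2 / 4 := by
    refine div_le_div_of_nonneg_right ?_ (by norm_num)
    have h5 : 0 ≤ 4 * (s * ((n : ℝ) - 1)) / p := by
      refine div_nonneg ?_ hpR.le
      exact mul_nonneg (by norm_num) (mul_nonneg hs0.le (by linarith))
    have h6 : 4 * (s * ((n : ℝ) - 1)) / p ≤ 2 * s * (J + 1) := by
      rw [div_le_iff₀ hpR]
      have h7 : 4 * (s * ((n : ℝ) - 1)) ≤ 2 * s * (2 * n) := by nlinarith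
      have h8 : 2 * s * (2 * (n : ℝ)) ≤ 2 * s * ((J + 1) * p) :=
        mul_le_mul_of_nonneg_left h1R.le (by positivity)
      linarith
    exact pow_le_pow_left₀ (by positivity) (by linarith) 2
  have e3 : (-2 * s ^ 2 + 2 * s * h - (h : ℝ) ^ 2 / 2) * (n : ℝ) ^ 2 / p +
      (s ^ 2 - s * h * J + (h : ℝ) ^ 2 * (1 + 2 * J) / 4) * n +
      (-((h : ℝ) ^ 2 * J * (J + 1) / 8)) * p =
      -2 * s ^ 2 * (n : ℝ) ^ 2 / p + (s + h * (2 * x - J)) * (s * n) +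
        (h : ℝ) ^ 2 * (2 * x - J) * (1 - (2 * x - J)) * p / 8 := by
    rw [hnx]
    field_simp
    ring
  linarith

theorem SE_block (hPN : S_PN) (b h J : ℕ) (ε : ℝ) (hJ : 1 ≤ J) (hε : 0 < ε) :
    ∀ᶠ n : ℕ in atTop, ∑ p ∈ PS (2 / ((J : ℝ) + 1)) (2 / J) n, EP b h n p * Real.log p ≤
      (n : ℝ) ^ 2 * ((-2 * ((b : ℝ) + 1) ^ 2 + 2 * ((b : ℝ) + 1) * h - (h : ℝ) ^ 2 / 2) *
        Real.log (((J : ℝ) + 1) / J) +
      (((b : ℝ) + 1) ^ 2 - ((b : ℝ) + 1) * h * J + (h : ℝ) ^ 2 * (1 + 2 * J) / 4) *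
        (2 / J - 2 / ((J : ℝ) + 1)) +
      (-((h : ℝ) ^ 2 * J * (J + 1) / 8)) * (((2 / (J : ℝ)) ^ 2 - (2 / ((J : ℝ) + 1)) ^ 2) / 2) +
      ε) := by
  have hJR : (1 : ℝ) ≤ J := by exact_mod_cast hJ
  obtain ⟨α, hα⟩ : ∃ α : ℝ, α = -2 * ((b : ℝ) + 1) ^ 2 + 2 * ((b : ℝ) + 1) * h -
    (h : ℝ) ^ 2 / 2 := ⟨_, rfl⟩
  obtain ⟨β, hβ⟩ : ∃ β : ℝ, β = ((b : ℝ) + 1) ^ 2 - ((b : ℝ) + 1) * h * J +
    (h : ℝ) ^ 2 * (1 + 2 * J) / 4 := ⟨_, rfl⟩
  obtain ⟨γ, hγ⟩ : ∃ γ : ℝ, γ = -((h : ℝ) ^ 2 * J * (J + 1) / 8) := ⟨_, rfl⟩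
  obtain ⟨C, hC⟩ : ∃ C : ℝ, C = 2 * ((b : ℝ) + 1) ^ 2 * (J + 1) +
    (2 * ((b : ℝ) + 1) * (J + 1) + h) ^ 2 / 4 := ⟨_, rfl⟩
  rw [← hα, ← hβ, ← hγ]
  have hlt : 2 / ((J : ℝ) + 1) < 2 / J :=
    div_lt_div_of_pos_left (by norm_num) (by linarith) (by linarith)
  have hlim := hPN (2 / ((J : ℝ) + 1)) (2 / J) α (β + ε / 4) γ (by positivity) hlt
  have hΔ : 2 / (J : ℝ) - 2 / ((J : ℝ) + 1) ≤ 2 := by
    have h1 : 2 / (J : ℝ) ≤ 2 := by
      rw [div_le_iff₀ (by linarith)]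
      linarith
    have h2 : 0 ≤ 2 / ((J : ℝ) + 1) := by positivity
    linarith
  have hlog : 2 / (J : ℝ) / (2 / ((J : ℝ) + 1)) = ((J : ℝ) + 1) / J := by
    field_simp
  rw [hlog] at hlim
  have hlt2 : α * Real.log (((J : ℝ) + 1) / J) + (β + ε / 4) * (2 / J - 2 / ((J : ℝ) + 1)) +
      γ * (((2 / (J : ℝ)) ^ 2 - (2 / ((J : ℝ) + 1)) ^ 2) / 2) <
      α * Real.log (((J : ℝ) + 1) / J) + β * (2 / J - 2 / ((J : ℝ) + 1)) +
      γ * (((2 / (J : ℝ)) ^ 2 - (2 / ((J : ℝ) + 1)) ^ 2) / 2) + ε := by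
    generalize 2 / (J : ℝ) - 2 / ((J : ℝ) + 1) = Δ at hΔ ⊢
    generalize (2 / (J : ℝ)) ^ 2 - (2 / ((J : ℝ) + 1)) ^ 2 = Δ2
    generalize Real.log (((J : ℝ) + 1) / J) = Δ3
    have h6 : ε / 4 * Δ ≤ ε / 4 * 2 := mul_le_mul_of_nonneg_left hΔ (by linarith)
    linarith
  have hev := hlim.eventually_lt_const hlt2
  have hev2 : ∀ᶠ n : ℕ in atTop, 1 ≤ n := eventually_ge_atTop 1
  have hev3 : ∀ᶠ n : ℕ in atTop, C / (ε / 4) ≤ (n : ℝ) :=
    tendsto_natCast_atTop_atTop.eventually (eventually_ge_atTop _)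
  filter_upwards [hev, hev2, hev3] with n hn1 hn2 hn3
  have hnR : (1 : ℝ) ≤ n := by exact_mod_cast hn2
  rw [div_le_iff₀ (by positivity)] at hn3
  rw [div_lt_iff₀ (by positivity)] at hn1
  refine le_trans ?_ (hn1.le.trans (le_of_eq (by ring)))
  refine Finset.sum_le_sum fun p hp => ?_
  rw [mem_PS (by positivity)] at hp
  obtain ⟨hp1, hp2, hp3⟩ := hp
  have hp0 : 0 < p := hp1.pos
  have hpR : (0 : ℝ) < p := by exact_mod_cast hp0
  rw [div_mul_eq_mul_div, div_lt_iff₀ (by positivity)] at hp2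
  rw [div_mul_eq_mul_div, le_div_iff₀ (by positivity)] at hp3
  have h1 : 2 * n < (J + 1) * p := by
    have : 2 * (n : ℝ) < (J + 1) * p := by linarith
    exact_mod_cast this
  have h2 : J * p ≤ 2 * n := by
    have : (J : ℝ) * p ≤ 2 * n := by linarith
    exact_mod_cast this
  have h3 := EP_le b h n p J hn2 hp0 h1 h2
  rw [← hα, ← hβ, ← hγ, ← hC] at h3
  refine mul_le_mul_of_nonneg_right ?_ (Real.log_natCast_nonneg p)
  linarith

theorem e0_one (s h : ℕ) : e0 s h 1 = 0 := by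
  unfold e0 Hn
  simp

theorem e0_succ (b h J : ℕ) (hJ : 1 ≤ J) : e0 (b + 1) h (J + 1) = e0 (b + 1) h J +
    ((-2 * ((b : ℝ) + 1) ^ 2 + 2 * ((b : ℝ) + 1) * h - (h : ℝ) ^ 2 / 2) *
        Real.log (((J : ℝ) + 1) / J) +
      (((b : ℝ) + 1) ^ 2 - ((b : ℝ) + 1) * h * J + (h : ℝ) ^ 2 * (1 + 2 * J) / 4) *
        (2 / J - 2 / ((J : ℝ) + 1)) +
      (-((h : ℝ) ^ 2 * J * (J + 1) / 8)) * (((2 / (J : ℝ)) ^ 2 - (2 / ((J : ℝ) + 1)) ^ 2) / 2)) := by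
  have hJR : (1 : ℝ) ≤ J := by exact_mod_cast hJ
  have h1 : Hn (J + 1) = Hn J + 1 / ((J : ℝ) + 1) := by
    unfold Hn
    rw [Finset.sum_range_succ]
  have h2 : Hn J = Hn (J - 1) + 1 / J := by
    unfold Hn
    obtain ⟨K, rfl⟩ : ∃ K, J = K + 1 := ⟨J - 1, by omega⟩
    rw [Nat.add_sub_cancel, Finset.sum_range_succ]
    push_cast
    ring
  have h3 : Real.log (((J : ℝ) + 1) / J) = Real.log ((J : ℝ) + 1) - Real.log J :=
    Real.log_div (by positivity) (by positivity)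
  unfold e0
  rw [Nat.add_sub_cancel, h1, h3, h2]
  push_cast
  field_simp
  ring

theorem SE_of (hPN : S_PN) : S_SE := by
  intro b h J ε hJ
  revert ε
  induction J, hJ using Nat.le_induction with
  | base =>
    intro ε hε
    rw [e0_one]
    refine Eventually.of_forall fun n => ?_
    have h1 : PS (2 / ((1 : ℕ) : ℝ)) 2 n = ∅ := by
      rw [Finset.eq_empty_iff_forall_notMem]
      intro p hp
      rw [mem_PS (by norm_num), Nat.cast_one, div_one] at hp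
      linarith [hp.2.1, hp.2.2]
    rw [h1, Finset.sum_empty]
    positivity
  | succ J hJ ih =>
    intro ε hε
    have hJR : (1 : ℝ) ≤ J := by exact_mod_cast hJ
    filter_upwards [ih (ε / 2) (by linarith), SE_block hPN b h J (ε / 2) hJ (by linarith)]
      with n h1 h2
    have h3 : 2 / (((J + 1 : ℕ)) : ℝ) = 2 / ((J : ℝ) + 1) := by push_cast; rfl
    have h4 : 2 / ((J : ℝ) + 1) ≤ 2 / J :=
      div_le_div_of_nonneg_left (by norm_num) (by linarith) (by linarith)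
    have h5 : 2 / (J : ℝ) ≤ 2 := by
      rw [div_le_iff₀ (by linarith)]
      linarith
    rw [h3, PS_split (by positivity) h4 h5, e0_succ b h J hJ]
    refine (add_le_add h2 h1).trans (le_of_eq ?_)
    ring

end Pool.Agent.N334.W
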