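import Pool.Agent.N334.W.Stm

/-!
# Project WD: the sum over the small primes
-/

set_option autoImplicit false

open Filter Topology Finset
open ArithmeticFunction (vonMangoldt)

namespace Pool.Agent.N334.W

theorem SS_log_padic (p : ℕ) (hp : p.Prime) (N : ℕ) :
    Real.log ((padicNorm p ((N.factorial : ℕ) : ℚ) : ℚ) : ℝ) =
      -((padicValNat p N.factorial : ℝ) * Real.log p) := by
  have : Fact p.Prime := ⟨hp⟩
  have h0 : ((N.factorial : ℕ) : ℚ) ≠ 0 := by exact_mod_cast N.factorial_ne_zero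
  rw [padicNorm.eq_zpow_of_nonzero h0, padicValRat.of_nat, Rat.cast_zpow, Rat.cast_natCast,
    Real.log_zpow, Int.cast_neg, Int.cast_natCast]
  ring

theorem SS_padic_pos (p : ℕ) (hp : p.Prime) (N : ℕ) :
    0 < ((padicNorm p ((N.factorial : ℕ) : ℚ) : ℚ) : ℝ) := by
  have : Fact p.Prime := ⟨hp⟩
  have h0 : ((N.factorial : ℕ) : ℚ) ≠ 0 := by exact_mod_cast N.factorial_ne_zero
  have : padicNorm p ((N.factorial : ℕ) : ℚ) ≠ 0 := padicNorm.nonzero h0
  have h1 : 0 < padicNorm p ((N.factorial : ℕ) : ℚ) := lt_of_le_of_ne (padicNorm.nonneg _) this.symm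
  exact_mod_cast h1

theorem SS_term (p K l m : ℕ) (hp : p.Prime) :
    Real.log (((p : ℝ) ^ l) ^ K * ∏ i ∈ Finset.range m,
      ((padicNorm p (((2 * i - 1).factorial : ℕ) : ℚ) : ℚ) : ℝ) ^ 2) =
      (K : ℝ) * ((l : ℝ) * Real.log p) -
        2 * ∑ i ∈ Finset.range m, (padicValNat p (2 * i - 1).factorial : ℝ) * Real.log p := by
  have hp0 : (p : ℝ) ≠ 0 := by exact_mod_cast hp.ne_zero
  have h1 : ∀ i ∈ Finset.range m,
      ((padicNorm p (((2 * i - 1).factorial : ℕ) : ℚ) : ℚ) : ℝ) ^ 2 ≠ 0 := by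
    intro i _
    exact pow_ne_zero _ (SS_padic_pos p hp _).ne'
  rw [Real.log_mul (pow_ne_zero _ (pow_ne_zero _ hp0)) (Finset.prod_ne_zero_iff.2 h1),
    Real.log_pow, Real.log_pow, Real.log_prod h1]
  have h2 : ∀ i ∈ Finset.range m,
      Real.log (((padicNorm p (((2 * i - 1).factorial : ℕ) : ℚ) : ℚ) : ℝ) ^ 2) =
        -(2 * ((padicValNat p (2 * i - 1).factorial : ℝ) * Real.log p)) := by
    intro i _
    rw [Real.log_pow, SS_log_padic p hp]
    push_cast
    ring
  rw [Finset.sum_congr rfl h2, Finset.sum_neg_distrib, ← Finset.mul_sum]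
  ring

theorem SS_smooth (X0 i : ℕ) (hi : i ≠ 0) :
    ∑ j ∈ Finset.Icc 1 X0, (if j ∣ i then vonMangoldt j else 0) ≤
      ∑ p ∈ (Finset.range (X0 + 1)).filter Nat.Prime, (padicValNat p i : ℝ) * Real.log p := by
  set S := (Finset.range (X0 + 1)).filter Nat.Prime with hS
  have hpr : ∀ p ∈ S, p.Prime := fun p hp => (Finset.mem_filter.1 hp).2
  let y : ℕ := ∏ p ∈ S, p ^ (i.factorization p)
  have hy : y ≠ 0 := Finset.prod_ne_zero_iff.2 fun p hp => pow_ne_zero _ (hpr p hp).ne_zero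
  have hlog : Real.log y = ∑ p ∈ S, (padicValNat p i : ℝ) * Real.log p := by
    have h1 : ((y : ℕ) : ℝ) = ∏ p ∈ S, (p : ℝ) ^ (i.factorization p) := by
      simp only [y]; push_cast; rfl
    rw [h1, Real.log_prod (fun p hp => pow_ne_zero _ (by exact_mod_cast (hpr p hp).ne_zero))]
    refine Finset.sum_congr rfl fun p hp => ?_
    rw [Real.log_pow, Nat.factorization_def i (hpr p hp)]
  rw [← hlog, ← ArithmeticFunction.vonMangoldt_sum, ← Finset.sum_filter,
    ← Finset.sum_filter_ne_zero]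
  apply Finset.sum_le_sum_of_subset_of_nonneg
  · intro j hj
    rw [Finset.mem_filter, Finset.mem_filter, Finset.mem_Icc] at hj
    obtain ⟨⟨⟨hj1, hj2⟩, hji⟩, hj0⟩ := hj
    rw [ArithmeticFunction.vonMangoldt_ne_zero_iff, isPrimePow_nat_iff] at hj0
    obtain ⟨p, k, hp, hk, rfl⟩ := hj0
    rw [Nat.mem_divisors]
    refine ⟨?_, hy⟩
    have hpX : p ≤ X0 := (Nat.le_self_pow hk.ne' p).trans hj2
    have hpS : p ∈ S := Finset.mem_filter.2 ⟨Finset.mem_range.2 (by omega), hp⟩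
    have hkf : k ≤ i.factorization p := (hp.pow_dvd_iff_le_factorization hi).1 hji
    exact (pow_dvd_pow p hkf).trans (Finset.dvd_prod_of_mem (fun p => p ^ (i.factorization p)) hpS)
  · intro j _ _
    exact ArithmeticFunction.vonMangoldt_nonneg

theorem SS_G (X0 N : ℕ) :
    ∑ j ∈ Finset.Icc 1 X0, vonMangoldt j * ((N / j : ℕ) : ℝ) ≤
      ∑ p ∈ (Finset.range (X0 + 1)).filter Nat.Prime,
        (padicValNat p N.factorial : ℝ) * Real.log p := by
  induction N with
  | zero => simp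
  | succ N ih =>
    have h1 : ∑ j ∈ Finset.Icc 1 X0, vonMangoldt j * (((N + 1) / j : ℕ) : ℝ) =
        ∑ j ∈ Finset.Icc 1 X0, vonMangoldt j * ((N / j : ℕ) : ℝ) +
        ∑ j ∈ Finset.Icc 1 X0, (if j ∣ (N + 1) then vonMangoldt j else 0) := by
      rw [← Finset.sum_add_distrib]
      refine Finset.sum_congr rfl fun j _ => ?_
      rw [Nat.succ_div]
      split_ifs <;> push_cast <;> ring
    have h2 : ∑ p ∈ (Finset.range (X0 + 1)).filter Nat.Prime,
        (padicValNat p (N + 1).factorial : ℝ) * Real.log p =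
        ∑ p ∈ (Finset.range (X0 + 1)).filter Nat.Prime,
          (padicValNat p N.factorial : ℝ) * Real.log p +
        ∑ p ∈ (Finset.range (X0 + 1)).filter Nat.Prime,
          (padicValNat p (N + 1) : ℝ) * Real.log p := by
      rw [← Finset.sum_add_distrib]
      refine Finset.sum_congr rfl fun p hp => ?_
      have : Fact p.Prime := ⟨(Finset.mem_filter.1 hp).2⟩
      rw [Nat.factorial_succ, padicValNat.mul (Nat.succ_ne_zero N) (Nat.factorial_ne_zero N)]
      push_cast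
      ring
    rw [h1, h2]
    exact add_le_add ih (SS_smooth X0 (N + 1) (Nat.succ_ne_zero N))

theorem SS_low (X0 N : ℕ) :
    (N : ℝ) * (∑ j ∈ Finset.Icc 1 X0, vonMangoldt j / j) - Chebyshev.psi (X0 : ℝ) ≤
      ∑ j ∈ Finset.Icc 1 X0, vonMangoldt j * ((N / j : ℕ) : ℝ) := by
  have hpsi : Chebyshev.psi (X0 : ℝ) = ∑ j ∈ Finset.Icc 1 X0, vonMangoldt j := by
    unfold Chebyshev.psi
    rw [Nat.floor_natCast]
    rfl
  rw [hpsi, Finset.mul_sum, ← Finset.sum_sub_distrib]
  refine Finset.sum_le_sum fun j hj => ?_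
  have hj1 : 1 ≤ j := (Finset.mem_Icc.1 hj).1
  have hj0 : (0 : ℝ) < j := by exact_mod_cast hj1
  have hΛ : 0 ≤ vonMangoldt j := ArithmeticFunction.vonMangoldt_nonneg
  have h1 : (N : ℝ) / j ≤ ((N / j : ℕ) : ℝ) + 1 := by
    rw [div_le_iff₀ hj0]
    have h2 : N ≤ (N / j + 1) * j := by
      have h3 := Nat.div_add_mod N j
      have h4 := Nat.mod_lt N hj1
      nlinarith
    exact_mod_cast h2
  have h5 : (N : ℝ) * (vonMangoldt j / j) = vonMangoldt j * ((N : ℝ) / j) := by ring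
  rw [h5]
  nlinarith

theorem SS_odd (m : ℕ) (hm : 1 ≤ m) :
    ∑ i ∈ Finset.range m, (((2 * i - 1 : ℕ)) : ℝ) = ((m : ℝ) - 1) ^ 2 := by
  induction m, hm using Nat.le_induction with
  | base => simp
  | succ m hm ih =>
    rw [Finset.sum_range_succ, ih]
    have : ((2 * m - 1 : ℕ) : ℝ) = 2 * (m : ℝ) - 1 := by
      rw [Nat.cast_sub (by omega)]; push_cast; ring
    rw [this]; push_cast; ring

theorem SS_main (K n m X0 : ℕ) (hm : 1 ≤ m) (hn : 1 ≤ n) :
    ∑ p ∈ (Finset.range (X0 + 1)).filter Nat.Prime, Real.log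
      (((p : ℝ) ^ Nat.log p (2 * m + 4 * n)) ^ K *
        ∏ i ∈ Finset.range m, ((padicNorm p (((2 * i - 1).factorial : ℕ) : ℚ) : ℚ) : ℝ) ^ 2) ≤
      (K : ℝ) * (Nat.primeCounting X0 * Real.log (2 * m + 4 * n)) -
        2 * (((m : ℝ) - 1) ^ 2 * (∑ j ∈ Finset.Icc 1 X0, vonMangoldt j / j) -
          m * Chebyshev.psi (X0 : ℝ)) := by
  set S := (Finset.range (X0 + 1)).filter Nat.Prime with hS
  have hpr : ∀ p ∈ S, p.Prime := fun p hp => (Finset.mem_filter.1 hp).2
  rw [Finset.sum_congr rfl fun p hp => SS_term p K _ m (hpr p hp), Finset.sum_sub_distrib]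
  have h1 : ∑ p ∈ S, (K : ℝ) * (((Nat.log p (2 * m + 4 * n) : ℕ) : ℝ) * Real.log p) ≤
      (K : ℝ) * (Nat.primeCounting X0 * Real.log (2 * m + 4 * n)) := by
    rw [← Finset.mul_sum]
    refine mul_le_mul_of_nonneg_left ?_ (Nat.cast_nonneg _)
    have hc : Nat.primeCounting X0 = S.card := by
      rw [Nat.primeCounting, Nat.primeCounting', Nat.count_eq_card_filter_range]
    rw [hc, ← nsmul_eq_mul, ← Finset.sum_const]
    refine Finset.sum_le_sum fun p hp => ?_
    rw [← Real.log_pow]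
    apply Real.log_le_log
    · have : (0 : ℝ) < p := by exact_mod_cast (hpr p hp).pos
      positivity
    · have h2 : p ^ Nat.log p (2 * m + 4 * n) ≤ 2 * m + 4 * n :=
        Nat.pow_log_le_self p (by omega)
      exact_mod_cast h2
  have h2 : ((m : ℝ) - 1) ^ 2 * (∑ j ∈ Finset.Icc 1 X0, vonMangoldt j / j) -
      m * Chebyshev.psi (X0 : ℝ) ≤
      ∑ p ∈ S, ∑ i ∈ Finset.range m,
        (padicValNat p (2 * i - 1).factorial : ℝ) * Real.log p := by
    rw [Finset.sum_comm, ← SS_odd m hm, Finset.sum_mul]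
    have h3 : (m : ℝ) * Chebyshev.psi (X0 : ℝ) =
        ∑ i ∈ Finset.range m, Chebyshev.psi (X0 : ℝ) := by simp
    rw [h3, ← Finset.sum_sub_distrib]
    exact Finset.sum_le_sum fun i _ => (SS_low X0 (2 * i - 1)).trans (SS_G X0 (2 * i - 1))
  have h3 : ∑ p ∈ S, 2 * ∑ i ∈ Finset.range m,
      (padicValNat p (2 * i - 1).factorial : ℝ) * Real.log p =
      2 * ∑ p ∈ S, ∑ i ∈ Finset.range m,
        (padicValNat p (2 * i - 1).factorial : ℝ) * Real.log p := by
    rw [Finset.mul_sum]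
  rw [h3]
  linarith

theorem SS_of (hME : S_ME) : S_SS := by
  intro b h
  refine ⟨8 * ((h : ℝ) + b) * (b + 1) + 24 * (b + 1), ?_⟩
  intro J ε hJ hε
  set s : ℝ := (b : ℝ) + 1 with hs
  have hs1 : 1 ≤ s := by
    have : (0 : ℝ) ≤ b := Nat.cast_nonneg b
    linarith
  have hJ0 : (0 : ℝ) < J := by exact_mod_cast hJ
  -- `X n = (2 / J) n`
  have hX : Tendsto (fun n : ℕ => (2 / (J : ℝ)) * (n : ℝ)) atTop atTop :=
    tendsto_natCast_atTop_atTop.const_mul_atTop (by positivity)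
  have hX0 : Tendsto (fun n : ℕ => ⌊(2 / (J : ℝ)) * (n : ℝ)⌋₊) atTop atTop :=
    tendsto_nat_floor_atTop.comp hX
  set ε' : ℝ := ε / (8 * s ^ 2) with hε'
  have hε'0 : 0 < ε' := by positivity
  have e1 := hX0.eventually (hME ε' hε'0)
  have e2 : ∀ᶠ n : ℕ in atTop, Real.log ((2 / (J : ℝ)) * (n : ℝ)) - ε' ≤
      Real.log ((⌊(2 / (J : ℝ)) * (n : ℝ)⌋₊ : ℕ) : ℝ) := by
    have h1 : Tendsto (fun x : ℝ => Real.log ((⌊x⌋₊ : ℝ) / x)) atTop (𝓝 0) := by
      have := (Real.continuousAt_log one_ne_zero).tendsto.comp (tendsto_nat_floor_div_atTop (R := ℝ))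
      simpa [Function.comp_def] using this
    have h2 := hX.eventually (h1.eventually (lt_mem_nhds (show -ε' < 0 by linarith)))
    filter_upwards [h2, hX.eventually (eventually_ge_atTop 1)] with n hn hn1
    have h3 : (0 : ℝ) < ((⌊(2 / (J : ℝ)) * (n : ℝ)⌋₊ : ℕ) : ℝ) := by
      exact_mod_cast Nat.floor_pos.2 hn1
    rw [Real.log_div h3.ne' (by linarith)] at hn
    linarith
  have e3 := hX.eventually (Chebyshev.eventually_primeCounting_le (ε := 2 - Real.log 4) (by
    have : Real.log 4 < 2 := by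
      have h1 : Real.log 4 = 2 * Real.log 2 := by
        rw [show (4 : ℝ) = 2 ^ 2 by norm_num, Real.log_pow]; push_cast; ring
      have := Real.log_two_lt_d9
      linarith
    linarith))
  have e4 : ∀ᶠ n : ℕ in atTop, Real.log ((2 * s + 4) * (n : ℝ)) ≤
      2 * Real.log ((2 / (J : ℝ)) * (n : ℝ)) := by
    have h1 : Tendsto (fun n : ℕ => Real.log (n : ℝ)) atTop atTop :=
      Real.tendsto_log_atTop.comp tendsto_natCast_atTop_atTop
    filter_upwards [h1.eventually (eventually_ge_atTop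
      (Real.log (2 * s + 4) - 2 * Real.log (2 / (J : ℝ)))), eventually_ge_atTop 1] with n hn hn1
    have hn0 : (n : ℝ) ≠ 0 := by
      have : n ≠ 0 := by omega
      exact_mod_cast this
    rw [Real.log_mul (by positivity) hn0, Real.log_mul (by positivity) hn0]
    linarith
  have e5 : ∀ᶠ n : ℕ in atTop, 4 * s * (s + 1) * Real.log ((2 / (J : ℝ)) * (n : ℝ)) ≤
      ε / 2 * n := by
    have h1 : Tendsto (fun x : ℝ => Real.log x / x) atTop (𝓝 0) := by
      have := Real.isLittleO_log_id_atTop.tendsto_div_nhds_zero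
      simpa using this
    have h2 := hX.eventually (h1.eventually (gt_mem_nhds
      (show (0 : ℝ) < ε / 2 / (4 * s * (s + 1) * (2 / (J : ℝ))) by positivity)))
    filter_upwards [h2, hX.eventually (eventually_ge_atTop 1)] with n hn hn1
    have hXp : 0 < (2 / (J : ℝ)) * (n : ℝ) := by linarith
    have hn := (div_lt_div_iff₀ hXp (by positivity)).1 hn
    have h3 : (0 : ℝ) < 2 / (J : ℝ) := by positivity
    have h4 : (2 / (J : ℝ)) * (4 * s * (s + 1) * Real.log ((2 / (J : ℝ)) * (n : ℝ))) ≤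
        (2 / (J : ℝ)) * (ε / 2 * n) := by nlinarith
    exact le_of_mul_le_mul_left h4 h3
  have e6 : ∀ᶠ n : ℕ in atTop, Real.eulerMascheroniConstant + 2 * ε' ≤
      Real.log ((2 / (J : ℝ)) * (n : ℝ)) :=
    (Real.tendsto_log_atTop.comp hX).eventually (eventually_ge_atTop _)
  filter_upwards [e1, e2, e3, e4, e5, e6, hX.eventually (eventually_ge_atTop 2),
    eventually_ge_atTop 2] with n h1 h2 h3 h4 h5 h6 h7 hn
  set X : ℝ := (2 / (J : ℝ)) * (n : ℝ) with hXd
  set X0 : ℕ := ⌊X⌋₊ with hX0d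
  set m : ℕ := (b + 1) * (n - 1) with hm
  have hnR : (2 : ℝ) ≤ n := by exact_mod_cast hn
  have hmR : (m : ℝ) = s * (n - 1) := by
    rw [hm]; push_cast [Nat.cast_sub (show 1 ≤ n by omega)]; rfl
  have hm1 : 1 ≤ m := Nat.mul_pos (Nat.succ_pos b) (by omega)
  have hPS : PS 0 (2 / J) n = (Finset.range (X0 + 1)).filter Nat.Prime := by
    ext p
    unfold PS
    simp only [Finset.mem_filter, zero_mul]
    constructor
    · rintro ⟨a1, a2, -⟩
      exact ⟨a1, a2⟩
    · rintro ⟨a1, a2⟩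
      exact ⟨a1, a2, by exact_mod_cast a2.pos⟩
  rw [hPS]
  refine (SS_main ((h + b) * m) n m X0 hm1 (by omega)).trans ?_
  have hγ : Real.eulerMascheroniConstant < 1 := by
    have := Real.eulerMascheroniConstant_lt_two_thirds
    linarith
  -- the first part
  have hlog0 : 0 < Real.log X := Real.log_pos (by linarith)
  have hpi : (Nat.primeCounting X0 : ℝ) * Real.log (2 * m + 4 * n) ≤ 4 * X := by
    have a1 : Real.log (2 * (m : ℝ) + 4 * n) ≤ 2 * Real.log X := by
      refine le_trans (Real.log_le_log ?_ ?_) h4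
      · have : (0 : ℝ) ≤ m := Nat.cast_nonneg m
        linarith
      · rw [hmR]; nlinarith
    have a2 : (Nat.primeCounting X0 : ℝ) ≤ 2 * X / Real.log X := by
      have : Real.log 4 + (2 - Real.log 4) = 2 := by ring
      rw [this] at h3
      exact h3
    have a3 : (0 : ℝ) ≤ (Nat.primeCounting X0 : ℝ) := Nat.cast_nonneg _
    calc (Nat.primeCounting X0 : ℝ) * Real.log (2 * m + 4 * n)
        ≤ (Nat.primeCounting X0 : ℝ) * (2 * Real.log X) := mul_le_mul_of_nonneg_left a1 a3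
      _ ≤ (2 * X / Real.log X) * (2 * Real.log X) :=
          mul_le_mul_of_nonneg_right a2 (by positivity)
      _ = 4 * X := by field_simp; ring
  have hpsi : Chebyshev.psi (X0 : ℝ) ≤ 6 * X := by
    have a1 : (X0 : ℝ) ≤ X := Nat.floor_le (by linarith)
    have a2 := Chebyshev.psi_le_const_mul_self (x := (X0 : ℝ)) (Nat.cast_nonneg _)
    have a3 : Real.log 4 < 2 := by
      have h1 : Real.log 4 = 2 * Real.log 2 := by
        rw [show (4 : ℝ) = 2 ^ 2 by norm_num, Real.log_pow]; push_cast; ring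
      have := Real.log_two_lt_d9
      linarith
    have a4 : (0 : ℝ) ≤ (X0 : ℝ) := Nat.cast_nonneg _
    nlinarith
  have hmn : (m : ℝ) ≤ s * n := by rw [hmR]; nlinarith
  have hm0 : (0 : ℝ) ≤ m := Nat.cast_nonneg m
  have hXn : X * n = 2 * (n : ℝ) ^ 2 / J := by rw [hXd]; ring
  have p1 : (((h + b) * m : ℕ) : ℝ) * ((Nat.primeCounting X0 : ℝ) * Real.log (2 * m + 4 * n)) ≤
      8 * ((h : ℝ) + b) * s * (n : ℝ) ^ 2 / J := by
    push_cast
    have a1 : (0 : ℝ) ≤ (h : ℝ) + b := by positivity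
    calc ((h : ℝ) + b) * m * ((Nat.primeCounting X0 : ℝ) * Real.log (2 * m + 4 * n))
        ≤ ((h : ℝ) + b) * m * (4 * X) := mul_le_mul_of_nonneg_left hpi (by positivity)
      _ ≤ ((h : ℝ) + b) * (s * n) * (4 * X) := by
          apply mul_le_mul_of_nonneg_right _ (by linarith)
          exact mul_le_mul_of_nonneg_left hmn a1
      _ = 4 * ((h : ℝ) + b) * s * (X * n) := by ring
      _ = 8 * ((h : ℝ) + b) * s * (n : ℝ) ^ 2 / J := by rw [hXn]; ring
  have p2 : 2 * ((m : ℝ) * Chebyshev.psi (X0 : ℝ)) ≤ 24 * s * (n : ℝ) ^ 2 / J := by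
    calc 2 * ((m : ℝ) * Chebyshev.psi (X0 : ℝ)) ≤ 2 * ((m : ℝ) * (6 * X)) := by
          have := mul_le_mul_of_nonneg_left hpsi hm0
          linarith
      _ ≤ 2 * ((s * n) * (6 * X)) := by
          have := mul_le_mul_of_nonneg_right hmn (show (0 : ℝ) ≤ 6 * X by linarith)
          linarith
      _ = 12 * s * (X * n) := by ring
      _ = 24 * s * (n : ℝ) ^ 2 / J := by rw [hXn]; ring
  -- the main part
  set L : ℝ := ∑ j ∈ Finset.Icc 1 X0, vonMangoldt j / j with hL
  have hL1 : Real.log X - Real.eulerMascheroniConstant - 2 * ε' ≤ L := by linarith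
  have hL0 : 0 ≤ Real.log X - Real.eulerMascheroniConstant - 2 * ε' := by linarith
  have hγ0 : 0 ≤ Real.eulerMascheroniConstant := by
    have := Real.one_half_lt_eulerMascheroniConstant
    linarith
  have p3 : 2 * s ^ 2 * (n : ℝ) ^ 2 * (Real.log X - Real.eulerMascheroniConstant) -
      ε * (n : ℝ) ^ 2 ≤ 2 * (((m : ℝ) - 1) ^ 2 * L) := by
    have a1 : s ^ 2 * (n : ℝ) ^ 2 - 2 * s * (s + 1) * n ≤ ((m : ℝ) - 1) ^ 2 := by
      rw [hmR]
      nlinarith [sq_nonneg (s + 1)]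
    have a2 : ((m : ℝ) - 1) ^ 2 * (Real.log X - Real.eulerMascheroniConstant - 2 * ε') ≤
        ((m : ℝ) - 1) ^ 2 * L := mul_le_mul_of_nonneg_left hL1 (sq_nonneg _)
    have a3 : (s ^ 2 * (n : ℝ) ^ 2 - 2 * s * (s + 1) * n) *
        (Real.log X - Real.eulerMascheroniConstant - 2 * ε') ≤
        ((m : ℝ) - 1) ^ 2 * (Real.log X - Real.eulerMascheroniConstant - 2 * ε') :=
      mul_le_mul_of_nonneg_right a1 hL0
    have a4 : 4 * s ^ 2 * ε' = ε / 2 := by
      rw [hε']; field_simp; ring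
    have a5 : 4 * s * (s + 1) * (Real.log X - Real.eulerMascheroniConstant - 2 * ε') ≤
        ε / 2 * n := by
      refine le_trans ?_ h5
      apply mul_le_mul_of_nonneg_left _ (by positivity)
      linarith
    have a6 : (n : ℝ) * (4 * s * (s + 1) *
        (Real.log X - Real.eulerMascheroniConstant - 2 * ε')) ≤ (n : ℝ) * (ε / 2 * n) :=
      mul_le_mul_of_nonneg_left a5 (by linarith)
    have a7 : 2 * ((s ^ 2 * (n : ℝ) ^ 2 - 2 * s * (s + 1) * n) *
        (Real.log X - Real.eulerMascheroniConstant - 2 * ε')) =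
        2 * s ^ 2 * (n : ℝ) ^ 2 * (Real.log X - Real.eulerMascheroniConstant) -
          (4 * s ^ 2 * ε') * (n : ℝ) ^ 2 - (n : ℝ) * (4 * s * (s + 1) *
        (Real.log X - Real.eulerMascheroniConstant - 2 * ε')) := by ring
    rw [a4] at a7
    have a8 : (n : ℝ) * (ε / 2 * n) = ε / 2 * (n : ℝ) ^ 2 := by ring
    rw [a8] at a6
    linarith
  have hXe : (2 * (n : ℝ) / J) = X := by rw [hXd]; ring
  rw [hXe]
  have hfin : (n : ℝ) ^ 2 * (-2 * s ^ 2 * (Real.log X - Real.eulerMascheroniConstant) +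
      (8 * ((h : ℝ) + b) * s + 24 * s) / J + ε) =
      8 * ((h : ℝ) + b) * s * (n : ℝ) ^ 2 / J + 24 * s * (n : ℝ) ^ 2 / J -
      (2 * s ^ 2 * (n : ℝ) ^ 2 * (Real.log X - Real.eulerMascheroniConstant) -
      ε * (n : ℝ) ^ 2) := by ring
  rw [hfin]
  linarith

end Pool.Agent.N334.W
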