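import Pool.Agent.N334.W.AR
import Pool.Agent.N334.W.Fin
import Pool.Agent.N334.W.LF
import Pool.Agent.N334.W.OM1
import Pool.Agent.N334.W.OM2
import Pool.Agent.N334.W.AND
import Pool.Agent.N334.W.GV
import Pool.Agent.N334.W.PT
import Pool.Agent.N334.W.RR
import Pool.Agent.N334.W.ARCH
import Pool.Agent.N334.W.CL1
import Pool.Agent.N334.W.CL2
import Pool.Agent.N334.W.CL
import Pool.Agent.N334.W.DOM
import Pool.Agent.N334.W.ASY
import Pool.Agent.N334.W.R0
import Pool.Agent.N334.W.GB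
import Pool.Agent.N334.W.RED
import Pool.Agent.N334.W.OMP
import Pool.Agent.N334.W.NV
import Pool.Agent.N334.W.LP
import Pool.Agent.N334.W.CBD
import Pool.Agent.N334.W.GR
import Pool.Agent.N334.W.EPB
import Pool.Agent.N334.W.SM
import Pool.Agent.N334.W.PN
import Pool.Agent.N334.W.SE
import Pool.Agent.N334.W.SL
import Pool.Agent.N334.W.SS
import Pool.Agent.N334.W.NUM
import Pool.Agent.N334.W.ME
import Pool.Agent.Dim7.Z3

/-! The windows theorem. -/

open Pool.Agent.H337R2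

namespace Pool.Agent.N334.W

theorem AR_pf : S_AR := AR_of LF OM1 OM2 (ARCH_of AND GV PT RR) (CL_of CL1 CL2) DOM ASY R0

theorem windows_of (hME : S_ME) (s : ℕ) (hs : Odd s) :
    ∃ j, Odd j ∧ s + 2 ≤ j ∧ 5 * j < 18 * s ∧ Irrational (zr j) :=
  final_of AR_pf NV (LP_of (RED_of OM1) OMP GB) (EPB_of CBD GR GB) SM (SE_of thm_PN) (SL_of thm_PN) (SS_of hME) NUM
    Pool.Agent.Dim7.Z3_irr s hs

/-- **The windows theorem.** For every odd `s ≥ 1` there is an odd `j`, `s + 2 ≤ j`, `5 j < 18 s`, with `ζ(j)` irrational. -/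
theorem windows (s : ℕ) (hs : Odd s) : ∃ j, Odd j ∧ s + 2 ≤ j ∧ 5 * j < 18 * s ∧ Irrational (zr j) :=
  windows_of ME s hs

end Pool.Agent.N334.W
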