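import Pool.Agent.N334.W.Defs

/-!
# Project WD: statements of the parts

Each part is a proposition `S_XX`; the proof goes to its own file `Pool/Agent/N334/W/XX.lean` with the theorem
`Pool.Agent.N334.W.XX : S_XX`.
-/

open Polynomial Pool.Agent.H337R2 Filter Topology

namespace Pool.Agent.N334.W

noncomputable section

/-! ### the linear form -/

/-- LF: the linear form -/
def S_LF : Prop := ∀ (b h n : ℕ) (u : ℕ → ℚ) (Q : ℚ[X]), Even b → 2 ≤ b → Even h → 1 ≤ n →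
  (∀ e, Odd e → b + 3 ≤ e → e < b + h → ((u e : ℚ) : ℝ) = zr e) →
  2 * Q.natDegree + 3 ≤ h * (2 * n + 1) →
  HasSum (fun t : ℕ => ((PowerSeries.coeff b
      (RS (sN n) (mu h) (PN h n * Q.comp (xp n)) (t : ℚ)) : ℚ) : ℝ))
    ((NL b h n u Q : ℚ) : ℝ)

/-- OM1: the `t`-th term in terms of the derivatives of `Q` at `x(t)` -/
def S_OM1 : Prop := ∀ (b h n : ℕ) (t : ℚ) (Q : ℚ[X]),
  PowerSeries.coeff b (RS (sN n) (mu h) (PN h n * Q.comp (xp n)) t) =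
    ∑ k ∈ Finset.range (b + 1), om b h n t k * (hasseDeriv k Q).eval (t * (t + ((4 * n : ℕ) : ℚ)))

/-- OM2: bound of `ω(t,k)` -/
def S_OM2 : Prop := ∀ b h : ℕ, ∃ K : ℝ, 0 < K ∧ ∀ n t k : ℕ, 1 ≤ n → k ≤ b →
  |((om b h n (t : ℚ) k : ℚ) : ℝ)| ≤ K * Rt h n t * (2 * (t : ℝ) + 4 * n) ^ k

/-! ### archimedean part -/

/-- AND: the formula of Andréief (Cauchy-Binet) -/
def S_AND : Prop := ∀ (N m : ℕ) (c : Fin N → ℝ) (u v : Fin N → Fin m → ℝ),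
  (m.factorial : ℝ) * (Matrix.of fun i j : Fin m => ∑ a, c a * u a i * v a j).det =
    ∑ f : Fin m → Fin N, (∏ i, c (f i)) * (Matrix.of fun i j : Fin m => u (f i) j).det *
      (Matrix.of fun i j : Fin m => v (f i) j).det

/-- GV: confluent Vandermonde determinants with gaps are bounded by Vandermonde determinants at nearby
complex points -/
def S_GV : Prop := ∀ (m : ℕ) (x : Fin m → ℝ) (α : Fin m → ℕ) (r : Fin m → ℝ) (S : ℝ), (∀ i, 0 < r i) →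
  (∀ w : Fin m → ℂ, (∀ i, ‖w i - (x i : ℂ)‖ = r i) →
    ∏ i : Fin m, ∏ j ∈ Finset.Ioi i, ‖w j - w i‖ ≤ S) →
  |(Matrix.of fun i j : Fin m => cv m (x i) (α i) j).det| ≤ (∏ i, (r i)⁻¹ ^ α i) * S

/-- PT: perturbation of the nodes -/
def S_PT : Prop := ∀ (s c m : ℕ) (t : Fin m → ℕ) (w : Fin m → ℂ), 1 ≤ s → 1 ≤ c →
  (∀ a : ℕ, (Finset.univ.filter fun i => t i = a).card ≤ s) →
  (∀ i, ‖w i - ((nx c (t i) : ℝ) : ℂ)‖ ≤ (2 * (t i : ℝ) + c) / 3) →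
  ∏ i : Fin m, ∏ j ∈ Finset.Ioi i, ‖w j - w i‖ ≤
    Real.exp (m * s * (1 + Real.log m)) * (∏ i, (2 * (t i : ℝ) + c) ^ s) *
      ∏ i : Fin m, ∏ j ∈ Finset.Ioi i, max 1 |nx c (t j) - nx c (t i)|

/-- RR: distribution of the nodes (with multiplicities at most `s`) to `s` interlacing sets -/
def S_RR : Prop := ∀ (s c N : ℕ) (t : Fin (s * N) → ℕ), 1 ≤ s → 1 ≤ c →
  (∀ a : ℕ, (Finset.univ.filter fun i => t i = a).card ≤ s) →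
  ∃ A : Fin s → Finset ℕ, (∀ α, (A α).card = N) ∧
    (∀ F : ℕ → ℝ, ∏ i, F (t i) = ∏ α, ∏ a ∈ A α, F a) ∧
    ∏ i : Fin (s * N), ∏ j ∈ Finset.Ioi i, max 1 |nx c (t j) - nx c (t i)| ≤
      (∏ α, vd c (A α)) ^ s * ∏ i, (nx c (t i) + 1) ^ s

/-- ARCH: bound for the truncated determinants -/
def S_ARCH : Prop := ∀ (s c N T : ℕ) (W : ℕ → ℝ) (ω : ℕ → ℕ → ℝ) (B : ℝ), 1 ≤ s → 2 ≤ c → 1 ≤ N →
  (∀ t, 0 ≤ W t) → (∀ t k, k < s → |ω t k| ≤ W t * (2 * (t : ℝ) + c) ^ k) → 0 ≤ B →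
  (∀ A : Finset ℕ, A.card = N →
    (∏ a ∈ A, W a * ((a : ℝ) + c) ^ (6 * s + 2)) * vd c A ^ (2 * s) ≤ B) →
  |(MT s c (s * N) T ω).det| ≤
    (36 ^ s * (s : ℝ) ^ 2) ^ (s * N) *
      Real.exp (2 * ((s * N : ℕ) : ℝ) * s * (1 + Real.log ((s * N : ℕ) : ℝ))) * B ^ s

/-- CL1: a telescoping sum -/
def S_CL1 : Prop := ∀ c a₁ a₂ : ℕ, 1 ≤ a₁ → 1 ≤ a₂ → a₁ + a₂ < c →
  HasSum (fun t : ℕ => (2 * (t : ℝ) + c) * ((t + a₁ - 1).factorial : ℝ) * ((t + a₂ - 1).factorial : ℝ) /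
      (((t + c - a₁).factorial : ℝ) * ((t + c - a₂).factorial : ℝ)))
    (((a₁ - 1).factorial : ℝ) * ((a₂ - 1).factorial : ℝ) /
      (((c - a₁ - 1).factorial : ℝ) * ((c - a₂ - 1).factorial : ℝ) * ((c : ℝ) - a₁ - a₂)))

/-- CL2: a Cauchy determinant -/
def S_CL2 : Prop := ∀ (N : ℕ) (C : ℝ), 2 * (N : ℝ) - 2 < C →
  (Matrix.of fun i j : Fin N => 1 / (C - (i.1 : ℝ) - (j.1 : ℝ))).det =
    ∏ i ∈ Finset.range N, ((i.factorial : ℝ) ^ 2 / ∏ j ∈ Finset.range N, (C - i - j))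

/-- CL: the products for the classical weight are bounded by the classical Hankel determinant -/
def S_CL : Prop := ∀ (c A N : ℕ) (S : Finset ℕ), 1 ≤ A → 2 * A + 2 * N ≤ c + 1 → S.card = N →
  (∏ a ∈ S, wcl c A a) * vd c S ^ 2 ≤ Dcl c A N

/-- DOM: domination by the classical weight -/
def S_DOM : Prop := ∀ (s h : ℕ) (K : ℝ), 1 ≤ s → 13 * s ≤ 5 * h → 0 < K →
  ∃ K' : ℝ, 0 < K' ∧ ∀ ν t : ℕ, 2 ≤ ν →
    (K * Rt h (10 * ν) t * ((t : ℝ) + 40 * ν) ^ (6 * s + 2)) ^ 5 ≤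
      K' * r0 (10 * ν) ^ (5 * h - 13 * s) * ((20 * ν).factorial : ℝ) ^ (13 * s) *
        wcl (40 * ν) (7 * ν + 5) t ^ (5 * s)

/-- ASY: size of the classical determinant -/
def S_ASY : Prop := ∀ ε : ℝ, 0 < ε → ∀ᶠ ν : ℕ in atTop,
  13 / 5 * (10 * (ν : ℝ) - 1) * Real.log ((20 * ν).factorial : ℝ) +
    Real.log (Dcl (40 * ν) (7 * ν + 5) (10 * ν - 1)) ≤
      (10 * (ν : ℝ)) ^ 2 * (2 * Real.log (10 * (ν : ℝ)) + a0 + ε)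

/-- R0: size of `r0` -/
def S_R0 : Prop := ∀ ε : ℝ, 0 < ε → ∀ᶠ n : ℕ in atTop,
  Real.log (r0 n) ≤ n * (-(3 * Real.log 3 - 2 * Real.log 2) + ε)

/-- AR: the archimedean bound -/
def S_AR : Prop := ∀ b h : ℕ, Even b → 2 ≤ b → Even h → 13 * (b + 1) ≤ 5 * h → ∀ ε : ℝ, 0 < ε →
  ∀ᶠ ν : ℕ in atTop, ∀ u : ℕ → ℚ,
    (∀ e, Odd e → b + 3 ≤ e → e < b + h → ((u e : ℚ) : ℝ) = zr e) →
    |((DET b h (10 * ν) u ((b + 1) * (10 * ν - 1)) : ℚ) : ℝ)| ≤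
      Real.exp ((10 * (ν : ℝ)) ^ 2 * (((b : ℝ) + 1) ^ 2 * (2 * Real.log (10 * (ν : ℝ)) + a0) -
        ((b : ℝ) + 1) * (5 * h - 13 * ((b : ℝ) + 1)) / 5 * (3 * Real.log 3 - 2 * Real.log 2) + ε))

/-! ### p-adic part -/

/-- GB: determinant bound from a triangular basis -/
def S_GB : Prop := ∀ (p : ℕ) (_ : p.Prime) (L : ℚ[X] →ₗ[ℚ] ℚ) (m : ℕ) (B : ℕ → ℚ[X]) (ρ : ℕ → ℝ),
  (∀ i, (B i).Monic ∧ (B i).natDegree = i) → (∀ i, 0 ≤ ρ i) →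
  (∀ i j, i < m → j < m → ((padicNorm p (L (B i * B j)) : ℚ) : ℝ) ≤ ρ i * ρ j) →
  ((padicNorm p (Matrix.of fun i j : Fin m => L (X ^ (i.1 + j.1))).det : ℚ) : ℝ) ≤
    ∏ i ∈ Finset.range m, ρ i ^ 2

/-- RED: the linear form modulo `p`-integral numbers, `p > 2n` -/
def S_RED : Prop := ∀ (b h n q p : ℕ) (u : ℕ → ℚ) (Q : ℤ[X]), Even b → 1 ≤ n → p.Prime → 2 * n < p →
  UInt q u → 2 * Q.natDegree + 1 < h * (2 * n + 1) →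
  padicNorm p ((q : ℚ) * (NL b h n u (Q.map (Int.castRingHom ℚ)) +
    ∑ c ∈ Finset.Icc 1 (3 * n - p), ∑ k ∈ Finset.range (b + 1), om b h n (-(c : ℚ)) k *
      (hasseDeriv k (Q.map (Int.castRingHom ℚ))).eval (-(c : ℚ) * (-(c : ℚ) + ((4 * n : ℕ) : ℚ))))) ≤ 1

/-- OMP: the valuations of `ω(-c, k)` -/
def S_OMP : Prop := ∀ (b h n p c : ℕ), 1 ≤ n → p.Prime → 2 * n < p → 1 ≤ c → c + p ≤ 3 * n →
  (∀ k, k ≤ b → padicNorm p (om b h n (-(c : ℚ)) k) ≤ (p : ℚ) ^ (h + b - k)) ∧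
  padicNorm p (om b h n (-(c : ℚ)) b) = (p : ℚ) ^ h

/-- NV: non-vanishing -/
def S_NV : Prop := ∀ (b h n q : ℕ) (u : ℕ → ℚ), Even b → 2 * (b + 1) ≤ h → (2 * n + 1).Prime →
  ¬ (2 * n + 1) ∣ q → UInt q u → DET b h n u ((b + 1) * (n - 1)) ≠ 0

/-- LP: the large primes -/
def S_LP : Prop := ∀ (b h n q p : ℕ) (u : ℕ → ℚ), Even b → 2 * (b + 1) ≤ h → 1 ≤ n → p.Prime → 2 * n < p →
  UInt q u → padicNorm p ((q : ℚ) ^ ((b + 1) * (n - 1)) * DET b h n u ((b + 1) * (n - 1))) ≤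
    (p : ℚ) ^ (h * (b + 1) * (3 * n - p))

/-- CBD: the linear form of products of node polynomials, `p > √(4n)` -/
def S_CBD : Prop := ∀ (b h n q p j : ℕ) (u : ℕ → ℚ) (r : ℕ → ℕ) (w : ℤ), 1 ≤ n → p.Prime → 4 * n < p ^ 2 →
  UInt q u → (∀ i, r i ≤ 4 * n) →
  (∀ k ∈ Finset.Icc n (3 * n), (h : ℤ) * ((Np n p k : ℤ) - ((2 * n / p : ℕ) : ℤ)) + b -
    (((Finset.range j).filter fun i => r i ≡ k [MOD p] ∨ 4 * n - r i ≡ k [MOD p]).card : ℤ) ≤ w) →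
  padicNorm p ((q : ℚ) * NL b h n u (∏ i ∈ Finset.range j, XN n (r i))) ≤ (p : ℚ) ^ w

/-- GR: greedy distribution of the zeros -/
def S_GR : Prop := ∀ (M : ℕ) (e : Fin (M + 1) → ℤ), ∃ (c : ℕ → Fin (M + 1)) (w : ℕ → ℤ),
  (∀ i a, w i ≤ e a + 2 * (((Finset.range i).filter fun l => c l = a).card : ℤ)) ∧
  ∀ (m : ℕ) (W : ℝ), W * m - ∑ a, (W - e a + 1) ^ 2 / 4 ≤ ∑ i ∈ Finset.range m, (w i : ℝ)

/-- EPB: the primes `√(4n) < p ≤ 2n` -/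
def S_EPB : Prop := ∀ (b h n q p : ℕ) (u : ℕ → ℚ), 1 ≤ n → p.Prime → 4 * n < p ^ 2 → p ≤ 2 * n →
  UInt q u → ((padicNorm p ((q : ℚ) ^ ((b + 1) * (n - 1)) * DET b h n u ((b + 1) * (n - 1))) : ℚ) : ℝ) ≤
    (p : ℝ) ^ EP b h n p

/-- SM: the small primes -/
def S_SM : Prop := ∀ (b h n q p l : ℕ) (u : ℕ → ℚ), 1 ≤ n → p.Prime →
  2 * ((b + 1) * (n - 1)) + 4 * n < p ^ (l + 1) → UInt q u →
  padicNorm p ((q : ℚ) ^ ((b + 1) * (n - 1)) * DET b h n u ((b + 1) * (n - 1))) ≤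
    ((p : ℚ) ^ l) ^ ((h + b) * ((b + 1) * (n - 1))) *
      ∏ i ∈ Finset.range ((b + 1) * (n - 1)), padicNorm p (((2 * i - 1).factorial : ℕ) : ℚ) ^ 2

/-! ### sums over primes -/

/-- the primes in `(a n, b n]` -/
def PS (a b : ℝ) (n : ℕ) : Finset ℕ := by
  classical exact (Finset.range (⌊b * n⌋₊ + 1)).filter fun p => p.Prime ∧ a * n < p

/-- ME: the formula of Mertens for `Λ` (lower bound) -/
def S_ME : Prop := ∀ ε : ℝ, 0 < ε → ∀ᶠ N : ℕ in atTop,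
  Real.log N - Real.eulerMascheroniConstant - ε ≤
    ∑ k ∈ Finset.Icc 1 N, ArithmeticFunction.vonMangoldt k / k

/-- PN: sums over primes -/
def S_PN : Prop := ∀ a b α β γ : ℝ, 0 < a → a < b →
  Tendsto (fun n : ℕ => (∑ p ∈ PS a b n, (α * (n : ℝ) ^ 2 / p + β * n + γ * p) * Real.log p) / (n : ℝ) ^ 2)
    atTop (𝓝 (α * Real.log (b / a) + β * (b - a) + γ * ((b ^ 2 - a ^ 2) / 2)))

/-- SE: the sum of the exponents over `2n/J < p ≤ 2n` -/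
def S_SE : Prop := ∀ (b h J : ℕ) (ε : ℝ), 1 ≤ J → 0 < ε → ∀ᶠ n : ℕ in atTop,
  ∑ p ∈ PS (2 / J) 2 n, EP b h n p * Real.log p ≤ (n : ℝ) ^ 2 * (e0 (b + 1) h J + ε)

/-- SL: the sum of the exponents over `2n < p ≤ 3n` -/
def S_SL : Prop := ∀ (b h : ℕ) (ε : ℝ), 0 < ε → ∀ᶠ n : ℕ in atTop,
  ∑ p ∈ PS 2 3 n, ((h * (b + 1) * (3 * n - p) : ℕ) : ℝ) * Real.log p ≤
    (n : ℝ) ^ 2 * ((h : ℝ) * (b + 1) / 2 + ε)

/-- SS: the sum over the small primes -/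
def S_SS : Prop := ∀ b h : ℕ, ∃ C : ℝ, ∀ (J : ℕ) (ε : ℝ), 1 ≤ J → 0 < ε → ∀ᶠ n : ℕ in atTop,
  ∑ p ∈ PS 0 (2 / J) n, Real.log
    (((p : ℝ) ^ Nat.log p (2 * ((b + 1) * (n - 1)) + 4 * n)) ^ ((h + b) * ((b + 1) * (n - 1))) *
      ∏ i ∈ Finset.range ((b + 1) * (n - 1)),
        ((padicNorm p (((2 * i - 1).factorial : ℕ) : ℚ) : ℚ) : ℝ) ^ 2) ≤
    (n : ℝ) ^ 2 * (-2 * ((b : ℝ) + 1) ^ 2 * (Real.log (2 * n / J) - Real.eulerMascheroniConstant) +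
      C / J + ε)

/-- NUM: the final numerical inequality -/
def S_NUM : Prop := ∀ (s h : ℕ) (C : ℝ), 1 ≤ s → 13 * s ≤ 5 * h → 5 * h ≤ 15 * s → ∃ J : ℕ, 1 ≤ J ∧
  (s : ℝ) ^ 2 * a0 - (s : ℝ) * (5 * h - 13 * (s : ℝ)) / 5 * (3 * Real.log 3 - 2 * Real.log 2) -
    2 * (s : ℝ) ^ 2 * Real.log 2 + 2 * (s : ℝ) ^ 2 * Real.log J +
    2 * (s : ℝ) ^ 2 * Real.eulerMascheroniConstant + C / J + e0 s h J + (h : ℝ) * s / 2 < 0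

end

end Pool.Agent.N334.W
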